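import Mathlib
import Pool.Agent.H918R3.TB1

/-!
# Q8 project: light copies of lemmas of `Pool.Agent.Y669.DescL`
-/

set_option autoImplicit false

namespace Pool.Agent.Helper30K9.QT

open WeierstrassCurve Pool.Agent.H918R3 Pool.Agent.H918R3.TB1

section half

variable {K : Type} [Field K] [DecidableEq K]

lemma exists_half' (h2 : (2 : K) ≠ 0) {e1 e2 e3 : K} (h12 : e1 ≠ e2) (h13 : e1 ≠ e3)
    (h23 : e2 ≠ e3) (P : Pt e1 e2 e3) (hP0 : IsSquare (dl e1 e2 e3 P))
    (hP1 : IsSquare (dl e2 e1 e3 P)) : ∃ Q : Pt e1 e2 e3, P = Q + Q := by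
  cases P with
  | zero => exact ⟨0, by rw [add_zero]; rfl⟩
  | some x y h =>
    have q := crv_eqn.mp h.1
    rw [dl_eq, dlW_some] at hP0 hP1
    by_cases hx1 : x = e1
    · rw [if_pos hx1] at hP0
      rw [if_neg (by rw [hx1]; exact h12)] at hP1
      refine halve h2 h12 h13 h23 ⟨0, by rw [hx1]; ring⟩ hP1 ?_ h
      have e4 : x - e3 = (e1 - e2) * (e1 - e3) / (x - e2) := by
        rw [hx1]
        have : e1 - e2 ≠ 0 := sub_ne_zero.2 h12
        field_simp
      rw [e4]
      exact hP0.div hP1
    · rw [if_neg hx1] at hP0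
      by_cases hx2 : x = e2
      · rw [if_pos hx2] at hP1
        refine halve h2 h12 h13 h23 hP0 ⟨0, by rw [hx2]; ring⟩ ?_ h
        have e4 : x - e3 = (e2 - e1) * (e2 - e3) / (x - e1) := by
          rw [hx2]
          have : e2 - e1 ≠ 0 := sub_ne_zero.2 h12.symm
          field_simp
        rw [e4]
        exact hP1.div hP0
      · rw [if_neg hx2] at hP1
        refine halve h2 h12 h13 h23 hP0 hP1 ?_ h
        have hn1 : x - e1 ≠ 0 := sub_ne_zero.2 hx1
        have hn2 : x - e2 ≠ 0 := sub_ne_zero.2 hx2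
        have e4 : x - e3 = y ^ 2 / ((x - e1) * (x - e2)) := by
          rw [eq_div_iff (mul_ne_zero hn1 hn2), q]
          ring
        rw [e4]
        exact (IsSquare.sq y).div (hP0.mul hP1)

/-- the points of order two -/
lemma two_tors (h2 : (2 : K) ≠ 0) {e1 e2 e3 : K} (h12 : e1 ≠ e2) (h13 : e1 ≠ e3)
    (h23 : e2 ≠ e3) : ∃ S : Finset (Pt e1 e2 e3), S.card ≤ 4 ∧ 0 ∈ S ∧
    (∀ P : Pt e1 e2 e3, P + P = 0 → P ∈ S) ∧
    (∀ P : Pt e1 e2 e3, P ∉ S → ∃ x y h, P = Affine.Point.some x y h ∧ y ≠ 0) := by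
  classical
  have n1 : (crv e1 e2 e3).toAffine.Nonsingular e1 0 := crv_nonsing h2 h12 h13 h23 (by ring)
  have n2 : (crv e1 e2 e3).toAffine.Nonsingular e2 0 := crv_nonsing h2 h12 h13 h23 (by ring)
  have n3 : (crv e1 e2 e3).toAffine.Nonsingular e3 0 := crv_nonsing h2 h12 h13 h23 (by ring)
  have hcase : ∀ P : Pt e1 e2 e3,
      P ∈ ({0, .some e1 0 n1, .some e2 0 n2, .some e3 0 n3} : Finset (Pt e1 e2 e3)) ∨
      ∃ x y h, P = Affine.Point.some x y h ∧ y ≠ 0 := by
    intro P
    cases P with
    | zero =>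
      left
      rw [Finset.mem_insert]
      left
      rfl
    | some x y h =>
      by_cases hy : y = 0
      · left
        subst hy
        have q := crv_eqn.mp h.1
        have q' : (x - e1) * (x - e2) * (x - e3) = 0 := by rw [← q]; ring
        rcases mul_eq_zero.1 q' with h1 | h1
        · rcases mul_eq_zero.1 h1 with h1 | h1
          · have hx := sub_eq_zero.1 h1
            subst hx
            simp
          · have hx := sub_eq_zero.1 h1
            subst hx
            simp
        · have hx := sub_eq_zero.1 h1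
          subst hx
          simp
      · right
        exact ⟨x, y, h, rfl, hy⟩
  refine ⟨{0, .some e1 0 n1, .some e2 0 n2, .some e3 0 n3}, ?_, by simp, ?_, ?_⟩
  · refine (Finset.card_insert_le _ _).trans ?_
    refine Nat.succ_le_succ ((Finset.card_insert_le _ _).trans ?_)
    refine Nat.succ_le_succ ((Finset.card_insert_le _ _).trans ?_)
    simp
  · intro P hP
    rcases hcase P with h | ⟨x, y, h, rfl, hy⟩
    · exact h
    · exfalso
      have h3 : (Affine.Point.some x y h : Pt e1 e2 e3) = -(Affine.Point.some x y h) :=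
        eq_neg_of_add_eq_zero_left hP
      rw [Affine.Point.neg_some] at h3
      simp only [Affine.Point.some.injEq, true_and] at h3
      simp only [Affine.negY, crv] at h3
      have h4 : 2 * y = 0 := by linear_combination h3
      rcases mul_eq_zero.1 h4 with h5 | h5
      · exact h2 h5
      · exact hy h5
  · intro P hP
    rcases hcase P with h | h
    · exact absurd h hP
    · exact h

end half

lemma sq_cancelL {K : Type} [Field K] {r Y : K} (hr : r ≠ 0) (h : IsSquare (r ^ 2 * Y)) :
    IsSquare Y := by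
  obtain ⟨w, hw⟩ := h
  refine ⟨w / r, ?_⟩
  rw [div_mul_div_comm, eq_div_iff (mul_ne_zero hr hr), ← hw]
  ring

lemma sq_trans {K : Type} [Field K] {a b c : K} (hb : b ≠ 0) (h1 : IsSquare (a * b))
    (h2 : IsSquare (b * c)) : IsSquare (a * c) := by
  refine sq_cancelL hb ?_
  have e : b ^ 2 * (a * c) = (a * b) * (b * c) := by ring
  rw [e]
  exact h1.mul h2

end Pool.Agent.Helper30K9.QT
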