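import Pool.Agent.Helper30K9.QT.StmN
import Pool.Agent.Helper30K9.QT.Half

/-!
# Q8 project: leaf CDY
-/

set_option autoImplicit false

namespace Pool.Agent.Helper30K9.QT

open Pool.Agent.W262.RK

theorem cdy (hloc : S_LOC) : S_CDY := by
  intro L _ _ δ A z1 h
  refine ⟨fun a b d hd => ⟨hd.1, hd.2.1⟩, ?_, ?_⟩
  · intro p hp hz hA
    obtain ⟨ι, ε, hε, hι⟩ := h.act p (by omega) hA
    refine ⟨ε, hε, fun a b P _ hP d hd => ?_⟩
    obtain ⟨hd1, hd2, x, y, hy, hxy, s1, s2⟩ := hd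
    have hε0 : (ε : ℚ_[p]) ≠ 0 := by
      intro h0
      apply hε
      have : ε = 0 := by exact_mod_cast h0
      rw [this]
      exact dvd_zero _
    have hιδ : ι δ ≠ 0 := (map_ne_zero_iff _ ι.injective).2 h.d0
    have hιy : ι y ≠ 0 := (map_ne_zero_iff _ ι.injective).2 hy
    obtain ⟨w, hw⟩ := hι
    have hw0 : w ≠ 0 := by
      rintro rfl
      rw [mul_zero] at hw
      exact mul_ne_zero hιδ hε0 hw
    have hxy' : ι δ * ι y ^ 2 = ι x * (ι x - a) * (ι x - b) := by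
      have := congrArg ι hxy
      simpa using this
    refine hP ((ε : ℚ_[p]) * ι x) ((ε : ℚ_[p]) * w * ι y)
      (mul_ne_zero (mul_ne_zero hε0 hw0) hιy) ?_ d.1 d.2 hd1 hd2 ?_ ?_
    · push_cast
      linear_combination (ε : ℚ_[p]) ^ 2 * ι y ^ 2 * (-hw) + (ε : ℚ_[p]) ^ 3 * hxy'
    · have h1 := s1.map ι
      rw [map_mul, map_mul, map_intCast] at h1
      obtain ⟨r, hr⟩ := h1
      refine ⟨r * w / ι δ, ?_⟩
      rw [div_mul_div_comm, eq_div_iff (mul_ne_zero hιδ hιδ)]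
      linear_combination (ι δ * ε) * hr + r * r * hw
    · have h1 := s2.map ι
      rw [map_mul, map_mul, map_sub, map_intCast, map_intCast] at h1
      obtain ⟨r, hr⟩ := h1
      refine ⟨r * w / ι δ, ?_⟩
      rw [div_mul_div_comm, eq_div_iff (mul_ne_zero hιδ hιδ)]
      push_cast
      linear_combination (ι δ * ε) * hr + r * r * hw
  · intro p hp hz hA a b d hd
    obtain ⟨hd1, hd2, x, y, hy, hxy, s1, s2⟩ := hd
    exact hloc L δ p hp (by omega) h.d0 (h.ina p hp (by omega) hA) a b d.1 d.2 x y hd1 hd2 hy hxy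
      s1 s2

end Pool.Agent.Helper30K9.QT
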