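import Pool.Agent.Helper30K9.QT.StmL

/-!
# Q8 project: [COC] invariant square classes up to the rational ones
-/

set_option autoImplicit false

namespace Pool.Agent.Helper30K9.QT

namespace Coc

variable {L : Type} [Field L] [NumberField L]

open Classical in
/-- a square root of `t * σ t` divided by `t` -/
noncomputable def ac (t : L) (σ : L ≃ₐ[ℚ] L) : L :=
  if h : IsSquare (t * σ t) then h.choose / t else 0

theorem ac_sq {t : L} (ht : t ≠ 0) {σ : L ≃ₐ[ℚ] L} (h : IsSquare (t * σ t)) :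
    ac t σ * ac t σ * t = σ t := by
  have h1 := h.choose_spec
  unfold ac
  rw [dif_pos h]
  have : h.choose / t * (h.choose / t) * t = (h.choose * h.choose) / t := by
    field_simp
  rw [this, ← h1]
  field_simp

theorem ac_ne {t : L} (ht : t ≠ 0) {σ : L ≃ₐ[ℚ] L} (h : IsSquare (t * σ t)) : ac t σ ≠ 0 := by
  intro h0
  have h1 := ac_sq ht h
  rw [h0] at h1
  simp only [mul_zero, zero_mul] at h1
  exact ht ((map_eq_zero σ).1 h1.symm)

theorem ac_mul {t : L} (ht : t ≠ 0) (h : ∀ σ : L ≃ₐ[ℚ] L, IsSquare (t * σ t))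
    (σ τ : L ≃ₐ[ℚ] L) :
    ac t σ * σ (ac t τ) = ac t (σ * τ) ∨ ac t σ * σ (ac t τ) = -ac t (σ * τ) := by
  apply mul_self_eq_mul_self_iff.1
  have h1 := ac_sq ht (h σ)
  have h2 := congrArg σ (ac_sq ht (h τ))
  have h3 := ac_sq ht (h (σ * τ))
  rw [map_mul, map_mul] at h2
  have h4 : (σ * τ) t = σ (τ t) := rfl
  rw [h4] at h3
  apply mul_right_cancel₀ ht
  calc ac t σ * σ (ac t τ) * (ac t σ * σ (ac t τ)) * t
      = σ (ac t τ) * σ (ac t τ) * (ac t σ * ac t σ * t) := by ring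
    _ = σ (τ t) := by rw [h1, h2]
    _ = _ := h3.symm

end Coc

open Coc in
open Classical in
/-- [COC] -/
theorem coc : S_COC := by
  intro L _ _ _
  refine ⟨fun t σ τ => decide (ac t σ * σ (ac t τ) = ac t (σ * τ)), ?_⟩
  intro t t' ht ht' hs hs' hΦ
  have hb : ∀ σ, ac t σ * ac t' σ ≠ 0 := fun σ =>
    mul_ne_zero (ac_ne ht (hs σ)) (ac_ne ht' (hs' σ))
  have hc : ∀ σ τ : L ≃ₐ[ℚ] L,
      ac t (σ * τ) * ac t' (σ * τ) = σ (ac t τ * ac t' τ) * (ac t σ * ac t' σ) := by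
    intro σ τ
    have h1 := congrFun (congrFun hΦ σ) τ
    simp only [decide_eq_decide] at h1
    have h2 := ac_mul ht hs σ τ
    have h3 := ac_mul ht' hs' σ τ
    rw [map_mul]
    by_cases h4 : ac t σ * σ (ac t τ) = ac t (σ * τ)
    · have h5 := h1.1 h4
      rw [← h4, ← h5]
      ring
    · have h5 : ¬ ac t' σ * σ (ac t' τ) = ac t' (σ * τ) := fun h => h4 (h1.2 h)
      have h6 := h2.resolve_left h4
      have h7 := h3.resolve_left h5
      have h8 : ac t (σ * τ) = -(ac t σ * σ (ac t τ)) := by rw [h6, neg_neg]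
      have h9 : ac t' (σ * τ) = -(ac t' σ * σ (ac t' τ)) := by rw [h7, neg_neg]
      rw [h8, h9]
      ring
  have hcoc : groupCohomology.IsMulCocycle₁
      (fun σ : L ≃ₐ[ℚ] L => Units.mk0 (ac t σ * ac t' σ) (hb σ)) := by
    intro σ τ
    apply Units.ext
    show ac t (σ * τ) * ac t' (σ * τ) = σ (ac t τ * ac t' τ) * (ac t σ * ac t' σ)
    exact hc σ τ
  obtain ⟨β, hβ⟩ := groupCohomology.isMulCoboundary₁_of_isMulCocycle₁_of_aut_to_units _ hcoc
  have hβ' : ∀ σ : L ≃ₐ[ℚ] L, σ (β : L) = ac t σ * ac t' σ * β := by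
    intro σ
    have h1 := congrArg (Units.val) (hβ σ)
    have h2 : σ (β : L) / (β : L) = ac t σ * ac t' σ := by
      rw [← Units.val_mk0 (hb σ), ← h1]
      rw [Units.val_div_eq_div_val]
      rfl
    rw [← h2, div_mul_cancel₀ _ β.ne_zero]
  have hfix : ∀ σ : L ≃ₐ[ℚ] L, σ (t * t' / ((β : L) * β)) = t * t' / ((β : L) * β) := by
    intro σ
    rw [map_div₀, map_mul, map_mul, hβ' σ, ← ac_sq ht (hs σ), ← ac_sq ht' (hs' σ)]
    have h1 := hb σ
    have h2 := β.ne_zero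
    have h3 := left_ne_zero_of_mul h1
    have h4 := right_ne_zero_of_mul h1
    field_simp
  obtain ⟨q, hq⟩ := (IsGalois.mem_range_algebraMap_iff_fixed (F := ℚ) (E := L) _).2 hfix
  have hq0 : q ≠ 0 := by
    rintro rfl
    rw [map_zero] at hq
    have := div_ne_zero (mul_ne_zero ht ht') (mul_ne_zero β.ne_zero β.ne_zero)
    exact this hq.symm
  refine ⟨q, hq0, (q : L) * β, ?_⟩
  have h5 : t * t' = (q : L) * ((β : L) * β) := by
    have h6 : algebraMap ℚ L q = (q : L) := by simp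
    rw [← h6, hq, div_mul_cancel₀]
    exact mul_ne_zero β.ne_zero β.ne_zero
  rw [h5]
  ring

end Pool.Agent.Helper30K9.QT
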