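import Pool.Agent.Helper30K9.QT.Repc

/-!
# Q8 project: the decomposition of the space
-/

set_option autoImplicit false

namespace Pool.Agent.Helper30K9.QT

namespace RepL

variable {G : Type} [Group G]

/-- the character `g ↦` the commutator of `g` and `K` -/
theorem exists_char {z I J : G} (h : QG z I J) (K : G)
    (hI : I * K = K * I ∨ I * K = z * (K * I)) (hJ : J * K = K * J ∨ J * K = z * (K * J)) :
    ∃ χ : G →* ℤˣ, (∀ g, g * K = K * g → χ g = 1) ∧ ∀ g, g * K = z * (K * g) → χ g = -1 := by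
  classical
  have hc := central h
  have hall : ∀ g, g * K = K * g ∨ g * K = z * (K * g) := by
    refine ind h ?_ ?_ hI hJ ?_
    · left; simp
    · left; exact hc K
    · rintro a b (ha | ha) (hb | hb)
      · left; rw [mul_assoc, hb, ← mul_assoc, ha, mul_assoc]
      · right
        rw [mul_assoc, hb, ← mul_assoc, ← hc a, mul_assoc z a, ← mul_assoc a K, ha, mul_assoc K]
      · right; rw [mul_assoc, hb, ← mul_assoc, ha]; simp only [mul_assoc]
      · left
        rw [mul_assoc, hb, ← mul_assoc, ← hc a, mul_assoc z a, ← mul_assoc a K, ha]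
        simp only [← mul_assoc]
        rw [h.zz, one_mul]
  have hne : ∀ g, g * K = K * g → g * K ≠ z * (K * g) := by
    intro g h1 h2
    rw [h1] at h2
    have h3 : 1 * (K * g) = z * (K * g) := by rw [one_mul]; exact h2
    exact h.z1 (mul_right_cancel h3).symm
  let f : G → ℤˣ := fun g => if g * K = K * g then 1 else -1
  have f1 : ∀ g, g * K = K * g → f g = 1 := fun g hg => if_pos hg
  have f2 : ∀ g, g * K = z * (K * g) → f g = -1 := fun g hg => if_neg fun h1 => hne g h1 hg
  refine ⟨MonoidHom.mk' f ?_, f1, f2⟩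
  rintro a b
  rcases hall a with ha | ha <;> rcases hall b with hb | hb
  · rw [f1 a ha, f1 b hb, f1]
    · simp
    · rw [mul_assoc, hb, ← mul_assoc, ha, mul_assoc]
  · rw [f1 a ha, f2 b hb, f2]
    · simp
    · rw [mul_assoc, hb, ← mul_assoc, ← hc a, mul_assoc z a, ← mul_assoc a K, ha, mul_assoc K]
  · rw [f2 a ha, f1 b hb, f2]
    · simp
    · rw [mul_assoc, hb, ← mul_assoc, ha]; simp only [mul_assoc]
  · rw [f2 a ha, f2 b hb, f1]
    · simp
    · rw [mul_assoc, hb, ← mul_assoc, ← hc a, mul_assoc z a, ← mul_assoc a K, ha]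
      simp only [← mul_assoc]
      rw [h.zz, one_mul]

end RepL

open RepL in
theorem dim : S_DIM := by
  intro G _ z I J hq
  have hc := central hq
  have hJI : J * I = z * (I * J) := by
    rw [hq.IJ, ← mul_assoc, hq.zz, one_mul]
  obtain ⟨χ1, a1, b1⟩ := exists_char hq I (Or.inl rfl) (Or.inr hJI)
  obtain ⟨χ2, a2, b2⟩ := exists_char hq J (Or.inr hq.IJ) (Or.inl rfl)
  have z1 : χ1 z = 1 := a1 z (hc I)
  have z2 : χ2 z = 1 := a2 z (hc J)
  have I1 : χ1 I = 1 := a1 I rfl
  have J1 : χ1 J = -1 := b1 J hJI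
  have I2 : χ2 I = -1 := b2 I hq.IJ
  have J2 : χ2 J = 1 := a2 J rfl
  refine ⟨![1, χ1, χ2, χ1 * χ2], ?_⟩
  intro X _ _ _ R
  have hzz : ∀ x : X, R z (R z x) = x := fun x => by rw [← rho_mul, hq.zz, map_one]; rfl
  have hcz : ∀ (g : G) (x : X), R z (R g x) = R g (R z x) := fun g x => by
    rw [← rho_mul, ← rho_mul, hc g]
  have hII : ∀ x : X, R I (R I x) = R z x := fun x => by rw [← rho_mul, hq.II]
  have hJJ : ∀ x : X, R J (R J x) = R z x := fun x => by rw [← rho_mul, hq.JJ]
  have hIJ : ∀ x : X, R I (R J x) = R z (R J (R I x)) := fun x => by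
    rw [← rho_mul, hq.IJ, rho_mul, rho_mul]
  -- membership in `Xc`
  have hmem : ∀ (χ : G →* ℤˣ) (x : X), χ z = 1 → R z x = x → R I x = ((χ I : ℤˣ) : ℤ) • x →
      R J x = ((χ J : ℤˣ) : ℤ) • x → x ∈ Xc R χ := by
    intro χ x h1 h2 h3 h4
    show ∀ g, R g x = ((χ g : ℤˣ) : ℤ) • x
    refine ind hq ?_ ?_ h3 h4 ?_
    · simp
    · rw [h1, h2]; simp
    · intro a b ha hb
      rw [rho_mul, hb, map_zsmul, ha, smul_smul, map_mul, Units.val_mul, mul_comm]
  have htop : (⊤ : Submodule ℂ X) ≤ Xm R z ⊔ (Xc R 1 ⊔ (Xc R χ1 ⊔ (Xc R χ2 ⊔ Xc R (χ1 * χ2)))) := by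
    intro x _
    set y : X := (1 / 2 : ℂ) • (x + R z x) with hy
    have hyz : R z y = y := by
      rw [hy, map_smul, map_add, hzz, add_comm]
    have yII : R I (R I y) = y := by rw [hII, hyz]
    have yJJ : R J (R J y) = y := by rw [hJJ, hyz]
    have yIJ : R I (R J y) = R J (R I y) := by rw [hIJ, hcz, hcz, hyz]
    have yIz : R z (R I y) = R I y := by rw [hcz, hyz]
    have yJz : R z (R J y) = R J y := by rw [hcz, hyz]
    have yJIz : R z (R J (R I y)) = R J (R I y) := by rw [hcz, hcz, hyz]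
    have yIJI : R I (R J (R I y)) = R J y := by
      rw [← yIJ, hII, yJz]
    have yJJI : R J (R J (R I y)) = R I y := by rw [hJJ, yIz]
    have m0 : (1 / 4 : ℂ) • (y + R I y + R J y + R J (R I y)) ∈ Xc R (1 : G →* ℤˣ) := by
      apply Submodule.smul_mem
      apply hmem
      · simp
      · simp only [map_add, hyz, yIz, yJz, yJIz]
      · simp only [map_add, yII, yIJ, yIJI, MonoidHom.one_apply, Units.val_one, one_smul]; abel
      · simp only [map_add, yJJ, yJJI, MonoidHom.one_apply, Units.val_one, one_smul]; abel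
    have m1 : (1 / 4 : ℂ) • (y + R I y - R J y - R J (R I y)) ∈ Xc R χ1 := by
      apply Submodule.smul_mem
      apply hmem
      · exact z1
      · simp only [map_add, map_sub, hyz, yIz, yJz, yJIz]
      · rw [I1]; simp only [map_add, map_sub, yII, yIJ, yIJI, Units.val_one, one_smul]; abel
      · rw [J1]
        simp only [map_add, map_sub, yJJ, yJJI, Units.val_neg, Units.val_one, neg_smul, one_smul]
        abel
    have m2 : (1 / 4 : ℂ) • (y - R I y + R J y - R J (R I y)) ∈ Xc R χ2 := by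
      apply Submodule.smul_mem
      apply hmem
      · exact z2
      · simp only [map_add, map_sub, hyz, yIz, yJz, yJIz]
      · rw [I2]
        simp only [map_add, map_sub, yII, yIJ, yIJI, Units.val_neg, Units.val_one, neg_smul,
          one_smul]
        abel
      · rw [J2]; simp only [map_add, map_sub, yJJ, yJJI, Units.val_one, one_smul]; abel
    have m3 : (1 / 4 : ℂ) • (y - R I y - R J y + R J (R I y)) ∈ Xc R (χ1 * χ2) := by
      apply Submodule.smul_mem
      apply hmem
      · rw [MonoidHom.mul_apply, z1, z2, one_mul]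
      · simp only [map_add, map_sub, hyz, yIz, yJz, yJIz]
      · rw [MonoidHom.mul_apply, I1, I2, one_mul]
        simp only [map_add, map_sub, yII, yIJ, yIJI, Units.val_neg, Units.val_one, neg_smul,
          one_smul]
        abel
      · rw [MonoidHom.mul_apply, J1, J2, mul_one]
        simp only [map_add, map_sub, yJJ, yJJI, Units.val_neg, Units.val_one, neg_smul, one_smul]
        abel
    have mm : (1 / 2 : ℂ) • (x - R z x) ∈ Xm R z := by
      apply Submodule.smul_mem
      show R z (x - R z x) = -(x - R z x)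
      rw [map_sub, hzz]; abel
    have key : x = (1 / 2 : ℂ) • (x - R z x) + ((1 / 4 : ℂ) • (y + R I y + R J y + R J (R I y)) +
        ((1 / 4 : ℂ) • (y + R I y - R J y - R J (R I y)) +
        ((1 / 4 : ℂ) • (y - R I y + R J y - R J (R I y)) +
        (1 / 4 : ℂ) • (y - R I y - R J y + R J (R I y))))) := by
      have h4 : (1 / 4 : ℂ) • (y + R I y + R J y + R J (R I y)) +
        ((1 / 4 : ℂ) • (y + R I y - R J y - R J (R I y)) +
        ((1 / 4 : ℂ) • (y - R I y + R J y - R J (R I y)) +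
        (1 / 4 : ℂ) • (y - R I y - R J y + R J (R I y)))) = y := by
        module
      rw [h4, hy]
      module
    rw [key]
    exact Submodule.add_mem_sup mm (Submodule.add_mem_sup m0 (Submodule.add_mem_sup m1
      (Submodule.add_mem_sup m2 m3)))
  have h1 := Submodule.finrank_mono htop
  rw [finrank_top] at h1
  have e1 := Submodule.finrank_add_le_finrank_add_finrank (Xm R z)
    (Xc R 1 ⊔ (Xc R χ1 ⊔ (Xc R χ2 ⊔ Xc R (χ1 * χ2))))
  have e2 := Submodule.finrank_add_le_finrank_add_finrank (Xc R 1)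
    (Xc R χ1 ⊔ (Xc R χ2 ⊔ Xc R (χ1 * χ2)))
  have e3 := Submodule.finrank_add_le_finrank_add_finrank (Xc R χ1) (Xc R χ2 ⊔ Xc R (χ1 * χ2))
  have e4 := Submodule.finrank_add_le_finrank_add_finrank (Xc R χ2) (Xc R (χ1 * χ2))
  have hsum : ∑ i, Module.finrank ℂ (Xc R ((![1, χ1, χ2, χ1 * χ2] : Fin 4 → (G →* ℤˣ)) i)) =
      Module.finrank ℂ (Xc R (1 : G →* ℤˣ)) + Module.finrank ℂ (Xc R χ1) +
        Module.finrank ℂ (Xc R χ2) + Module.finrank ℂ (Xc R (χ1 * χ2)) := by
    rw [Fin.sum_univ_four]; rfl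
  rw [hsum]
  omega

end Pool.Agent.Helper30K9.QT
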