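import Mathlib

/-!
# Q8 project: statements of the light leaves (Mathlib only)
-/

set_option autoImplicit false

namespace Pool.Agent.Helper30K9.QT

open WeierstrassCurve TensorProduct WithZero

/-- relations of the quaternion group of order 8 -/
structure QG {G : Type} [Group G] (z I J : G) : Prop where
  zz : z * z = 1
  z1 : z ≠ 1
  II : I * I = z
  JJ : J * J = z
  IJ : I * J = z * (J * I)
  all : ∀ g : G, g = 1 ∨ g = z ∨ g = I ∨ g = z * I ∨ g = J ∨ g = z * J ∨ g = I * J ∨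
    g = z * (I * J)

/-- the data of a quaternion field: `F = L(s)`, `δ = s²`, `L` the fixed field of `z` -/
structure FD {F : Type} [Field F] [NumberField F] (z I J : F ≃ₐ[ℚ] F)
    (L : IntermediateField ℚ F) (s : F) (δ : L) : Prop where
  gal : IsGalois ℚ F
  qg : QG z I J
  hL : ∀ τ : F ≃ₐ[ℚ] F, τ ∈ L.fixingSubgroup ↔ τ = 1 ∨ τ = z
  s0 : s ≠ 0
  zs : z s = -s
  hδ : (δ : F) = s ^ 2
  int : IsIntegral ℤ s

/-- the local data at the primes: `A p` if `p` splits completely in `L` -/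
structure LD2 (L : Type) [Field L] [NumberField L] (δ : L) (A : ℕ → Prop) (z1 : ℕ) : Prop where
  d0 : δ ≠ 0
  act : ∀ (p : ℕ) [Fact p.Prime], z1 < p → A p →
    ∃ (ι : L →+* ℚ_[p]) (ε : ℤ), ¬ (p : ℤ) ∣ ε ∧ IsSquare (ι δ * ε)
  ina : ∀ (p : ℕ), p.Prime → z1 < p → ¬ A p → ∃ v : Valuation L ℤᵐ⁰,
    v (p : L) = exp (-1 : ℤ) ∧ (∀ c : ℤ, ¬ (p : ℤ) ∣ c → v (c : L) = 1) ∧
    ∀ (r : ℚ) (u : L), r ≠ 0 → v (u - 1) < 1 → ¬ IsSquare (δ * (r : L) * u)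

/-- [LOC] at a prime outside `A` the rational classes are unramified -/
def S_LOC : Prop := ∀ (L : Type) [Field L] [NumberField L] (δ : L) (p : ℕ), p.Prime → p ≠ 2 →
  δ ≠ 0 → (∃ v : Valuation L ℤᵐ⁰,
    v (p : L) = exp (-1 : ℤ) ∧ (∀ c : ℤ, ¬ (p : ℤ) ∣ c → v (c : L) = 1) ∧
    ∀ (r : ℚ) (u : L), r ≠ 0 → v (u - 1) < 1 → ¬ IsSquare (δ * (r : L) * u)) →
  ∀ (a b d1 d2 : ℤ) (x y : L), Squarefree d1 → Squarefree d2 → y ≠ 0 →
    δ * y ^ 2 = x * (x - a) * (x - b) → IsSquare (δ * x * d1) → IsSquare (δ * (x - a) * d2) →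
    ¬ (p : ℤ) ∣ d1 ∧ ¬ (p : ℤ) ∣ d2

/-- [FROB] Frobenius elements at all large primes -/
def S_FROB : Prop := ∀ (F : Type) [Field F] [NumberField F] [IsGalois ℚ F],
  ∃ z0 : ℕ, ∀ p : ℕ, p.Prime → z0 < p → ∃ (v : Valuation F ℤᵐ⁰) (g : F ≃ₐ[ℚ] F),
    v (p : F) = exp (-1 : ℤ) ∧ (∀ c : ℤ, ¬ (p : ℤ) ∣ c → v (c : F) = 1) ∧
    (∀ x : F, IsIntegral ℤ x → v x ≤ 1) ∧ ∀ x : F, v x ≤ 1 → v (g x - x ^ p) < 1

/-- proved: `Pool.Agent.W683.AT.chi` -/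
def S_CHI : Prop := ∀ (F : Type) [Field F] [NumberField F] [IsGalois ℚ F]
  (χ : (F ≃ₐ[ℚ] F) →* ℤˣ), ∃ (D : ℤ) (s : F), Squarefree D ∧ s ^ 2 = (D : F) ∧
    ∀ σ : F ≃ₐ[ℚ] F, σ s = (((χ σ : ℤˣ) : ℤ) : F) * s

/-- [LDF] the local data of the quaternion field (with `S_FROB` and `S_CHI` as hypotheses) -/
def S_LDF : Prop := ∀ (F : Type) [Field F] [NumberField F] (z I J : F ≃ₐ[ℚ] F)
  (L : IntermediateField ℚ F) (s : F) (δ : L), FD z I J L s δ →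
  ∃ S : Finset ℤ, (∀ D ∈ S, D ≠ 0) ∧ ∃ z0 : ℕ, ∀ (A : ℕ → Prop) (z1 : ℕ), z0 ≤ z1 →
    (∀ p : ℕ, p.Prime → z1 < p → (A p ↔ ∀ D ∈ S, jacobiSym D p = 1)) → LD2 L δ A z1

/-- [JCH] Dirichlet characters of Jacobi symbols -/
def S_JCH : Prop := ∀ S : Finset ℤ, (∀ D ∈ S, D ≠ 0) →
  ∃ (N : ℕ) (_ : NeZero N) (Ψ : Subgroup (DirichletCharacter ℂ N)), ∀ p : ℕ, p.Prime → N < p →
    ((∀ ψ ∈ Ψ, ψ (p : ZMod N) = 1) ↔ ∀ D ∈ S, jacobiSym D p = 1)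

/-- [COC] the invariant square classes up to the rational ones -/
def S_COC : Prop := ∀ (L : Type) [Field L] [NumberField L] [IsGalois ℚ L],
  ∃ Φ : L → (L ≃ₐ[ℚ] L) → (L ≃ₐ[ℚ] L) → Bool, ∀ t t' : L, t ≠ 0 → t' ≠ 0 →
    (∀ σ : L ≃ₐ[ℚ] L, IsSquare (t * σ t)) → (∀ σ : L ≃ₐ[ℚ] L, IsSquare (t' * σ t')) →
    Φ t = Φ t' → ∃ r : ℚ, r ≠ 0 ∧ IsSquare (t * t' * (r : L))

/-- [PG] two commuting involutions of a vector space over `F_2` -/
def S_PG : Prop := ∀ (M : Type) [AddCommGroup M] (I J : M →+ M),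
  (∀ m, ∃ h, I (I m) = m + (h + h)) → (∀ m, ∃ h, J (J m) = m + (h + h)) →
  (∀ m, ∃ h, I (J m) = J (I m) + (h + h)) → ∀ R : Finset M,
  (∀ m, (∃ h, I m = m + (h + h)) → (∃ h, J m = m + (h + h)) → ∃ r ∈ R, ∃ h, m = r + (h + h)) →
  ∃ S : Finset M, S.card ≤ R.card ^ 4 ∧ ∀ m, ∃ s ∈ S, ∃ h, m = s + (h + h)

section rep

variable {G : Type} [Group G] {V X : Type} [AddCommGroup V] [Module ℂ V] [AddCommGroup X]
  [Module ℂ X]

/-- the homomorphisms of representations -/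
def Hm (ρ : G →* (V →ₗ[ℂ] V)) (R : G →* (X →ₗ[ℂ] X)) : Submodule ℂ (V →ₗ[ℂ] X) where
  carrier := {f | ∀ g v, f (ρ g v) = R g (f v)}
  zero_mem' := fun g v => by simp
  add_mem' := fun {f f'} h h' g v => by simp [h g v, h' g v]
  smul_mem' := fun c f h g v => by simp [h g v]

/-- irreducible -/
def Irr (ρ : G →* (V →ₗ[ℂ] V)) : Prop :=
  (∃ v : V, v ≠ 0) ∧ ∀ U : Submodule ℂ V, (∀ g, ∀ u ∈ U, ρ g u ∈ U) → U = ⊥ ∨ U = ⊤

/-- the vectors with `z x = -x` -/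
def Xm (R : G →* (X →ₗ[ℂ] X)) (z : G) : Submodule ℂ X where
  carrier := {x | R z x = -x}
  zero_mem' := by simp
  add_mem' := fun {x y} hx hy => by
    show R z (x + y) = -(x + y)
    rw [map_add, hx, hy, neg_add]
  smul_mem' := fun c x hx => by
    show R z (c • x) = -(c • x)
    rw [map_smul, hx, smul_neg]

/-- the vectors with `g x = χ(g) x` -/
def Xc (R : G →* (X →ₗ[ℂ] X)) (χ : G →* ℤˣ) : Submodule ℂ X where
  carrier := {x | ∀ g, R g x = ((χ g : ℤˣ) : ℤ) • x}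
  zero_mem' := fun g => by simp
  add_mem' := fun {x y} hx hy g => by rw [map_add, hx g, hy g, smul_add]
  smul_mem' := fun c x hx g => by rw [map_smul, hx g, smul_comm]

end rep

/-- [REPM] the representations with `z = -1` -/
def S_REPM : Prop := ∀ (G V X : Type) [Group G] [AddCommGroup V] [Module ℂ V] [AddCommGroup X]
  [Module ℂ X] [Module.Finite ℂ X] (z I J : G), QG z I J → ∀ (ρ : G →* (V →ₗ[ℂ] V))
  (R : G →* (X →ₗ[ℂ] X)), Irr ρ → (∀ v, ρ z v = -v) →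
  2 * Module.finrank ℂ (Hm ρ R) ≤ Module.finrank ℂ (Xm R z)

/-- [REPC] the other irreducible representations are the characters -/
def S_REPC : Prop := ∀ (G V X : Type) [Group G] [AddCommGroup V] [Module ℂ V] [AddCommGroup X]
  [Module ℂ X] [Module.Finite ℂ X] (z I J : G), QG z I J → ∀ (ρ : G →* (V →ₗ[ℂ] V))
  (R : G →* (X →ₗ[ℂ] X)), Irr ρ → (∀ v, ρ z v = -v) ∨
  ∃ χ : G →* ℤˣ, Module.finrank ℂ (Hm ρ R) ≤ Module.finrank ℂ (Xc R χ)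

/-- [DIM] the decomposition of the space -/
def S_DIM : Prop := ∀ (G : Type) [Group G] (z I J : G), QG z I J →
  ∃ χ : Fin 4 → (G →* ℤˣ), ∀ (X : Type) [AddCommGroup X] [Module ℂ X] [Module.Finite ℂ X]
    (R : G →* (X →ₗ[ℂ] X)),
    Module.finrank ℂ X ≤ Module.finrank ℂ (Xm R z) + ∑ i, Module.finrank ℂ (Xc R (χ i))

/-- the representation on `ℂ ⊗ W(F)` -/
noncomputable def RX (F : Type) [Field F] [NumberField F] [DecidableEq F]
    (W : WeierstrassCurve ℚ) :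
    (F ≃ₐ[ℚ] F) →* ((ℂ ⊗[ℤ] (W.baseChange F).toAffine.Point) →ₗ[ℂ]
      (ℂ ⊗[ℤ] (W.baseChange F).toAffine.Point)) where
  toFun := fun σ => LinearMap.baseChange ℂ
    (Affine.Point.map (W' := W.toAffine) (σ : F →ₐ[ℚ] F)).toIntLinearMap
  map_one' := by
    ext x
    induction x using Affine.Point.rec <;> rfl
  map_mul' := fun σ τ => by
    ext x
    induction x using Affine.Point.rec <;> rfl

end Pool.Agent.Helper30K9.QT
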