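import Mathlib
import Pool.Agent.H918R3.TB1
import Pool.Agent.Helper30K9.QT.StmL

/-!
# Q8 project: statements of the leaves about the descent (import only `H918R3.TB1`)
-/

set_option autoImplicit false

namespace Pool.Agent.Helper30K9.QT

open WeierstrassCurve Pool.Agent.H918R3 Pool.Agent.H918R3.TB1 TensorProduct

/-- the rational classes of the points of `δ y² = x (x - a) (x - b)` over `L` -/
def SY (L : Type) [Field L] (δ : L) (a b : ℤ) : Set (ℤ × ℤ) :=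
  {d | Squarefree d.1 ∧ Squarefree d.2 ∧ ∃ x y : L, y ≠ 0 ∧ δ * y ^ 2 = x * (x - a) * (x - b) ∧
    IsSquare (δ * x * d.1) ∧ IsSquare (δ * (x - a) * d.2)}

/-- the constant -/
noncomputable def KL (L : Type) [Field L] [NumberField L] : ℕ :=
  8 * Nat.card ((L ≃ₐ[ℚ] L) → (L ≃ₐ[ℚ] L) → Bool) ^ 2

/-- `T` is semilinear over `σ` -/
def SemiL {L : Type} [Field L] [NumberField L] [DecidableEq L] (δ : L) (e1 e2 e3 : ℤ)
    (T : Pt (δ * e1) (δ * e2) (δ * e3) →+ Pt (δ * e1) (δ * e2) (δ * e3)) (σ : L ≃ₐ[ℚ] L) : Prop :=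
  ∀ x y h, ∃ x' y' h', T (Affine.Point.some x y h) = Affine.Point.some x' y' h' ∧
    x' * σ δ = δ * σ x

/-- [INVQ] the invariant classes -/
def S_INVQ : Prop := ∀ (L : Type) [Field L] [NumberField L] [IsGalois ℚ L] [DecidableEq L]
  (δ : L), δ ≠ 0 → (∀ τ : L ≃ₐ[ℚ] L, IsSquare (δ * τ δ)) → ∀ e1 e2 e3 : ℤ, e1 ≠ e2 → e1 ≠ e3 →
  e2 ≠ e3 → ∀ (TI TJ : Pt (δ * e1) (δ * e2) (δ * e3) →+ Pt (δ * e1) (δ * e2) (δ * e3))
  (I J : L ≃ₐ[ℚ] L), (∀ τ : L ≃ₐ[ℚ] L, τ = 1 ∨ τ = I ∨ τ = J ∨ τ = I * J) →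
  SemiL δ e1 e2 e3 TI I → SemiL δ e1 e2 e3 TJ J → (SY L δ (e2 - e1) (e3 - e1)).Finite →
  ∃ R : Finset (Pt (δ * e1) (δ * e2) (δ * e3)),
    R.card ≤ KL L * max 1 (SY L δ (e2 - e1) (e3 - e1)).ncard ∧
    ∀ m, (∃ h, TI m = m + (h + h)) → (∃ h, TJ m = m + (h + h)) →
      ∃ r ∈ R, ∃ h, m = r + (h + h)

/-- [EMB] the dimension of the part of `ℂ ⊗ E(F)` with `z = -1` -/
def S_EMB : Prop := ∀ (F : Type) [Field F] [NumberField F] [DecidableEq F]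
  (z I J : F ≃ₐ[ℚ] F) (L : IntermediateField ℚ F) (s : F) (δ : L), FD z I J L s δ →
  ∀ e1 e2 e3 : ℤ, e1 ≠ e2 → e1 ≠ e3 → e2 ≠ e3 → (SY L δ (e2 - e1) (e3 - e1)).Finite →
  Module.Finite ℂ (ℂ ⊗[ℤ] ((crv (e1 : ℚ) e2 e3).baseChange F).toAffine.Point) ∧
  2 ^ Module.finrank ℂ (Xm (RX F (crv (e1 : ℚ) e2 e3)) z) ≤
    (KL L * max 1 (SY L δ (e2 - e1) (e3 - e1)).ncard) ^ 4

/-- [LINK] the multiplicity of a quadratic character and the rank of its part -/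
def S_LINK : Prop := ∀ (F : Type) [Field F] [NumberField F] [DecidableEq F]
  (χ : (F ≃ₐ[ℚ] F) →* ℤˣ) (W : WeierstrassCurve ℚ) (Q : AddSubgroup (W.baseChange F).toAffine.Point),
  AddGroup.FG (W.baseChange F).toAffine.Point →
  (∀ P, P ∈ Q ↔ ∀ σ : F ≃ₐ[ℚ] F, Affine.Point.map (W' := W.toAffine) (σ : F →ₐ[ℚ] F) P =
    ((χ σ : ℤˣ) : ℤ) • P) →
  Module.finrank ℂ (Xc (RX F W) χ) ≤ Module.finrank ℤ Q

end Pool.Agent.Helper30K9.QT
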