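import Pool.Agent.Y669.DescG
import Pool.Agent.Helper30K9.QT.StmM
import Pool.Agent.Helper30K9.QT.Half

/-!
# Q8 project: leaf EMB (adapted from `Pool.Agent.Y669.DescG`)
-/

set_option autoImplicit false

namespace Pool.Agent.Helper30K9.QT

open WeierstrassCurve Pool.Agent.H918R3 Pool.Agent.H918R3.TB1 TensorProduct
open Pool.Agent.W605.AT (Sc sc sc_zero sc_some sc_add sc_inj some_congr)
open Pool.Agent.Y669 (gact gact_mul gact_some crv_bc sc_crv nak)

lemma QG.central {G : Type} [Group G] {z I J : G} (h : QG z I J) (g : G) : z * g = g * z := by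
  have h1 : z * I = I * z := by rw [← h.II, mul_assoc]
  have h2 : z * J = J * z := by rw [← h.JJ, mul_assoc]
  rcases h.all g with rfl | rfl | rfl | rfl | rfl | rfl | rfl | rfl
  · rw [mul_one, one_mul]
  · rfl
  · exact h1
  · rw [mul_assoc, h1]
  · exact h2
  · rw [mul_assoc, h2]
  · rw [← mul_assoc, h1, mul_assoc, h2, mul_assoc]
  · have h3 : z * (I * J) = (I * J) * z := by rw [← mul_assoc, h1, mul_assoc, h2, mul_assoc]
    rw [mul_assoc, h3]

section

variable {F : Type} [Field F] [NumberField F] {z I J : F ≃ₐ[ℚ] F} {L : IntermediateField ℚ F}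
  {s : F} {δ : L}

lemma FD.galL (h : FD z I J L s δ) : IsGalois ℚ L := by
  have := h.gal
  have hn : L.fixingSubgroup.Normal := ⟨fun τ hτ g => by
    rw [h.hL] at hτ ⊢
    rcases hτ with rfl | rfl
    · left; group
    · right
      rw [← h.qg.central, mul_inv_cancel_right]⟩
  have h1 := IsGalois.of_fixedField_normal_subgroup (K := ℚ) (L := F) L.fixingSubgroup
  rwa [IsGalois.fixedField_fixingSubgroup] at h1

lemma FD.mem (h : FD z I J L s δ) (x : F) (hx : z x = x) : ∃ X : L, (X : F) = x := by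
  have := h.gal
  have h1 : x ∈ IntermediateField.fixedField L.fixingSubgroup := by
    rw [IntermediateField.mem_fixedField_iff]
    intro τ hτ
    rcases (h.hL τ).1 hτ with rfl | rfl
    · rfl
    · exact hx
  rw [IsGalois.fixedField_fixingSubgroup] at h1
  exact ⟨⟨x, h1⟩, rfl⟩

lemma FD.zL (h : FD z I J L s δ) (X : L) : z (X : F) = X :=
  (IntermediateField.mem_fixingSubgroup_iff _ _).1 ((h.hL z).2 (Or.inr rfl)) _ X.2

lemma FD.d0 (h : FD z I J L s δ) : δ ≠ 0 := by
  intro h1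
  have h2 := h.hδ
  rw [h1] at h2
  exact pow_ne_zero 2 h.s0 h2.symm

lemma FD.comm (h : FD z I J L s δ) (g : F ≃ₐ[ℚ] F) (x : F) : z (g x) = g (z x) := by
  have := congrArg (fun t : F ≃ₐ[ℚ] F => t x) (h.qg.central g)
  exact this

lemma FD.sq (h : FD z I J L s δ) (τ : L ≃ₐ[ℚ] L) : IsSquare (δ * τ δ) := by
  have hg := h.gal
  have hgL := h.galL
  obtain ⟨σ', hσ'⟩ := AlgEquiv.restrictNormalHom_surjective (F := ℚ) (K₁ := L) F τ
  have e1 : ((τ δ : L) : F) = σ' (δ : F) := by
    rw [← hσ']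
    exact AlgEquiv.restrictNormal_commutes σ' L δ
  obtain ⟨c, hc⟩ := h.mem (s * σ' s) (by
    rw [map_mul, h.comm, h.zs, map_neg]
    ring)
  refine ⟨c, ?_⟩
  apply Subtype.ext
  show (δ : F) * ((τ δ : L) : F) = (c : F) * (c : F)
  rw [e1, h.hδ, map_pow, hc]
  ring

end

theorem emb (hi : S_INVQ) (hp : S_PG) : S_EMB := by
  intro F _ _ _ z I J L s δ h e1 e2 e3 h12 h13 h23 hfin
  classical
  have hgal := h.gal
  have hgL := h.galL
  have hs0 := h.s0
  have hδ := h.hδ
  have hδ0 := h.d0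
  obtain ⟨W, hW⟩ : ∃ W : WeierstrassCurve ℚ, W = crv (e1 : ℚ) e2 e3 := ⟨_, rfl⟩
  rw [← hW]
  have hWF : W.baseChange F = crv (e1 : F) e2 e3 := by
    rw [hW, crv_bc]
    simp
  obtain ⟨W', hW'⟩ : ∃ W' : WeierstrassCurve L, W' = crv (δ * e1) (δ * e2) (δ * e3) := ⟨_, rfl⟩
  have hW'F : W'.baseChange F = crv ((δ : F) * e1) (δ * e2) (δ * e3) := by
    rw [hW', crv_bc]
    simp
  have hsc : Sc (W'.baseChange F).toAffine (W.baseChange F).toAffine s⁻¹ := by
    rw [hWF, hW'F]
    refine sc_crv (inv_ne_zero hs0) ?_ ?_ ?_ <;>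
    · rw [hδ]
      field_simp
  have hW'L : W'.baseChange L = W' := by
    rw [hW', crv_bc]
    simp
  -- the homomorphism
  have hψ : ∃ ψ : Pt (δ * (e1 : L)) (δ * e2) (δ * e3) →+ (W.baseChange F).toAffine.Point,
      Function.Injective ψ ∧ (∀ X Y h, ∃ h', ψ (Affine.Point.some X Y h) =
        Affine.Point.some ((s⁻¹) ^ 2 * (X : F)) ((s⁻¹) ^ 3 * (Y : F)) h') ∧
      (∀ x y h, (∃ X : L, (X : F) = s ^ 2 * x) → (∃ Y : L, (Y : F) = s ^ 3 * y) →
        ∃ Q, ψ Q = Affine.Point.some x y h) := by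
    have key : ∀ (W₁ : WeierstrassCurve L), W₁ = W' →
        (∃ ψ : W₁.toAffine.Point →+ (W.baseChange F).toAffine.Point,
          Function.Injective ψ ∧ (∀ X Y h, ∃ h', ψ (Affine.Point.some X Y h) =
            Affine.Point.some ((s⁻¹) ^ 2 * (X : F)) ((s⁻¹) ^ 3 * (Y : F)) h') ∧
          (∀ x y h, (∃ X : L, (X : F) = s ^ 2 * x) → (∃ Y : L, (Y : F) = s ^ 3 * y) →
            ∃ Q, ψ Q = Affine.Point.some x y h)) →
        (∃ ψ : W'.toAffine.Point →+ (W.baseChange F).toAffine.Point,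
          Function.Injective ψ ∧ (∀ X Y h, ∃ h', ψ (Affine.Point.some X Y h) =
            Affine.Point.some ((s⁻¹) ^ 2 * (X : F)) ((s⁻¹) ^ 3 * (Y : F)) h') ∧
          (∀ x y h, (∃ X : L, (X : F) = s ^ 2 * x) → (∃ Y : L, (Y : F) = s ^ 3 * y) →
            ∃ Q, ψ Q = Affine.Point.some x y h)) := by
      rintro W₁ rfl h
      exact h
    have key2 := key _ hW'L ?_
    · rw [hW'] at key2
      exact key2
    let j : (W'.baseChange L).toAffine.Point →+ (W'.baseChange F).toAffine.Point :=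
      Affine.Point.map (W' := W'.toAffine) (Algebra.ofId L F)
    have hj : Function.Injective j := Affine.Point.map_injective _
    let φ0 : (W'.baseChange F).toAffine.Point →+ (W.baseChange F).toAffine.Point :=
      AddMonoidHom.mk' (sc _ _ s⁻¹) (sc_add hsc)
    have hjs : ∀ X Y h, ∃ h', j (Affine.Point.some X Y h) =
        Affine.Point.some (X : F) (Y : F) h' := fun X Y h =>
      ⟨_, Affine.Point.map_some (W' := W'.toAffine) (Algebra.ofId L F) h⟩
    have hφs : ∀ X Y h, ∃ h', φ0 (Affine.Point.some X Y h) =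
        Affine.Point.some ((s⁻¹) ^ 2 * X) ((s⁻¹) ^ 3 * Y) h' := fun X Y h =>
      ⟨_, sc_some hsc h⟩
    refine ⟨φ0.comp j, ?_, ?_, ?_⟩
    · intro P Q hPQ
      exact hj (sc_inj hsc hPQ)
    · intro X Y h
      obtain ⟨h1, h2⟩ := hjs X Y h
      obtain ⟨h3, h4⟩ := hφs X Y h1
      refine ⟨h3, ?_⟩
      rw [AddMonoidHom.comp_apply, h2, h4]
    · rintro x y h ⟨X, hX⟩ ⟨Y, hY⟩
      have hn1 : (W'.baseChange F).toAffine.Nonsingular (X : F) (Y : F) := by
        rw [← hsc.non]
        have e1 : (s⁻¹) ^ 2 * (X : F) = x := by rw [hX]; field_simp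
        have e2 : (s⁻¹) ^ 3 * (Y : F) = y := by rw [hY]; field_simp
        rw [e1, e2]
        exact h
      have hn : (W'.baseChange L).toAffine.Nonsingular X Y :=
        (W'.toAffine.baseChange_nonsingular (Algebra.ofId L F).injective X Y).1 hn1
      refine ⟨Affine.Point.some X Y hn, ?_⟩
      obtain ⟨h1, h2⟩ := hjs X Y hn
      obtain ⟨h3, h4⟩ := hφs X Y h1
      rw [AddMonoidHom.comp_apply, h2, h4]
      apply some_congr
      · rw [hX]; field_simp
      · rw [hY]; field_simp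
  obtain ⟨ψ, hψi, hψs, hψr⟩ := hψ
  -- the points with `z P = -P`
  obtain ⟨M, hM⟩ : ∃ M : Set (W.baseChange F).toAffine.Point, M = {P | gact W z P = -P} :=
    ⟨_, rfl⟩
  have hnegF : ∀ (x y : F) (h : (W.baseChange F).toAffine.Nonsingular x y),
      ∃ h', -(Affine.Point.some x y h) = Affine.Point.some x (-y) h' := by
    intro x y h
    have e : (W.baseChange F).toAffine.negY x y = -y := by
      rw [hWF]
      simp [Affine.negY, crv]
    have h1 := Affine.Point.neg_some h
    have h2 := (Affine.nonsingular_neg x y).2 h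
    refine ⟨by rw [← e]; exact h2, ?_⟩
    rw [h1]
    exact some_congr _ _ rfl e
  have hψM : ∀ Q, ψ Q ∈ M := by
    intro Q
    rw [hM]
    show gact W z (ψ Q) = -ψ Q
    cases Q with
    | zero =>
      have e0 : (Affine.Point.zero : Pt (δ * (e1 : L)) (δ * e2) (δ * e3)) = 0 := rfl
      rw [e0, map_zero, map_zero, neg_zero]
    | some X Y h' =>
      obtain ⟨h1, h2⟩ := hψs X Y h'
      rw [h2]
      obtain ⟨h3, h4⟩ := gact_some z h1
      rw [h4]
      have hX := h.zL X
      have hY := h.zL Y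
      obtain ⟨h7, h8⟩ := hnegF _ _ h1
      rw [h8]
      apply some_congr
      · rw [map_mul, map_pow, map_inv₀, h.zs, hX, inv_neg]
        ring
      · rw [map_mul, map_pow, map_inv₀, h.zs, hY, inv_neg]
        ring
  have hMψ : ∀ P ∈ M, ∃ Q, ψ Q = P := by
    intro P hP
    rw [hM] at hP
    have hP : gact W z P = -P := hP
    cases P with
    | zero => exact ⟨0, map_zero ψ⟩
    | some x y h' =>
      have hxy : z x = x ∧ z y = -y := by
        obtain ⟨h3, h4⟩ := gact_some z h'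
        rw [h4] at hP
        obtain ⟨h7, h8⟩ := hnegF _ _ h'
        rw [h8] at hP
        simp only [Affine.Point.some.injEq] at hP
        exact hP
      apply hψr x y h'
      · apply h.mem
        rw [map_mul, map_pow, h.zs, hxy.1]
        ring
      · apply h.mem
        rw [map_mul, map_pow, h.zs, hxy.2]
        ring
  have hMg : ∀ (τ : F ≃ₐ[ℚ] F), ∀ P ∈ M, gact W τ P ∈ M := by
    intro τ P hP
    rw [hM] at hP ⊢
    show gact W z (gact W τ P) = -gact W τ P
    have hP : gact W z P = -P := hP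
    rw [← gact_mul, h.qg.central, gact_mul, hP, map_neg]
  -- the endomorphisms
  have hTex : ∀ (σ : F ≃ₐ[ℚ] F), ∃ T : Pt (δ * (e1 : L)) (δ * e2) (δ * e3) →+
      Pt (δ * (e1 : L)) (δ * e2) (δ * e3), ∀ Q, ψ (T Q) = gact W σ (ψ Q) := by
    intro σ
    have h1 : ∀ Q, ∃ Q', ψ Q' = gact W σ (ψ Q) := fun Q => hMψ _ (hMg σ _ (hψM Q))
    choose T0 hT0 using h1
    exact ⟨AddMonoidHom.mk' T0 (fun P Q => by
      apply hψi
      rw [hT0, map_add, map_add, map_add, hT0, hT0]), hT0⟩
  choose T hT using hTex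
  have hTmul : ∀ σ τ Q, T σ (T τ Q) = T (σ * τ) Q := by
    intro σ τ Q
    apply hψi
    rw [hT, hT, hT, gact_mul]
  have hTz : ∀ Q, T z Q = -Q := by
    intro Q
    apply hψi
    rw [hT, map_neg]
    have := hψM Q
    rw [hM] at this
    exact this
  obtain ⟨res, hres⟩ : ∃ res : (F ≃ₐ[ℚ] F) → (L ≃ₐ[ℚ] L), res = AlgEquiv.restrictNormalHom L :=
    ⟨_, rfl⟩
  have hresF : ∀ (σ : F ≃ₐ[ℚ] F) (x : L), ((res σ x : L) : F) = σ (x : F) := fun σ x => by
    rw [hres]
    exact AlgEquiv.restrictNormal_commutes σ L x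
  have hsemi : ∀ σ, SemiL δ e1 e2 e3 (T σ) (res σ) := by
    intro σ x y h'
    obtain ⟨h1, h2⟩ := hψs x y h'
    obtain ⟨h3, h4⟩ := gact_some σ h1
    have h5 := hT σ (Affine.Point.some x y h')
    rw [h2, h4] at h5
    cases hQ : T σ (Affine.Point.some x y h') with
    | zero =>
      exfalso
      rw [hQ] at h5
      have e0 : (Affine.Point.zero : Pt (δ * (e1 : L)) (δ * e2) (δ * e3)) = 0 := rfl
      rw [e0, map_zero] at h5
      exact Affine.Point.some_ne_zero _ h5.symm
    | some x' y' h' =>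
      refine ⟨x', y', h', rfl, ?_⟩
      rw [hQ] at h5
      obtain ⟨h6, h7⟩ := hψs x' y' h'
      rw [h7] at h5
      simp only [Affine.Point.some.injEq] at h5
      have h8 := h5.1
      rw [map_mul, map_pow, map_inv₀] at h8
      have hσs : σ s ≠ 0 := (map_ne_zero_iff _ σ.injective).2 hs0
      apply Subtype.ext
      have e8 : ((x' * res σ δ : L) : F) = (x' : F) * σ (δ : F) := by
        rw [← hresF]; rfl
      have e9 : ((δ * res σ x : L) : F) = (δ : F) * σ (x : F) := by
        rw [← hresF]; rfl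
      rw [e8, e9, hδ, map_pow]
      field_simp at h8
      linear_combination h8
  have hresz : res z = 1 := by
    ext x
    rw [hresF, h.zL]
    rfl
  have hresm : ∀ σ τ, res (σ * τ) = res σ * res τ := fun σ τ => by rw [hres, map_mul]
  have hres1 : res 1 = 1 := by rw [hres, map_one]
  have hall : ∀ τ : L ≃ₐ[ℚ] L, τ = 1 ∨ τ = res I ∨ τ = res J ∨ τ = res I * res J := by
    intro τ
    obtain ⟨σ, hσ⟩ := AlgEquiv.restrictNormalHom_surjective (F := ℚ) (K₁ := L) F τ
    have hσ : res σ = τ := by rw [hres]; exact hσ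
    rw [← hσ]
    rcases h.qg.all σ with rfl | rfl | rfl | rfl | rfl | rfl | rfl | rfl
    · exact Or.inl hres1
    · exact Or.inl hresz
    · exact Or.inr (Or.inl rfl)
    · exact Or.inr (Or.inl (by rw [hresm, hresz, one_mul]))
    · exact Or.inr (Or.inr (Or.inl rfl))
    · exact Or.inr (Or.inr (Or.inl (by rw [hresm, hresz, one_mul])))
    · exact Or.inr (Or.inr (Or.inr (by rw [hresm])))
    · exact Or.inr (Or.inr (Or.inr (by rw [hresm, hresz, one_mul, hresm])))
  obtain ⟨R, hR1, hR2⟩ := hi L δ hδ0 h.sq e1 e2 e3 h12 h13 h23 (T I) (T J) (res I) (res J) hall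
    (hsemi I) (hsemi J) hfin
  obtain ⟨S, hS1, hS2⟩ := hp (Pt (δ * (e1 : L)) (δ * e2) (δ * e3)) (T I) (T J)
    (fun m => ⟨-m, by rw [hTmul, h.qg.II, hTz]; abel⟩)
    (fun m => ⟨-m, by rw [hTmul, h.qg.JJ, hTz]; abel⟩)
    (fun m => ⟨-(T J (T I m)), by
      rw [hTmul I J, h.qg.IJ, ← hTmul, hTz, ← hTmul]
      abel⟩) R hR2
  -- the span
  have hfgof : ∀ (K : Type) [Field K] [NumberField K] [DecidableEq K] (f1 f2 f3 : K), f1 ≠ f2 →
      f1 ≠ f3 → f2 ≠ f3 → AddGroup.FG (Pt f1 f2 f3) := by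
    intro K _ _ _ f1 f2 f3 c12 c13 c23
    have h1 := Pool.Agent.H437R2.Man.MW.pt_fg (K := K) (e1 := -f1)
      (e2 := -f2) (e3 := -f3) (fun h => c12 (neg_injective h))
      (fun h => c13 (neg_injective h)) (fun h => c23 (neg_injective h))
    have h2 : Pool.Agent.H437R2.Man.MW.crv (-f1) (-f2) (-f3) = crv f1 f2 f3 := by
      unfold Pool.Agent.H437R2.Man.MW.crv crv
      congr 1
      · ring
      · ring
      · ring
    unfold Pool.Agent.H437R2.Man.MW.Pt at h1
    rw [h2] at h1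
    exact h1
  have hfg : AddGroup.FG (Pt (δ * (e1 : L)) (δ * e2) (δ * e3)) :=
    hfgof L _ _ _ (fun h => h12 (by exact_mod_cast mul_left_cancel₀ hδ0 h))
      (fun h => h13 (by exact_mod_cast mul_left_cancel₀ hδ0 h))
      (fun h => h23 (by exact_mod_cast mul_left_cancel₀ hδ0 h))
  have hfgF : AddGroup.FG (W.baseChange F).toAffine.Point := by
    have h1 := hfgof F (e1 : F) e2 e3 (by exact_mod_cast h12) (by exact_mod_cast h13)
      (by exact_mod_cast h23)
    unfold Pt at h1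
    rw [← hWF] at h1
    exact h1
  have hMF : Module.Finite ℤ (W.baseChange F).toAffine.Point :=
    Module.Finite.iff_addGroup_fg.2 hfgF
  refine ⟨inferInstance, ?_⟩
  let Λ : Pt (δ * (e1 : L)) (δ * e2) (δ * e3) →+ (ℂ ⊗[ℤ] (W.baseChange F).toAffine.Point) :=
    AddMonoidHom.mk' (fun Q => (1 : ℂ) ⊗ₜ[ℤ] ψ Q) (fun P Q => by
      rw [map_add, TensorProduct.tmul_add])
  have hΛ : ∀ Q, Λ Q = (1 : ℂ) ⊗ₜ[ℤ] ψ Q := fun _ => rfl
  obtain ⟨hn1, hn2⟩ := nak _ hfg (-AddMonoidHom.id _) 0 (fun g => by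
      rw [pow_zero, Function.iterate_one]
      rfl) S (fun g => by
      obtain ⟨t, ht, k, hk⟩ := hS2 g
      refine ⟨t, ht, k, ?_⟩
      rw [hk]
      show t + (k + k) = t + (k - (-k))
      rw [sub_neg_eq_add]) Λ (-1) (fun g => by
      show Λ (-g) = (-1 : ℂ) • Λ g
      rw [map_neg, neg_smul, one_smul])
  refine le_trans (Nat.pow_le_pow_right (by norm_num) (Submodule.finrank_mono ?_))
    (hn1.trans (hS1.trans (Nat.pow_le_pow_left hR1 4)))
  have hkey : ∀ w : ℂ ⊗[ℤ] (W.baseChange F).toAffine.Point,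
      w - RX F W z w ∈ Submodule.span ℂ (Set.range Λ) := by
    intro w
    induction w using TensorProduct.induction_on with
    | zero => simp
    | tmul c P =>
      have h1 : RX F W z (c ⊗ₜ[ℤ] P) = c ⊗ₜ[ℤ] gact W z P := rfl
      rw [h1, ← TensorProduct.tmul_sub]
      have h2 : P - gact W z P ∈ M := by
        rw [hM]
        show gact W z (P - gact W z P) = -(P - gact W z P)
        rw [map_sub, ← gact_mul, h.qg.zz]
        have h3 : gact W (1 : F ≃ₐ[ℚ] F) P = P := by
          cases P with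
          | zero => rfl
          | some x y h' =>
            obtain ⟨h4, h5⟩ := gact_some (1 : F ≃ₐ[ℚ] F) h'
            rw [h5]
            rfl
        rw [h3]
        abel
      obtain ⟨Q, hQ⟩ := hMψ _ h2
      rw [← hQ]
      have h4 : c ⊗ₜ[ℤ] ψ Q = c • Λ Q := by
        rw [hΛ, TensorProduct.smul_tmul', smul_eq_mul, mul_one]
      rw [h4]
      exact Submodule.smul_mem _ _ (Submodule.subset_span ⟨Q, rfl⟩)
    | add x y hx hy =>
      rw [map_add]
      have e : x + y - (RX F W z x + RX F W z y) = (x - RX F W z x) + (y - RX F W z y) := by abel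
      rw [e]
      exact Submodule.add_mem _ hx hy
  intro w hw
  have hw' : RX F W z w = -w := hw
  have h1 := hkey w
  rw [hw', sub_neg_eq_add, ← two_smul ℂ w] at h1
  have h2 := Submodule.smul_mem _ ((2 : ℂ)⁻¹) h1
  rwa [smul_smul, inv_mul_cancel₀ two_ne_zero, one_smul] at h2

end Pool.Agent.Helper30K9.QT
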