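import Pool.Agent.Helper30K9.QT.StmL

/-!
# Q8 project: the data of a quaternion field
-/

set_option autoImplicit false

namespace Pool.Agent.Helper30K9.QT

open QuaternionGroup

lemma qg8 : QG (a 2 : QuaternionGroup 2) (a 1) (xa 0) where
  zz := by decide
  z1 := by decide
  II := by decide
  JJ := by decide
  IJ := by decide
  all := by decide

lemma QG.map {G H : Type} [Group G] [Group H] (e : G ≃* H) {z I J : G} (h : QG z I J) :
    QG (e z) (e I) (e J) where
  zz := by rw [← map_mul, h.zz, map_one]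
  z1 := fun hc => h.z1 (e.injective (by rw [hc, map_one]))
  II := by rw [← map_mul, h.II]
  JJ := by rw [← map_mul, h.JJ]
  IJ := by rw [← map_mul, ← map_mul, ← map_mul, h.IJ]
  all := fun g => by
    have h1 : ∀ x : G, e.symm g = x → g = e x := fun x hx => by rw [← hx, e.apply_symm_apply]
    rcases h.all (e.symm g) with h2 | h2 | h2 | h2 | h2 | h2 | h2 | h2
    · left; rw [h1 _ h2, map_one]
    · right; left; exact h1 _ h2
    · right; right; left; exact h1 _ h2
    · right; right; right; left; rw [h1 _ h2, map_mul]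
    · right; right; right; right; left; exact h1 _ h2
    · right; right; right; right; right; left; rw [h1 _ h2, map_mul]
    · right; right; right; right; right; right; left; rw [h1 _ h2, map_mul]
    · right; right; right; right; right; right; right; rw [h1 _ h2, map_mul, map_mul]

theorem exists_fd (F : Type) [Field F] [NumberField F] [IsGalois ℚ F]
    (e : (F ≃ₐ[ℚ] F) ≃* QuaternionGroup 2) : ∃ (z I J : F ≃ₐ[ℚ] F)
    (L : IntermediateField ℚ F) (s : F) (δ : L), FD z I J L s δ := by
  classical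
  have hQ := QG.map e.symm qg8
  obtain ⟨z, hz⟩ : ∃ z, z = e.symm (a 2) := ⟨_, rfl⟩
  obtain ⟨I, hI⟩ : ∃ I, I = e.symm (a 1) := ⟨_, rfl⟩
  obtain ⟨J, hJ⟩ : ∃ J, J = e.symm (xa 0) := ⟨_, rfl⟩
  rw [← hz, ← hI, ← hJ] at hQ
  obtain ⟨L, hLd⟩ : ∃ L : IntermediateField ℚ F,
      L = IntermediateField.fixedField (Subgroup.zpowers z) := ⟨_, rfl⟩
  have hLf : L.fixingSubgroup = Subgroup.zpowers z := by
    rw [hLd]
    exact IntermediateField.fixingSubgroup_fixedField _
  have hL : ∀ τ : F ≃ₐ[ℚ] F, τ ∈ L.fixingSubgroup ↔ τ = 1 ∨ τ = z := by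
    intro τ
    rw [hLf]
    constructor
    · rintro ⟨k, hk⟩
      have h2 : z ^ (2 : ℤ) = 1 := by
        rw [zpow_two]
        exact hQ.zz
      rcases Int.even_or_odd' k with ⟨m, hm | hm⟩
      · left
        rw [← hk]
        show z ^ k = 1
        rw [hm, zpow_mul, h2, one_zpow]
      · right
        rw [← hk]
        show z ^ k = z
        rw [hm, zpow_add, zpow_mul, h2, one_zpow, one_mul, zpow_one]
    · rintro (h | h)
      · rw [h]; exact Subgroup.one_mem _
      · rw [h]; exact Subgroup.mem_zpowers z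
  obtain ⟨x, hx⟩ : ∃ x : F, z x ≠ x := by
    by_contra hcon
    push Not at hcon
    exact hQ.z1 (AlgEquiv.ext fun x => hcon x)
  obtain ⟨y, hy⟩ : ∃ y : F, y = x - z x := ⟨_, rfl⟩
  have hy0 : y ≠ 0 := by
    rw [hy]
    exact sub_ne_zero.2 hx.symm
  have hzz : ∀ t : F, z (z t) = t := fun t => by
    have := congrArg (fun g : F ≃ₐ[ℚ] F => g t) hQ.zz
    exact this
  have hzy : z y = -y := by
    rw [hy, map_sub, hzz]
    ring
  have halg : IsAlgebraic ℤ y :=
    (IsFractionRing.isAlgebraic_iff ℤ ℚ F).2 (Algebra.IsAlgebraic.isAlgebraic y)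
  obtain ⟨m, hm0, hm⟩ := halg.exists_integral_multiple
  obtain ⟨s, hs⟩ : ∃ s : F, s = (m : F) * y := ⟨_, rfl⟩
  have hmF : (m : F) ≠ 0 := by exact_mod_cast hm0
  have hs0 : s ≠ 0 := by
    rw [hs]
    exact mul_ne_zero hmF hy0
  have hzs : z s = -s := by
    rw [hs, map_mul, map_intCast, hzy]
    ring
  have hint : IsIntegral ℤ s := by
    rw [hs]
    have e1 : (m : F) * y = m • y := by rw [zsmul_eq_mul]
    rw [e1]
    exact hm
  have hsL : s ^ 2 ∈ L := by
    rw [hLd, IntermediateField.mem_fixedField_iff]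
    intro τ hτ
    have h1 : τ = 1 ∨ τ = z := by
      rw [← hL, hLf]
      exact hτ
    rcases h1 with rfl | rfl
    · rfl
    · rw [map_pow, hzs]
      ring
  exact ⟨z, I, J, L, s, ⟨s ^ 2, hsL⟩, ⟨inferInstance, hQ, hL, hs0, hzs, rfl, hint⟩⟩

end Pool.Agent.Helper30K9.QT
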