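import Pool.Agent.Helper30K9.QT.StmL

/-!
# Q8 project: [FROB] Frobenius elements at all large primes
-/

set_option autoImplicit false

namespace Pool.Agent.Helper30K9.QT

open NumberField IsDedekindDomain WithZero

/-- [FROB] -/
theorem frob : S_FROB := by
  intro F _ _ _
  refine ⟨(discr F).natAbs, ?_⟩
  intro p hp hlt
  have hp0 : (p : 𝓞 F) ≠ 0 := by exact_mod_cast hp.ne_zero
  have hmax0 : (Ideal.span {(p : ℤ)}).IsMaximal :=
    PrincipalIdealRing.isMaximal_of_irreducible (Nat.prime_iff_prime_int.1 hp).irreducible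
  obtain ⟨P, hPm, hPc⟩ := Ideal.exists_ideal_over_maximal_of_isIntegral (S := 𝓞 F)
    (Ideal.span {(p : ℤ)}) (by
      rw [(RingHom.injective_iff_ker_eq_bot _).1 (FaithfulSMul.algebraMap_injective ℤ (𝓞 F))]
      exact bot_le)
  have hmem : (p : 𝓞 F) ∈ P := by
    have h1 : (p : ℤ) ∈ P.comap (algebraMap ℤ (𝓞 F)) := by
      rw [hPc]
      exact Ideal.mem_span_singleton_self _
    have h2 := Ideal.mem_comap.1 h1
    simpa using h2
  have hPb : P ≠ ⊥ := by
    rintro rfl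
    exact hp0 (Ideal.mem_bot.1 hmem)
  let w : HeightOneSpectrum (𝓞 F) := ⟨P, hPm.isPrime, hPb⟩
  have hc1 : ∀ c : ℤ, ¬ (p : ℤ) ∣ c → (c : 𝓞 F) ∉ P := by
    intro c hc hcP
    have hcop : IsCoprime (p : ℤ) c :=
      (Nat.prime_iff_prime_int.1 hp).coprime_iff_not_dvd.2 hc
    obtain ⟨a, b, hab⟩ := hcop
    apply hPm.ne_top
    rw [Ideal.eq_top_iff_one]
    have : (1 : 𝓞 F) = (a : 𝓞 F) * (p : 𝓞 F) + (b : 𝓞 F) * (c : 𝓞 F) := by
      exact_mod_cast hab.symm
    rw [this]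
    exact P.add_mem (P.mul_mem_left _ hmem) (P.mul_mem_left _ hcP)
  have hdisc : (discr F : 𝓞 F) ∉ P := by
    apply hc1
    intro h
    have h1 := Int.natAbs_dvd_natAbs.2 h
    rw [Int.natAbs_natCast] at h1
    exact absurd (Nat.le_of_dvd (Int.natAbs_pos.2 (discr_ne_zero F)) h1) (not_le.2 hlt)
  have hvc : ∀ c : ℤ, ¬ (p : ℤ) ∣ c → w.valuation F (c : F) = 1 := by
    intro c hc
    have h1 := (HeightOneSpectrum.valuation_eq_one_iff_notMem (K := F) (v := w)
      (r := (c : 𝓞 F))).2 (hc1 c hc)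
    simpa using h1
  have hvp : w.valuation F (p : F) = exp (-1 : ℤ) := by
    have h1 : w.valuation F (p : F) = w.intValuation (p : 𝓞 F) := by
      rw [← w.valuation_of_algebraMap (K := F)]
      simp
    rw [h1]
    have h2 : w.intValuation (p : 𝓞 F) ≤ exp (-((1 : ℕ) : ℤ)) := by
      rw [w.intValuation_le_pow_iff_mem, pow_one]
      exact hmem
    have h3 : ¬ w.intValuation (p : 𝓞 F) ≤ exp (-((2 : ℕ) : ℤ)) := by
      rw [w.intValuation_le_pow_iff_dvd]
      intro hd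
      apply hdisc
      have hmax : (Ideal.span {(p : ℤ)}).IsMaximal :=
        PrincipalIdealRing.isMaximal_of_irreducible (Nat.prime_iff_prime_int.1 hp).irreducible
      have h4 := pow_sub_one_dvd_differentIdeal (A := ℤ) (B := 𝓞 F)
        (p := Ideal.span {(p : ℤ)}) P 2
        (by
          rw [Ne, Ideal.span_singleton_eq_bot]
          exact_mod_cast hp.ne_zero)
        (by
          rw [Ideal.map_span, Set.image_singleton]
          simpa using hd)
      rw [show 2 - 1 = 1 from rfl, pow_one] at h4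
      exact Ideal.dvd_iff_le.1 h4 (by exact_mod_cast discr_mem_differentIdeal F (𝓞 F))
    have h4 : w.intValuation (p : 𝓞 F) ≠ 0 := w.intValuation_ne_zero _ hp0
    rw [← exp_log h4] at h2 h3 ⊢
    rw [exp_le_exp] at h2 h3
    rw [exp_inj]
    push_cast at h2 h3
    omega
  have hint : ∀ x : F, IsIntegral ℤ x → w.valuation F x ≤ 1 := by
    intro x hx
    exact w.valuation_le_one (K := F) (⟨x, hx⟩ : 𝓞 F)
  have hfin : Finite (𝓞 F ⧸ P) := Ideal.finiteQuotientOfFreeOfNeBot P hPb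
  have hPr : P.IsPrime := hPm.isPrime
  obtain ⟨σ, hσ⟩ := IsArithFrobAt.exists_of_isInvariant ℤ Gal(F/ℚ) P
  have hcard : Nat.card (ℤ ⧸ Ideal.under ℤ P) = p := by
    have h1 : Ideal.under ℤ P = Ideal.span {(p : ℤ)} := hPc
    rw [h1, Nat.card_congr (Int.quotientSpanNatEquivZMod p).toEquiv, Nat.card_zmod]
  have hσ' : ∀ x : 𝓞 F, σ • x - x ^ p ∈ P := by
    intro x
    have := hσ x
    rw [hcard] at this
    exact this
  refine ⟨w.valuation F, σ, hvp, hvc, hint, ?_⟩
  have hO : ∀ x : 𝓞 F, w.valuation F (σ (x : F) - (x : F) ^ p) < 1 := by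
    intro x
    have h1 := (w.valuation_lt_one_iff_mem (K := F) (σ • x - x ^ p)).2 (hσ' x)
    have h2 : algebraMap (𝓞 F) F (σ • x - x ^ p : 𝓞 F) = σ (x : F) - (x : F) ^ p := by
      rw [map_sub, map_pow]
      rfl
    rw [← h2]
    exact h1
  intro x hx
  obtain ⟨n, d, hnd⟩ := w.exists_primeCompl_mul_eq_of_integer x hx
  have hd1 : w.valuation F ((d : 𝓞 F) : F) = 1 :=
    (HeightOneSpectrum.valuation_eq_one_iff_notMem (K := F) (v := w)).2 d.2
  have hd2 : w.valuation F (((d : 𝓞 F) : F) ^ p) = 1 := by rw [map_pow, hd1, one_pow]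
  have hd3 : w.valuation F (σ ((d : 𝓞 F) : F)) = 1 := by
    have h1 := hO (d : 𝓞 F)
    have h2 : σ ((d : 𝓞 F) : F) = (σ ((d : 𝓞 F) : F) - ((d : 𝓞 F) : F) ^ p) +
      ((d : 𝓞 F) : F) ^ p := by ring
    rw [h2, Valuation.map_add_eq_of_lt_right _ (by rw [hd2]; exact h1), hd2]
  have hx1 : w.valuation F (σ x) ≤ 1 := by
    have h1 := congrArg (fun y => w.valuation F (σ y)) hnd
    simp only [map_mul] at h1
    have h4 : w.valuation F (σ (algebraMap (𝓞 F) F d)) = 1 := hd3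
    rw [h4, mul_one] at h1
    rw [h1]
    exact w.valuation_le_one (K := F) (σ • n)
  have h5 : (σ x - x ^ p) * ((d : 𝓞 F) : F) ^ p =
      (σ (n : F) - (n : F) ^ p) - σ x * (σ ((d : 𝓞 F) : F) - ((d : 𝓞 F) : F) ^ p) := by
    have h6 : σ (n : F) = σ x * σ ((d : 𝓞 F) : F) := by
      rw [← map_mul]
      exact congrArg σ hnd.symm
    have h7 : (n : F) ^ p = x ^ p * ((d : 𝓞 F) : F) ^ p := by
      rw [← mul_pow]
      exact congrArg (· ^ p) hnd.symm
    rw [h6, h7]
    ring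
  have h8 : w.valuation F ((σ x - x ^ p) * ((d : 𝓞 F) : F) ^ p) < 1 := by
    rw [h5]
    refine lt_of_le_of_lt (Valuation.map_sub _ _ _) (max_lt (hO n) ?_)
    rw [map_mul]
    exact lt_of_le_of_lt (mul_le_of_le_one_left' hx1) (hO _)
  rwa [map_mul, hd2, mul_one] at h8

end Pool.Agent.Helper30K9.QT
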