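import Pool.Agent.Helper30K9.QT.StmL

/-!
# Q8 project, leaf [JCH]: Dirichlet characters of Jacobi symbols
-/

set_option autoImplicit false

namespace Pool.Agent.Helper30K9.QT

namespace JchL

open scoped NumberTheorySymbols

theorem jac_mod (D : ℤ) (N : ℕ) (hN : 4 * D.natAbs ∣ N) (n : ℕ) (hn : Odd n) :
    jacobiSym D (n % N) = jacobiSym D n := by
  rcases Nat.eq_zero_or_pos N with h | hpos
  · subst h; simp
  have h2 : Odd (n % N) := by
    rw [Nat.odd_iff] at hn ⊢
    have h4 : 2 ∣ N := dvd_trans ⟨2 * D.natAbs, by ring⟩ hN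
    rw [Nat.mod_mod_of_dvd _ h4]
    exact hn
  rw [jacobiSym.mod_right D h2, jacobiSym.mod_right D hn, Nat.mod_mod_of_dvd _ hN]

/-- the character on units -/
noncomputable def chi0 (D : ℤ) (N : ℕ) [NeZero N] (hD : D ≠ 0) (hN : 4 * D.natAbs ∣ N) :
    (ZMod N)ˣ →* ℂ where
  toFun := fun u => ((jacobiSym D (u : ZMod N).val : ℤ) : ℂ)
  map_one' := by
    have h1 : 1 < N := by
      have h0 : 0 < N := NeZero.pos N
      have := Nat.le_of_dvd h0 hN
      have : 0 < D.natAbs := Int.natAbs_pos.2 hD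
      omega
    haveI : Fact (1 < N) := ⟨h1⟩
    rw [Units.val_one, ZMod.val_one]
    simp
  map_mul' := by
    intro u w
    have h2 : 2 ∣ N := dvd_trans ⟨2 * D.natAbs, by ring⟩ hN
    have odd : ∀ u : (ZMod N)ˣ, Odd (u : ZMod N).val := by
      intro u
      have := ZMod.val_coe_unit_coprime u
      exact Nat.coprime_two_left.1 (Nat.Coprime.coprime_dvd_right h2 this).symm
    rw [Units.val_mul, ZMod.val_mul, jac_mod D N hN _ ((odd u).mul (odd w)),
      jacobiSym.mul_right']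
    · push_cast; rfl
    · exact (odd u).pos.ne'
    · exact (odd w).pos.ne'

theorem chi0_ne (D : ℤ) (N : ℕ) [NeZero N] (hD : D ≠ 0) (hN : 4 * D.natAbs ∣ N) (p : ℕ)
    (hp : p.Prime) (hpN : N < p) : ∃ u : (ZMod N)ˣ, (u : ZMod N) = p ∧
      chi0 D N hD hN u = ((jacobiSym D p : ℤ) : ℂ) := by
  have hc : Nat.Coprime p N := by
    rw [Nat.Prime.coprime_iff_not_dvd hp]
    intro h
    have := Nat.le_of_dvd (NeZero.pos N) h
    omega
  have h2 : 2 ∣ N := dvd_trans ⟨2 * D.natAbs, by ring⟩ hN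
  have hodd : Odd p := by
    exact Nat.coprime_two_left.1 (Nat.Coprime.coprime_dvd_right h2 hc).symm
  refine ⟨ZMod.unitOfCoprime p hc, rfl, ?_⟩
  show ((jacobiSym D ((p : ZMod N)).val : ℤ) : ℂ) = _
  rw [ZMod.val_natCast, jac_mod D N hN _ hodd]

end JchL

open JchL in
theorem jch : S_JCH := by
  classical
  intro S hS
  set N : ℕ := ∏ D ∈ S, 4 * D.natAbs with hNdef
  have hN0 : N ≠ 0 := by
    rw [hNdef, Finset.prod_ne_zero_iff]
    intro D hD
    have : D.natAbs ≠ 0 := Int.natAbs_ne_zero.2 (hS D hD)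
    omega
  haveI : NeZero N := ⟨hN0⟩
  have hdvd : ∀ D ∈ S, 4 * D.natAbs ∣ N := fun D hD =>
    Finset.dvd_prod_of_mem (fun D : ℤ => 4 * D.natAbs) hD
  let ψ : ∀ D : S, DirichletCharacter ℂ N := fun D =>
    MulChar.ofUnitHom (chi0 D.1 N (hS D.1 D.2) (hdvd D.1 D.2)).toHomUnits
  have hψ : ∀ (D : S) (p : ℕ), p.Prime → N < p →
      ψ D (p : ZMod N) = ((jacobiSym D.1 p : ℤ) : ℂ) := by
    intro D p hp hpN
    obtain ⟨u, hu, hv⟩ := chi0_ne D.1 N (hS D.1 D.2) (hdvd D.1 D.2) p hp hpN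
    rw [← hu, ← hv]
    exact MulChar.ofUnitHom_coe _ u
  refine ⟨N, inferInstance, Subgroup.closure (Set.range ψ), ?_⟩
  intro p hp hpN
  constructor
  · intro h D hD
    have := h (ψ ⟨D, hD⟩) (Subgroup.subset_closure ⟨_, rfl⟩)
    rw [hψ ⟨D, hD⟩ p hp hpN] at this
    exact_mod_cast this
  · intro h χ hχ
    have hu : IsUnit (p : ZMod N) := by
      rw [ZMod.isUnit_iff_coprime]
      rw [Nat.Prime.coprime_iff_not_dvd hp]
      intro h
      have := Nat.le_of_dvd (NeZero.pos N) h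
      omega
    induction hχ using Subgroup.closure_induction with
    | mem x hx =>
      obtain ⟨D, rfl⟩ := hx
      rw [hψ D p hp hpN, h D.1 D.2]
      simp
    | one => exact MulChar.one_apply hu
    | mul x y _ _ hx hy => rw [MulChar.mul_apply, hx, hy, mul_one]
    | inv x _ hx =>
      rw [MulChar.inv_apply_eq_inv', hx, inv_one]

end Pool.Agent.Helper30K9.QT
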