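import Pool.Agent.Helper30K9.QT.StmL

/-!
# Q8 project, leaf [LOC]: parity of valuations
-/

set_option autoImplicit false

namespace Pool.Agent.Helper30K9.QT

open WithZero

namespace LocL

theorem exp_not_sq (t : ℤᵐ⁰) (h : t ^ 2 = exp (-1 : ℤ)) : False := by
  have ht : t ≠ 0 := by
    rintro rfl
    rw [zero_pow two_ne_zero] at h
    exact (exp_ne_zero (a := (-1 : ℤ))) h.symm
  have h2 := congrArg log h
  rw [log_pow, log_exp] at h2
  have h3 : (2 : ℕ) • log t = 2 * log t := by simp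
  rw [h3] at h2
  omega

theorem val_sqfree {L : Type} [Field L] (v : Valuation L ℤᵐ⁰) (p : ℕ) (hp : p.Prime)
    (hvp : v (p : L) = exp (-1 : ℤ)) (hvc : ∀ c : ℤ, ¬ (p : ℤ) ∣ c → v (c : L) = 1)
    (d : ℤ) (hd : Squarefree d) (hpd : (p : ℤ) ∣ d) : v (d : L) = exp (-1 : ℤ) := by
  obtain ⟨e, rfl⟩ := hpd
  have he : ¬ (p : ℤ) ∣ e := by
    rintro ⟨f, rfl⟩
    have := hd (p : ℤ) ⟨f, by ring⟩
    rw [Int.isUnit_iff] at this
    have := hp.one_lt
    omega
  push_cast
  rw [map_mul, hvp, hvc e he, mul_one]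

end LocL

theorem loc : S_LOC := by
  intro L _ _ δ p hp hp2 hδ hv a b d1 d2 x y hd1 hd2 hy hE h1 h2
  obtain ⟨v, hvp, hvc, hv3⟩ := hv
  have hprod : x * (x - a) * (x - b) ≠ 0 := by
    rw [← hE]
    exact mul_ne_zero hδ (pow_ne_zero _ hy)
  have hxb : x - b ≠ 0 := right_ne_zero_of_mul hprod
  have hxa : x - a ≠ 0 := right_ne_zero_of_mul (left_ne_zero_of_mul hprod)
  have hx : x ≠ 0 := left_ne_zero_of_mul (left_ne_zero_of_mul hprod)
  have hd1' : (d1 : L) ≠ 0 := by
    exact_mod_cast hd1.ne_zero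
  have hd2' : (d2 : L) ≠ 0 := by
    exact_mod_cast hd2.ne_zero
  have h3 : IsSquare (δ * (x - b) * ((d1 * d2 : ℤ) : L)) := by
    obtain ⟨A, hA⟩ := h1
    obtain ⟨B, hB⟩ := h2
    have hA0 : A ≠ 0 := by
      rintro rfl
      rw [zero_mul] at hA
      exact mul_ne_zero (mul_ne_zero hδ hx) hd1' hA
    have hB0 : B ≠ 0 := by
      rintro rfl
      rw [zero_mul] at hB
      exact mul_ne_zero (mul_ne_zero hδ hxa) hd2' hB
    refine ⟨δ ^ 2 * y * d1 * d2 / (A * B), ?_⟩
    have e : δ ^ 2 * y * d1 * d2 / (A * B) * (δ ^ 2 * y * d1 * d2 / (A * B)) =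
        δ ^ 4 * y ^ 2 * d1 ^ 2 * d2 ^ 2 / ((A * A) * (B * B)) := by
      field_simp
    rw [e, ← hA, ← hB, eq_div_iff (by
      exact mul_ne_zero (mul_ne_zero (mul_ne_zero hδ hx) hd1')
        (mul_ne_zero (mul_ne_zero hδ hxa) hd2'))]
    push_cast
    linear_combination (δ ^ 3 * (d1 : L) ^ 2 * (d2 : L) ^ 2) * (-hE)
  have key : ∀ e e' d : ℤ, d ≠ 0 → x - e ≠ 0 → IsSquare (δ * (x - e) * d) →
      v (x - e) ≤ v (x - e') := by
    intro e e' d hd hxe hsq
    by_contra hlt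
    rw [not_le] at hlt
    have hee : (e' - e : ℤ) ≠ 0 := by
      intro h
      have : e' = e := by omega
      rw [this] at hlt
      exact lt_irrefl _ hlt
    have hee' : ((e' - e : ℤ) : L) ≠ 0 := by exact_mod_cast hee
    have hc : ((e' - e : ℤ) : L) = (x - e) - (x - e') := by push_cast; ring
    have hvc' : v ((e' - e : ℤ) : L) = v (x - e) := by
      rw [hc]
      exact Valuation.map_sub_eq_of_lt_left v hlt
    refine hv3 (((e' - e) * d : ℤ) : ℚ) ((x - e) / ((e' - e : ℤ) : L)) ?_ ?_ ?_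
    · exact_mod_cast mul_ne_zero hee hd
    · have : (x - e) / ((e' - e : ℤ) : L) - 1 = (x - e') / ((e' - e : ℤ) : L) := by
        rw [div_sub_one hee']
        congr 1
        push_cast
        ring
      rw [this, map_div₀, hvc']
      have h0 : v (x - e) ≠ 0 := (Valuation.ne_zero_iff _).2 hxe
      rw [div_lt_one₀ (zero_lt_iff.2 h0)]
      exact hlt
    · have : δ * ((((e' - e) * d : ℤ) : ℚ) : L) * ((x - e) / ((e' - e : ℤ) : L)) =
          δ * (x - e) * d := by
        rw [Rat.cast_intCast, Int.cast_mul]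
        field_simp
      rw [this]
      exact hsq
  have h1' : IsSquare (δ * (x - ((0 : ℤ) : L)) * d1) := by simpa using h1
  have hx' : x - ((0 : ℤ) : L) ≠ 0 := by simpa using hx
  have hdd : d1 * d2 ≠ 0 := mul_ne_zero hd1.ne_zero hd2.ne_zero
  have e1 : v (x - ((0 : ℤ) : L)) = v (x - a) :=
    le_antisymm (key 0 a d1 hd1.ne_zero hx' h1') (key a 0 d2 hd2.ne_zero hxa h2)
  have e2 : v (x - b) = v (x - a) :=
    le_antisymm (key b a _ hdd hxb h3) (key a b d2 hd2.ne_zero hxa h2)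
  rw [Int.cast_zero, sub_zero] at e1
  have hX : v (x - a) ≠ 0 := (Valuation.ne_zero_iff _).2 hxa
  have hD : v δ ≠ 0 := (Valuation.ne_zero_iff _).2 hδ
  have hY : v y ≠ 0 := (Valuation.ne_zero_iff _).2 hy
  have hE' : v δ * v y ^ 2 = v (x - a) ^ 3 := by
    have := congrArg v hE
    rw [map_mul, map_pow, map_mul, map_mul, e1, e2] at this
    rw [this]; simp only [pow_succ, pow_zero, one_mul]
  have fin : ∀ (d : ℤ) (z : L), Squarefree d → v z = v (x - a) → IsSquare (δ * z * d) →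
      ¬ (p : ℤ) ∣ d := by
    intro d z hd hz hsq hpd
    obtain ⟨A, hA⟩ := hsq
    have hA' : v δ * v (x - a) * v (d : L) = v A * v A := by
      have := congrArg v hA
      rw [map_mul, map_mul, hz, map_mul] at this
      exact this
    rw [LocL.val_sqfree v p hp hvp hvc d hd hpd] at hA'
    apply LocL.exp_not_sq (v A * v y / v (x - a) ^ 2)
    rw [div_pow, div_eq_iff (pow_ne_zero _ (pow_ne_zero _ hX))]
    calc (v A * v y) ^ 2 = (v A * v A) * v y ^ 2 := by
          simp only [pow_succ, pow_zero, one_mul]; ac_rfl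
      _ = (v δ * v y ^ 2) * v (x - a) * exp (-1 : ℤ) := by rw [← hA']; ac_rfl
      _ = exp (-1 : ℤ) * (v (x - a) ^ 2) ^ 2 := by
          rw [hE']; simp only [pow_succ, pow_zero, one_mul]; ac_rfl
  exact ⟨fin d1 x hd1 e1 h1, fin d2 (x - a) hd2 rfl h2⟩

end Pool.Agent.Helper30K9.QT
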