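import Pool.Agent.Helper30K9.QT.Repm

/-!
# Q8 project: the other irreducible representations are the characters
-/

set_option autoImplicit false

namespace Pool.Agent.Helper30K9.QT

namespace RepL

variable {G V X : Type} [Group G] [AddCommGroup V] [Module ℂ V] [AddCommGroup X] [Module ℂ X]

/-- to prove a statement on all elements, prove it for `z, I, J` and for products -/
theorem ind {z I J : G} (h : QG z I J) {P : G → Prop} (h1 : P 1) (hz : P z) (hI : P I) (hJ : P J)
    (hm : ∀ a b, P a → P b → P (a * b)) (g : G) : P g := by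
  rcases h.all g with rfl | rfl | rfl | rfl | rfl | rfl | rfl | rfl
  · exact h1
  · exact hz
  · exact hI
  · exact hm _ _ hz hI
  · exact hJ
  · exact hm _ _ hz hJ
  · exact hm _ _ hI hJ
  · exact hm _ _ hz (hm _ _ hI hJ)

theorem eq_zero_of_neg {v : V} (h : v = -v) : v = 0 := by
  have h2 : (2 : ℂ) • v = 0 := by
    rw [two_smul]
    nth_rewrite 1 [h]
    exact neg_add_cancel v
  rcases smul_eq_zero.1 h2 with h | h
  · norm_num at h
  · exact h

theorem unit_smul_inj {v : V} (hv : v ≠ 0) {a b : ℤˣ} (h : (a : ℤ) • v = (b : ℤ) • v) : a = b := by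
  rcases Int.units_eq_one_or a with rfl | rfl <;> rcases Int.units_eq_one_or b with rfl | rfl
  · rfl
  · exfalso
    simp at h
    exact hv (eq_zero_of_neg h)
  · exfalso
    simp at h
    exact hv (eq_zero_of_neg h.symm)
  · rfl

end RepL

open RepL in
theorem repc : S_REPC := by
  intro G V X _ _ _ _ _ _ z I J hq ρ R hρ
  let U : Submodule ℂ V :=
    { carrier := {v | ρ z v = v}
      zero_mem' := by simp
      add_mem' := fun {x y} hx hy => by
        show ρ z (x + y) = x + y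
        rw [map_add, hx, hy]
      smul_mem' := fun c x hx => by
        show ρ z (c • x) = c • x
        rw [map_smul, hx] }
  have hU : ∀ v, v ∈ U ↔ ρ z v = v := fun v => Iff.rfl
  rcases hρ.2 U (fun g u hu => by
    rw [hU] at hu ⊢
    rw [← rho_mul, central hq g, rho_mul, hu]) with h | h
  · left
    intro v
    have h1 : v + ρ z v ∈ U := by
      rw [hU, map_add, ← rho_mul, hq.zz, map_one]
      exact add_comm _ _
    rw [h, Submodule.mem_bot] at h1
    exact (neg_eq_of_add_eq_zero_right h1).symm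
  · right
    have hz : ∀ v, ρ z v = v := fun v => by
      rw [← hU, h]; exact Submodule.mem_top
    have hII : ∀ v, ρ I (ρ I v) = v := fun v => by rw [← rho_mul, hq.II, hz]
    have hJJ : ∀ v, ρ J (ρ J v) = v := fun v => by rw [← rho_mul, hq.JJ, hz]
    have hIJ : ∀ v, ρ I (ρ J v) = ρ J (ρ I v) := fun v => by
      rw [← rho_mul, hq.IJ, rho_mul, rho_mul, hz]
    obtain ⟨v, hv⟩ := hρ.1
    obtain ⟨v1, hv1, a, ha⟩ : ∃ v1 : V, v1 ≠ 0 ∧ ∃ a : ℤˣ, ρ I v1 = (a : ℤ) • v1 := by
      by_cases h0 : v + ρ I v = 0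
      · exact ⟨v, hv, -1, by simpa using (neg_eq_of_add_eq_zero_right h0).symm⟩
      · exact ⟨_, h0, 1, by rw [map_add, hII, add_comm]; simp⟩
    obtain ⟨v0, hv0, ⟨b, hb⟩, ⟨a', ha'⟩⟩ : ∃ v0 : V, v0 ≠ 0 ∧ (∃ b : ℤˣ, ρ J v0 = (b : ℤ) • v0) ∧
        ∃ a : ℤˣ, ρ I v0 = (a : ℤ) • v0 := by
      by_cases h0 : v1 + ρ J v1 = 0
      · exact ⟨v1, hv1, ⟨-1, by simpa using (neg_eq_of_add_eq_zero_right h0).symm⟩, a, ha⟩
      · refine ⟨_, h0, ⟨1, by rw [map_add, hJJ, add_comm]; simp⟩, a, ?_⟩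
        rw [map_add, hIJ, ha, map_zsmul, smul_add]
    have hall : ∀ g, ∃ c : ℤˣ, ρ g v0 = (c : ℤ) • v0 := by
      refine ind hq ?_ ?_ ?_ ?_ ?_
      · exact ⟨1, by simp⟩
      · exact ⟨1, by rw [hz]; simp⟩
      · exact ⟨a', ha'⟩
      · exact ⟨b, hb⟩
      · rintro g k ⟨c, hc⟩ ⟨d, hd⟩
        exact ⟨c * d, by rw [rho_mul, hd, map_zsmul, hc, smul_smul, Units.val_mul, mul_comm]⟩
    choose χ hχ using hall
    let χ' : G →* ℤˣ := MonoidHom.mk' χ (fun g k => by
      apply unit_smul_inj hv0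
      rw [← hχ, rho_mul, hχ k, map_zsmul, hχ g, smul_smul, Units.val_mul, mul_comm])
    have hχ' : ∀ g, ρ g v0 = ((χ' g : ℤˣ) : ℤ) • v0 := hχ
    refine ⟨χ', ?_⟩
    let e : Hm ρ R →ₗ[ℂ] Xc R χ' :=
      (ev ρ R v0).codRestrict (Xc R χ') (fun f g => by
        show R g (f.1 v0) = _ • f.1 v0
        rw [← f.2, hχ', map_zsmul])
    have he : Function.Injective e := by
      intro f g hfg
      apply ev_inj hρ hv0
      exact congrArg Subtype.val hfg
    exact LinearMap.finrank_le_finrank_of_injective he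

end Pool.Agent.Helper30K9.QT
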