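import Pool.Agent.Helper30K9.QT.StmL

/-!
# Q8 project: the representations with `z = -1`
-/

set_option autoImplicit false

namespace Pool.Agent.Helper30K9.QT

namespace RepL

variable {G V X : Type} [Group G] [AddCommGroup V] [Module ℂ V] [AddCommGroup X] [Module ℂ X]

theorem rho_mul (ρ : G →* (V →ₗ[ℂ] V)) (g h : G) (v : V) : ρ (g * h) v = ρ g (ρ h v) := by
  rw [map_mul]; rfl

theorem zI {z I J : G} (h : QG z I J) : z * I = I * z := by
  rw [← h.II, mul_assoc]

theorem zJ {z I J : G} (h : QG z I J) : z * J = J * z := by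
  rw [← h.JJ, mul_assoc]

/-- `z` is central -/
theorem central {z I J : G} (h : QG z I J) (g : G) : z * g = g * z := by
  have hI := zI h
  have hJ := zJ h
  have hIJ : z * (I * J) = (I * J) * z := by
    rw [← mul_assoc, hI, mul_assoc, hJ, mul_assoc]
  rcases h.all g with rfl | rfl | rfl | rfl | rfl | rfl | rfl | rfl
  · simp
  · rfl
  · exact hI
  · rw [mul_assoc, ← hI]
  · exact hJ
  · rw [mul_assoc, ← hJ]
  · exact hIJ
  · rw [mul_assoc, ← hIJ]

/-- evaluation at a vector -/
def ev (ρ : G →* (V →ₗ[ℂ] V)) (R : G →* (X →ₗ[ℂ] X)) (v : V) : Hm ρ R →ₗ[ℂ] X where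
  toFun f := f.1 v
  map_add' _ _ := rfl
  map_smul' _ _ := rfl

theorem ev_inj {ρ : G →* (V →ₗ[ℂ] V)} {R : G →* (X →ₗ[ℂ] X)} (hρ : Irr ρ) {v : V} (hv : v ≠ 0) :
    Function.Injective (ev ρ R v) := by
  rw [← LinearMap.ker_eq_bot, LinearMap.ker_eq_bot']
  intro f hf
  have hf' : f.1 v = 0 := hf
  rcases hρ.2 (LinearMap.ker f.1) (fun g u hu => by
    rw [LinearMap.mem_ker] at hu ⊢
    rw [f.2 g u, hu, map_zero]) with h | h
  · exfalso
    apply hv
    have : v ∈ LinearMap.ker f.1 := LinearMap.mem_ker.2 hf'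
    rw [h] at this
    simpa using this
  · apply Subtype.ext
    rw [LinearMap.ker_eq_top] at h
    rw [h]; rfl

end RepL

open RepL in
theorem repm : S_REPM := by
  intro G V X _ _ _ _ _ _ z I J hq ρ R hρ hz
  have hII : ∀ v, ρ I (ρ I v) = -v := fun v => by rw [← rho_mul, hq.II, hz]
  have hJJ : ∀ v, ρ J (ρ J v) = -v := fun v => by rw [← rho_mul, hq.JJ, hz]
  have hIJ : ∀ v, ρ I (ρ J v) = - ρ J (ρ I v) := fun v => by
    rw [← rho_mul, hq.IJ, rho_mul, rho_mul, hz]
  -- an eigenvector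
  obtain ⟨v0, hv0, hv0I⟩ : ∃ v0 : V, v0 ≠ 0 ∧ ρ I v0 = Complex.I • v0 := by
    obtain ⟨v, hv⟩ := hρ.1
    by_cases h0 : v - Complex.I • ρ I v = 0
    · refine ⟨ρ J v, ?_, ?_⟩
      · intro h
        have := hJJ v
        rw [h, map_zero] at this
        exact hv (neg_eq_zero.1 this.symm)
      · have h1 : ρ I v = -(Complex.I • v) := by
          have h2 : v = Complex.I • ρ I v := sub_eq_zero.1 h0
          have h3 : Complex.I • v = Complex.I • (Complex.I • ρ I v) := by rw [← h2]
          rw [smul_smul, Complex.I_mul_I, neg_one_smul] at h3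
          rw [h3, neg_neg]
        rw [hIJ, h1, map_neg, neg_neg, map_smul]
    · refine ⟨_, h0, ?_⟩
      rw [map_sub, map_smul, hII, smul_sub, smul_smul, Complex.I_mul_I]
      simp only [smul_neg, neg_smul, one_smul, sub_neg_eq_add]
      rw [add_comm]
  have hRc : ∀ x : X, R z (R J x) = R J (R z x) := fun x => by
    rw [← rho_mul, ← rho_mul, central hq J]
  have hRJJ : ∀ x : X, R J (R J x) = R z x := fun x => by rw [← rho_mul, hq.JJ]
  have hRzz : ∀ x : X, R z (R z x) = x := fun x => by rw [← rho_mul, hq.zz, map_one]; rfl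
  have hRIJ : ∀ x : X, R I (R J x) = R z (R J (R I x)) := fun x => by
    rw [← rho_mul, hq.IJ, rho_mul, rho_mul]
  have hJinj : Function.Injective (R J) := by
    intro x y hxy
    have := congrArg (fun t => R z (R J t)) hxy
    simp only [hRJJ, hRzz] at this
    exact this
  have e1 : Function.Injective (ev ρ R v0) := ev_inj hρ hv0
  have e2 : Function.Injective ((R J).comp (ev ρ R v0)) := by
    rw [LinearMap.coe_comp]; exact hJinj.comp e1
  set A := LinearMap.range (ev ρ R v0) with hA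
  set B := LinearMap.range ((R J).comp (ev ρ R v0)) with hB
  have hAp : ∀ x ∈ A, R z x = -x ∧ R I x = Complex.I • x := by
    rintro _ ⟨f, rfl⟩
    have h1 : ev ρ R v0 f = f.1 v0 := rfl
    rw [h1]
    constructor
    · rw [← f.2, hz, map_neg]
    · rw [← f.2, hv0I, map_smul]
  have hBp : ∀ x ∈ B, R z x = -x ∧ R I x = -(Complex.I • x) := by
    rintro _ ⟨f, rfl⟩
    have h1 : ((R J).comp (ev ρ R v0)) f = R J (ev ρ R v0 f) := rfl
    rw [h1]
    obtain ⟨h2, h3⟩ := hAp _ ⟨f, rfl⟩
    constructor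
    · rw [hRc, h2, map_neg]
    · rw [hRIJ, h3, map_smul, map_smul, hRc, h2, map_neg, smul_neg]
  have hAB : A ⊓ B = ⊥ := by
    rw [eq_bot_iff]
    rintro x ⟨hxA, hxB⟩
    have h1 := (hAp x hxA).2
    have h2 := (hBp x hxB).2
    rw [h1] at h2
    have h3 : (Complex.I + Complex.I) • x = 0 := by
      rw [add_smul]
      nth_rewrite 1 [h2]
      exact neg_add_cancel _
    rcases smul_eq_zero.1 h3 with h | h
    · exfalso
      rw [← two_mul] at h
      simp at h
    · simpa using h
  have hle : A ⊔ B ≤ Xm R z := by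
    rw [sup_le_iff]
    exact ⟨fun x hx => (hAp x hx).1, fun x hx => (hBp x hx).1⟩
  have hsum := Submodule.finrank_sup_add_finrank_inf_eq A B
  rw [hAB, finrank_bot, add_zero] at hsum
  have hfA : Module.finrank ℂ A = Module.finrank ℂ (Hm ρ R) := LinearMap.finrank_range_of_inj e1
  have hfB : Module.finrank ℂ B = Module.finrank ℂ (Hm ρ R) := LinearMap.finrank_range_of_inj e2
  have := Submodule.finrank_mono hle
  omega

end Pool.Agent.Helper30K9.QT
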