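import Pool.Agent.Helper30K9.QT.StmN
import Pool.Agent.Y669.UBA

/-!
# Q8 project, [UB]: average over a group of Dirichlet characters
-/

set_option autoImplicit false

namespace Pool.Agent.Helper30K9.QT

open Finset Pool.Agent.W262.RK

namespace UbL

open Classical in
/-- orthogonality: the sum of the values of the characters of `Ψ` at a unit -/
lemma sum_val {N : ℕ} [NeZero N] (Ψ : Subgroup (DirichletCharacter ℂ N)) (u : ZMod N) :
    ∑ ψ : Ψ, (ψ.1 u) = if ∀ ψ ∈ Ψ, ψ u = 1 then (Fintype.card Ψ : ℂ) else 0 := by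
  split_ifs with h
  · rw [Finset.sum_congr rfl (fun ψ _ => h ψ.1 ψ.2), sum_const, card_univ, nsmul_eq_mul, mul_one]
  · push Not at h
    obtain ⟨ψ0, h0, h1⟩ := h
    have e : ∑ ψ : Ψ, (ψ.1 u) = ∑ ψ : Ψ, (ψ0 u) * (ψ.1 u) := by
      refine (Fintype.sum_equiv (Equiv.mulLeft (⟨ψ0, h0⟩ : Ψ)) _ _ fun ψ => ?_).symm
      simp
    rw [← mul_sum] at e
    have e2 : (ψ0 u - 1) * ∑ ψ : Ψ, (ψ.1 u) = 0 := by rw [sub_mul, one_mul, ← e, sub_self]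
    exact (mul_eq_zero.1 e2).resolve_left (sub_ne_zero.2 h1)

end UbL

open UbL

open Classical in
theorem ub : S_UB := by
  intro N _ Ψ κ z hκ hNz hz hκz
  have hN0 : N ≠ 0 := NeZero.ne N
  have hfin : Finite Ψ := inferInstance
  choose C hC using fun ψ : Ψ => Pool.Agent.Y669.UBA.ubc N hN0 ψ.1 1 κ z hκ hz hκz hNz
  have hm0 : (0 : ℝ) < (Fintype.card Ψ : ℝ) := by exact_mod_cast Fintype.card_pos
  refine ⟨(∑ ψ : Ψ, C ψ) / (Fintype.card Ψ : ℝ), fun y r e hy hr hrs hrp => ?_⟩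
  have h1 : ∑ ψ : Ψ, ∑ p ∈ PS z y, (Jr p r * Jr κ p * x4 e p) *
      ((ψ.1 (p : ZMod N)) ^ 1).re / (p : ℝ) ≤ ∑ ψ : Ψ, (Real.log (Real.log r) + C ψ) :=
    sum_le_sum fun ψ _ => hC ψ y r e hy hr hrs hrp
  rw [sum_comm, sum_add_distrib, sum_const, card_univ, nsmul_eq_mul] at h1
  have h2 : ∑ p ∈ PS z y, ∑ ψ : Ψ, (Jr p r * Jr κ p * x4 e p) *
      ((ψ.1 (p : ZMod N)) ^ 1).re / (p : ℝ) =
      (Fintype.card Ψ : ℝ) * ∑ p ∈ (PS z y).filter (fun p : ℕ => ∀ ψ ∈ Ψ, ψ (p : ZMod N) = 1),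
        Jr p r * Jr κ p * x4 e p / (p : ℝ) := by
    rw [sum_filter, mul_sum]
    refine sum_congr rfl fun p hp => ?_
    have h3 := sum_val Ψ ((p : ℕ) : ZMod N)
    have h4 : ∑ ψ : Ψ, (Jr p r * Jr κ p * x4 e p) *
      ((ψ.1 ((p : ℕ) : ZMod N)) ^ 1).re / (p : ℝ) = (Jr p r * Jr κ p * x4 e p) / p *
      (∑ ψ : Ψ, (ψ.1 ((p : ℕ) : ZMod N))).re := by
      rw [Complex.re_sum, mul_sum]
      refine sum_congr rfl fun j _ => ?_
      rw [pow_one]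
      ring
    rw [h4, h3]
    split_ifs
    · rw [Complex.natCast_re]
      ring
    · simp
  rw [h2] at h1
  have h5 : ∑ p ∈ (PS z y).filter (fun p : ℕ => ∀ ψ ∈ Ψ, ψ (p : ZMod N) = 1),
        Jr p r * Jr κ p * x4 e p / (p : ℝ) ≤
        ((Fintype.card Ψ : ℝ) * Real.log (Real.log r) + ∑ ψ : Ψ, C ψ) / (Fintype.card Ψ : ℝ) := by
    rw [le_div_iff₀ hm0, mul_comm]
    exact h1
  refine h5.trans (le_of_eq ?_)
  field_simp

end Pool.Agent.Helper30K9.QT
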