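import Pool.Agent.Helper30K9.QT.Main
import Pool.Agent.Helper30K9.QT.Fld
import Pool.Agent.Helper30K9.QT.Coc
import Pool.Agent.Helper30K9.QT.Dim
import Pool.Agent.Helper30K9.QT.Frob
import Pool.Agent.Helper30K9.QT.Jch
import Pool.Agent.Helper30K9.QT.Loc
import Pool.Agent.Helper30K9.QT.Repc
import Pool.Agent.Helper30K9.QT.Repm
import Pool.Agent.Helper30K9.QT.Ub

/-!
# Q8 project: the averages for all irreducible representations and for the rank
-/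

set_option autoImplicit false

namespace Pool.Agent.Helper30K9.QT

open Finset TensorProduct WeierstrassCurve
open Pool.Agent.W307.RT (Cv Sh)

/-- the rank is at most the dimension over `ℂ` -/
lemma finrank_le_tensor (A : Type) [AddCommGroup A] [Module.Finite ℂ (ℂ ⊗[ℤ] A)] :
    Module.finrank ℤ A ≤ Module.finrank ℂ (ℂ ⊗[ℤ] A) := by
  classical
  obtain ⟨f, hf⟩ := exists_linearIndependent_of_le_finrank (R := ℤ) (M := A) le_rfl
  rw [linearIndependent_iff_injective_finsuppLinearCombination] at hf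
  obtain ⟨g, hg⟩ : ∃ g : (Fin (Module.finrank ℤ A) →₀ ℤ) →ₗ[ℤ] A,
      g = Finsupp.linearCombination ℤ f := ⟨_, rfl⟩
  rw [← hg] at hf
  have h1 := Module.Flat.lTensor_preserves_injective_linearMap (M := ℂ) g hf
  have h2 : Function.Injective (LinearMap.baseChange ℂ g) := h1
  have h3 := LinearMap.finrank_le_finrank_of_injective h2
  rw [Module.finrank_baseChange, Module.finrank_finsupp_self, Fintype.card_fin] at h3
  exact h3

/-- a bound for the exponential of a sum -/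
lemma pow_sum_le (T x : ℕ) (m : Fin 4 → ℕ) (h : T ≤ x + ∑ i, m i) :
    (2 : ℝ) ^ ((T : ℝ) / 10) ≤ (2 : ℝ) ^ ((x : ℝ) / 2) + ∑ i, (4 : ℝ) ^ m i := by
  have hpos : ∀ i ∈ (univ : Finset (Fin 4)), 0 ≤ (4 : ℝ) ^ m i := fun i _ => by positivity
  have hx0 : 0 ≤ (2 : ℝ) ^ ((x : ℝ) / 2) := by positivity
  by_cases hx : T ≤ 5 * x
  · have h1 : (2 : ℝ) ^ ((T : ℝ) / 10) ≤ (2 : ℝ) ^ ((x : ℝ) / 2) := by
      apply Real.rpow_le_rpow_of_exponent_le (by norm_num)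
      have : (T : ℝ) ≤ 5 * x := by exact_mod_cast hx
      linarith
    have := sum_nonneg hpos
    linarith
  · obtain ⟨i, hi⟩ : ∃ i, T ≤ 5 * m i := by
      by_contra hcon
      push Not at hcon
      rw [Fin.sum_univ_four] at h
      have := hcon 0
      have := hcon 1
      have := hcon 2
      have := hcon 3
      omega
    have h1 : (2 : ℝ) ^ ((T : ℝ) / 10) ≤ (4 : ℝ) ^ m i := by
      have e : (4 : ℝ) ^ m i = (2 : ℝ) ^ ((2 : ℝ) * m i) := by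
        rw [Real.rpow_mul (by norm_num), Real.rpow_natCast]
        norm_num
      rw [e]
      apply Real.rpow_le_rpow_of_exponent_le (by norm_num)
      have h2 : (T : ℝ) ≤ 5 * m i := by exact_mod_cast hi
      have h3 : (0 : ℝ) ≤ m i := Nat.cast_nonneg _
      linarith
    have := single_le_sum hpos (mem_univ i)
    linarith

open Classical in
/-- **The averages for the quaternion fields.** -/
theorem finQ (hldf : S_FROB → S_CHI → S_LDF) (hlink : S_LINK) (hm : S_MER)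
    (F : Type) [Field F] [NumberField F] [IsGalois ℚ F]
    (e : (F ≃ₐ[ℚ] F) ≃* QuaternionGroup 2) :
    ∃ C : ℝ, ∀ H : ℕ,
      ∑ c ∈ Cv 2 H, (2 : ℝ) ^
        ((Module.finrank ℤ ((Sh c.1 c.2).baseChange F).toAffine.Point : ℝ) / 10) ≤
          C * (Cv 2 H).card ∧
      ∀ (V : Type) [AddCommGroup V] [Module ℂ V] (ρ : (F ≃ₐ[ℚ] F) →* (V →ₗ[ℂ] V)), Irr ρ →
        ∑ c ∈ Cv 2 H, (2 : ℝ) ^ (Module.finrank ℂ (Hm ρ (RX F (Sh c.1 c.2)))) ≤
          C * (Cv 2 H).card := by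
  obtain ⟨z, I, J, L, s, δ, hFD⟩ := exists_fd F e
  obtain ⟨C1, hC1⟩ := keyQ hldf frob loc jch coc ub hm hFD
  obtain ⟨C2, hC2⟩ := Pool.Agent.W307.AT.main
  have hfinG : Finite ((F ≃ₐ[ℚ] F) →* ℤˣ) := inferInstance
  have hG : Fintype ((F ≃ₐ[ℚ] F) →* ℤˣ) := Fintype.ofFinite _
  have hχ : ∀ χ : (F ≃ₐ[ℚ] F) →* ℤˣ, ∃ C : ℝ, ∀ H : ℕ,
      ∑ c ∈ Cv 2 H, (4 : ℝ) ^ Module.finrank ℤ (Pool.Agent.W307.AT.Part F χ (Sh c.1 c.2)) ≤
        C * (Cv 2 H).card := by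
    intro χ
    obtain ⟨D, -, -, hD⟩ := hC2 F χ
    exact ⟨_, hD⟩
  choose Cχ hCχ using hχ
  obtain ⟨χ4, hχ4⟩ := dim _ z I J hFD.qg
  -- the multiplicities of the characters
  have hmul : ∀ (H : ℕ), ∀ c ∈ Cv 2 H, ∀ χ : (F ≃ₐ[ℚ] F) →* ℤˣ,
      Module.finrank ℂ (Xc (RX F (Sh c.1 c.2)) χ) ≤
        Module.finrank ℤ (Pool.Agent.W307.AT.Part F χ (Sh c.1 c.2)) := by
    intro H c hc χ
    exact hlink F χ _ _ ((hC1 H).1 c hc).2 (fun P => Iff.rfl)
  have hpos : ∀ (c : ℤ × ℤ), ∀ χ ∈ (univ : Finset ((F ≃ₐ[ℚ] F) →* ℤˣ)),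
      0 ≤ (4 : ℝ) ^ Module.finrank ℤ (Pool.Agent.W307.AT.Part F χ (Sh c.1 c.2)) :=
    fun c χ _ => by positivity
  have htot : ∀ H : ℕ, ∑ c ∈ Cv 2 H,
      ((2 : ℝ) ^ ((Module.finrank ℂ (Xm (RX F (Sh c.1 c.2)) z) : ℝ) / 2) +
        4 * ∑ χ : (F ≃ₐ[ℚ] F) →* ℤˣ,
          (4 : ℝ) ^ Module.finrank ℤ (Pool.Agent.W307.AT.Part F χ (Sh c.1 c.2))) ≤
      (C1 + 4 * ∑ χ, Cχ χ) * (Cv 2 H).card := by
    intro H
    rw [sum_add_distrib, ← mul_sum, sum_comm, add_mul, mul_assoc, sum_mul]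
    refine add_le_add (hC1 H).2 (mul_le_mul_of_nonneg_left (sum_le_sum fun χ _ => hCχ χ H)
      (by norm_num))
  refine ⟨C1 + 4 * ∑ χ, Cχ χ, fun H => ⟨le_trans (sum_le_sum fun c hc => ?_) (htot H), ?_⟩⟩
  · have hfin := ((hC1 H).1 c hc).1
    have h1 := finrank_le_tensor (((Sh c.1 c.2).baseChange F).toAffine.Point)
    have h2 := hχ4 _ (RX F (Sh c.1 c.2))
    have h3 : Module.finrank ℤ ((Sh c.1 c.2).baseChange F).toAffine.Point ≤
        Module.finrank ℂ (Xm (RX F (Sh c.1 c.2)) z) +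
          ∑ i, Module.finrank ℤ (Pool.Agent.W307.AT.Part F (χ4 i) (Sh c.1 c.2)) :=
      h1.trans (h2.trans (Nat.add_le_add_left (sum_le_sum fun i _ => hmul H c hc _) _))
    refine (pow_sum_le _ _ _ h3).trans (add_le_add le_rfl ?_)
    calc ∑ i : Fin 4, (4 : ℝ) ^ Module.finrank ℤ (Pool.Agent.W307.AT.Part F (χ4 i) (Sh c.1 c.2))
        ≤ ∑ _i : Fin 4, ∑ χ : (F ≃ₐ[ℚ] F) →* ℤˣ,
          (4 : ℝ) ^ Module.finrank ℤ (Pool.Agent.W307.AT.Part F χ (Sh c.1 c.2)) :=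
          sum_le_sum fun i _ => single_le_sum
            (f := fun χ : (F ≃ₐ[ℚ] F) →* ℤˣ => (4 : ℝ) ^ Module.finrank ℤ
              (Pool.Agent.W307.AT.Part F χ (Sh c.1 c.2))) (hpos c) (mem_univ (χ4 i))
      _ = _ := by
          rw [sum_const, card_univ, Fintype.card_fin, nsmul_eq_mul]
          norm_num
  · intro V _ _ ρ hρ
    refine le_trans (sum_le_sum fun c hc => ?_) (htot H)
    have hfin := ((hC1 H).1 c hc).1
    have h0 : 0 ≤ ∑ χ : (F ≃ₐ[ℚ] F) →* ℤˣ,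
          (4 : ℝ) ^ Module.finrank ℤ (Pool.Agent.W307.AT.Part F χ (Sh c.1 c.2)) :=
      sum_nonneg (hpos c)
    rcases repc _ V _ z I J hFD.qg ρ (RX F (Sh c.1 c.2)) hρ with h | ⟨χ, h⟩
    · have h1 := repm _ V _ z I J hFD.qg ρ (RX F (Sh c.1 c.2)) hρ h
      have h2 : (2 : ℝ) ^ (Module.finrank ℂ (Hm ρ (RX F (Sh c.1 c.2)))) ≤
          (2 : ℝ) ^ ((Module.finrank ℂ (Xm (RX F (Sh c.1 c.2)) z) : ℝ) / 2) := by
        rw [← Real.rpow_natCast]
        apply Real.rpow_le_rpow_of_exponent_le (by norm_num)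
        have h3 : (2 : ℝ) * Module.finrank ℂ (Hm ρ (RX F (Sh c.1 c.2))) ≤
            Module.finrank ℂ (Xm (RX F (Sh c.1 c.2)) z) := by exact_mod_cast h1
        linarith
      linarith
    · have h1 := h.trans (hmul H c hc χ)
      have h2 : (2 : ℝ) ^ (Module.finrank ℂ (Hm ρ (RX F (Sh c.1 c.2)))) ≤
          (4 : ℝ) ^ Module.finrank ℤ (Pool.Agent.W307.AT.Part F χ (Sh c.1 c.2)) :=
        (pow_le_pow_right₀ (by norm_num) h1).trans
          (pow_le_pow_left₀ (by norm_num) (by norm_num) _)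
      have h3 := single_le_sum (f := fun χ : (F ≃ₐ[ℚ] F) →* ℤˣ => (4 : ℝ) ^ Module.finrank ℤ
              (Pool.Agent.W307.AT.Part F χ (Sh c.1 c.2))) (hpos c) (mem_univ χ)
      have h4 : 0 ≤ (2 : ℝ) ^ ((Module.finrank ℂ (Xm (RX F (Sh c.1 c.2)) z) : ℝ) / 2) := by
        positivity
      linarith

end Pool.Agent.Helper30K9.QT
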