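import Pool.Agent.Helper30K9.QT.StmM
import Pool.Agent.Helper30K9.QT.Half

/-!
# Q8 project: leaf INVQ
-/

set_option autoImplicit false

namespace Pool.Agent.Helper30K9.QT

open WeierstrassCurve Pool.Agent.H918R3 Pool.Agent.H918R3.TB1

/-- squarefree representatives of the square classes of `ℚ` -/
lemma exists_repQ (r : ℚ) (hr : r ≠ 0) : ∃ d : ℤ, Squarefree d ∧ IsSquare (r * d) := by
  obtain ⟨a, b, h1, h2⟩ := Nat.sq_mul_squarefree (r.num * r.den).natAbs
  have hn : r.num * r.den ≠ 0 := mul_ne_zero (Rat.num_ne_zero.2 hr) (by exact_mod_cast r.den_ne_zero)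
  have hb : b ≠ 0 := by
    rintro rfl
    rw [zero_pow two_ne_zero, zero_mul] at h1
    exact hn (Int.natAbs_eq_zero.1 h1.symm)
  obtain ⟨d, hd, hd2⟩ : ∃ d : ℤ, Squarefree d ∧ r.num * r.den = b ^ 2 * d := by
    rcases Int.natAbs_eq (r.num * r.den) with h | h
    · refine ⟨a, Int.squarefree_natCast.2 h2, ?_⟩
      rw [h, ← h1]
      push_cast
      ring
    · refine ⟨-a, ?_, ?_⟩
      · rw [← Int.squarefree_natAbs, Int.natAbs_neg, Int.natAbs_natCast]
        exact h2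
      · rw [h, ← h1]
        push_cast
        ring
  refine ⟨d, hd, ?_⟩
  have hden : (r.den : ℚ) ≠ 0 := by exact_mod_cast r.den_ne_zero
  have h3 : r = (r.num : ℚ) / r.den := (Rat.num_div_den r).symm
  refine ⟨b * d / r.den, ?_⟩
  have h4 : ((r.num : ℚ)) * r.den = b ^ 2 * d := by exact_mod_cast hd2
  have hbq : (b : ℚ) ≠ 0 := by exact_mod_cast hb
  have h5 : r * r.den ^ 2 = b ^ 2 * d := by
    rw [← h4]
    nth_rewrite 1 [h3]
    field_simp
  rw [div_mul_div_comm, eq_div_iff (mul_ne_zero hden hden)]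
  linear_combination (d : ℚ) * h5

theorem invq (hc : S_COC) : S_INVQ := by
  intro L _ _ _ _ δ hδ hsq e1 e2 e3 h12 h13 h23 TI TJ I J hall hTI hTJ hfin
  classical
  have h2 : (2 : L) ≠ 0 := two_ne_zero
  have c12 : δ * (e1 : L) ≠ δ * e2 := fun h => h12 (by exact_mod_cast mul_left_cancel₀ hδ h)
  have c13 : δ * (e1 : L) ≠ δ * e3 := fun h => h13 (by exact_mod_cast mul_left_cancel₀ hδ h)
  have c23 : δ * (e2 : L) ≠ δ * e3 := fun h => h23 (by exact_mod_cast mul_left_cancel₀ hδ h)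
  -- general properties of the descent maps
  have hgen : ∀ (f g k : ℤ), crv (δ * (f : L)) (δ * g) (δ * k) = crv (δ * (e1 : L)) (δ * e2) (δ * e3) →
      f ≠ g → f ≠ k → g ≠ k →
      (∀ P : Pt (δ * (e1 : L)) (δ * e2) (δ * e3), dl (δ * (f : L)) (δ * g) (δ * k) P ≠ 0) ∧
      (∀ P Q : Pt (δ * (e1 : L)) (δ * e2) (δ * e3),
        IsSquare (dl (δ * (f : L)) (δ * g) (δ * k) (P + Q) *
        (dl (δ * (f : L)) (δ * g) (δ * k) P * dl (δ * (f : L)) (δ * g) (δ * k) Q))) ∧
      (∀ m, (∃ h, TI m = m + (h + h)) → (∃ h, TJ m = m + (h + h)) → ∀ σ : L ≃ₐ[ℚ] L,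
        IsSquare (dl (δ * (f : L)) (δ * g) (δ * k) m * σ (dl (δ * (f : L)) (δ * g) (δ * k) m))) := by
    intro f g k hp hfg hfk hgk
    have d1 : δ * (f : L) ≠ δ * g := fun h => hfg (by exact_mod_cast mul_left_cancel₀ hδ h)
    have d2 : δ * (f : L) ≠ δ * k := fun h => hfk (by exact_mod_cast mul_left_cancel₀ hδ h)
    have d3 : δ * (g : L) ≠ δ * k := fun h => hgk (by exact_mod_cast mul_left_cancel₀ hδ h)
    have hadd := fun P Q : Pt (δ * (e1 : L)) (δ * e2) (δ * e3) => dl_add h2 hp d1 d2 d3 P Q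
    obtain ⟨t, ht⟩ : ∃ t : Pt (δ * (e1 : L)) (δ * e2) (δ * e3) → L,
      t = dl (δ * (f : L)) (δ * g) (δ * k) := ⟨_, rfl⟩
    rw [← ht] at hadd ⊢
    have hne : ∀ P, t P ≠ 0 := fun P => (hadd P 0).1
    have hsqadd : ∀ P Q, IsSquare (t (P + Q) * (t P * t Q)) := fun P Q => (hadd P Q).2
    have h0 : t 0 = 1 := by rw [ht]; rfl
    have hσT : ∀ (T : Pt (δ * (e1 : L)) (δ * e2) (δ * e3) →+ Pt (δ * (e1 : L)) (δ * e2) (δ * e3))
        (σ : L ≃ₐ[ℚ] L), SemiL δ e1 e2 e3 T σ → ∀ Q, IsSquare (t (T Q) * σ (t Q)) := by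
      intro T σ hT2 Q
      have hσδ : σ δ ≠ 0 := (map_ne_zero_iff _ σ.injective).2 hδ
      cases Q with
      | zero =>
        have e0 : (Affine.Point.zero : Pt (δ * (e1 : L)) (δ * e2) (δ * e3)) = 0 := rfl
        rw [e0, map_zero, h0, map_one, mul_one]
        exact ⟨1, by ring⟩
      | some x y h =>
        obtain ⟨x', y', h', hT, hx'⟩ := hT2 x y h
        rw [hT, ht, dl_eq, dl_eq, dlW_some, dlW_some]
        by_cases hx : x = δ * f
        · have hx2 : x' = δ * f := by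
            have h3 : x' * σ δ = (δ * f) * σ δ := by
              rw [hx', hx, map_mul, map_intCast]
              ring
            exact mul_right_cancel₀ hσδ h3
          rw [if_pos hx, if_pos hx2]
          refine ⟨δ * σ δ * ((f - g) * (f - k)), ?_⟩
          simp only [map_mul, map_sub, map_intCast]
          ring
        · have hx2 : x' ≠ δ * f := by
            intro h3
            apply hx
            rw [h3] at hx'
            have h4 : σ x = σ (δ * f) := by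
              rw [map_mul, map_intCast]
              apply mul_left_cancel₀ hδ
              rw [← hx']
              ring
            exact σ.injective h4
          rw [if_neg hx, if_neg hx2]
          have h5 : (x' - δ * f) * σ δ = δ * σ (x - δ * f) := by
            rw [map_sub, map_mul, map_intCast, mul_sub, sub_mul, hx']
            ring
          obtain ⟨r, hr⟩ := hsq σ
          refine ⟨r * σ (x - δ * f) / σ δ, ?_⟩
          rw [div_mul_div_comm, eq_div_iff (mul_ne_zero hσδ hσδ)]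
          calc (x' - δ * f) * σ (x - δ * f) * (σ δ * σ δ)
              = ((x' - δ * f) * σ δ) * (σ δ * σ (x - δ * f)) := by ring
            _ = (δ * σ δ) * (σ (x - δ * f) * σ (x - δ * f)) := by rw [h5]; ring
            _ = (r * r) * (σ (x - δ * f) * σ (x - δ * f)) := by rw [hr]
            _ = _ := by ring
    -- invariance under one map
    have hinv1 : ∀ (T : Pt (δ * (e1 : L)) (δ * e2) (δ * e3) →+ Pt (δ * (e1 : L)) (δ * e2) (δ * e3))
        (σ : L ≃ₐ[ℚ] L), SemiL δ e1 e2 e3 T σ → ∀ m, (∃ h, T m = m + (h + h)) →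
        IsSquare (t m * σ (t m)) := by
      rintro T σ hT2 m ⟨h, hh⟩
      have k1 := hσT T σ hT2 m
      have k2 : IsSquare (t (T m) * t m) := by
        have k3 := hsqadd m (h + h)
        rw [← hh] at k3
        have k4 := hsqadd h h
        have k5 : IsSquare (t (h + h)) := by
          refine sq_cancelL (hne h) ?_
          have e : t h ^ 2 * t (h + h) = t (h + h) * (t h * t h) := by ring
          rw [e]
          exact k4
        refine sq_cancelL (hne (h + h)) ?_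
        have e : t (h + h) ^ 2 * (t (T m) * t m) = (t (T m) * (t m * t (h + h))) * t (h + h) := by
          ring
        rw [e]
        exact k3.mul k5
      refine sq_trans (hne (T m)) ?_ k1
      rw [mul_comm]
      exact k2
    refine ⟨hne, hsqadd, fun m hI hJ σ => ?_⟩
    have a1 := hinv1 TI I hTI m hI
    have a2 := hinv1 TJ J hTJ m hJ
    rcases hall σ with rfl | rfl | rfl | rfl
    · exact ⟨t m, rfl⟩
    · exact a1
    · exact a2
    · have a3 : IsSquare (I (t m) * I (J (t m))) := by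
        rw [← map_mul]
        exact a2.map I
      exact sq_trans ((map_ne_zero_iff _ I.injective).2 (hne m)) a1 a3
  obtain ⟨a1, a2, a3⟩ := hgen e1 e2 e3 rfl h12 h13 h23
  obtain ⟨b1, b2, b3⟩ := hgen e2 e1 e3 (by
    unfold crv
    congr 1
    · ring
    · ring
    · ring) h12.symm h23 h13
  obtain ⟨ta, hta⟩ : ∃ ta : Pt (δ * (e1 : L)) (δ * e2) (δ * e3) → L,
      ta = dl (δ * (e1 : L)) (δ * e2) (δ * e3) := ⟨_, rfl⟩
  obtain ⟨tb, htb⟩ : ∃ tb : Pt (δ * (e1 : L)) (δ * e2) (δ * e3) → L,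
      tb = dl (δ * (e2 : L)) (δ * e1) (δ * e3) := ⟨_, rfl⟩
  rw [← hta] at a1 a2 a3
  rw [← htb] at b1 b2 b3
  obtain ⟨TT, hTT, hTT0, hTT1, hTT2⟩ := two_tors h2 c12 c13 c23
  have hhalf : ∀ P, IsSquare (ta P) → IsSquare (tb P) → ∃ Q, P = Q + Q := by
    intro P hP1 hP2
    rw [hta] at hP1
    rw [htb] at hP2
    exact exists_half' h2 c12 c13 c23 P hP1 hP2
  -- representatives of the rational classes
  have hrep : ∀ d : ℤ × ℤ, ∃ g : Pt (δ * (e1 : L)) (δ * e2) (δ * e3),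
      d ∈ SY L δ (e2 - e1) (e3 - e1) → IsSquare (ta g * d.1) ∧ IsSquare (tb g * d.2) := by
    intro d
    by_cases hd : d ∈ SY L δ (e2 - e1) (e3 - e1)
    · obtain ⟨hd1, hd2, x, y, hy, hxy, s1, s2⟩ := hd
      have hns : (crv (δ * (e1 : L)) (δ * e2) (δ * e3)).toAffine.Nonsingular (δ * (x + e1))
          (δ ^ 2 * y) := by
        apply crv_nonsing h2 c12 c13 c23
        have e4 : (δ ^ 2 * y) ^ 2 = δ ^ 3 * (δ * y ^ 2) := by ring
        rw [e4, hxy]
        push_cast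
        ring
      have hprod0 : x * (x - ((e2 - e1 : ℤ) : L)) * (x - ((e3 - e1 : ℤ) : L)) ≠ 0 := by
        rw [← hxy]
        exact mul_ne_zero hδ (pow_ne_zero 2 hy)
      have hx : x ≠ 0 := left_ne_zero_of_mul (left_ne_zero_of_mul hprod0)
      have hxA : x - ((e2 - e1 : ℤ) : L) ≠ 0 :=
        right_ne_zero_of_mul (left_ne_zero_of_mul hprod0)
      refine ⟨Affine.Point.some _ _ hns, fun _ => ?_⟩
      rw [hta, htb, dl_eq, dl_eq, dlW_some, dlW_some, if_neg, if_neg]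
      · have e5 : δ * (x + e1) - δ * e1 = δ * x := by ring
        have e6 : δ * (x + e1) - δ * e2 = δ * (x - ((e2 - e1 : ℤ) : L)) := by push_cast; ring
        rw [e5, e6]
        exact ⟨s1, s2⟩
      · intro h
        apply hxA
        have h3 := mul_left_cancel₀ hδ h
        push_cast
        linear_combination h3
      · intro h
        apply hx
        have h3 := mul_left_cancel₀ hδ h
        linear_combination h3
    · exact ⟨0, fun h => absurd h hd⟩
  choose rep hrep using hrep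
  -- points with rational classes
  have hrat : ∀ (g : Pt (δ * (e1 : L)) (δ * e2) (δ * e3)) (r1 r2 : ℚ), r1 ≠ 0 → r2 ≠ 0 →
      IsSquare (ta g * (r1 : L)) → IsSquare (tb g * (r2 : L)) →
      g ∈ TT ∨ ∃ d ∈ SY L δ (e2 - e1) (e3 - e1), ∃ h, g = rep d + (h + h) := by
    intro g r1 r2 hr1 hr2 s1 s2
    by_cases hg : g ∈ TT
    · exact Or.inl hg
    right
    obtain ⟨X, Y, hXY, hgXY, hY⟩ := hTT2 g hg
    have q := crv_eqn.mp hXY.1
    have hprod0 : (X - δ * e1) * (X - δ * e2) * (X - δ * e3) ≠ 0 := by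
      rw [← q]
      exact pow_ne_zero 2 hY
    have hX1 : X - δ * e1 ≠ 0 := left_ne_zero_of_mul (left_ne_zero_of_mul hprod0)
    have hX2 : X - δ * e2 ≠ 0 := right_ne_zero_of_mul (left_ne_zero_of_mul hprod0)
    have t1 : ta g = X - δ * e1 := by
      rw [hta, hgXY, dl_eq, dlW_some, if_neg (sub_ne_zero.1 hX1)]
    have t2 : tb g = X - δ * e2 := by
      rw [htb, hgXY, dl_eq, dlW_some, if_neg (sub_ne_zero.1 hX2)]
    obtain ⟨d1, hd1, u1⟩ := exists_repQ r1 hr1
    obtain ⟨d2, hd2, u2⟩ := exists_repQ r2 hr2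
    have v1 : IsSquare (ta g * (d1 : L)) := by
      have h3 : IsSquare ((r1 : L) * (d1 : L)) := by
        have := u1.map (Rat.castHom L)
        simpa using this
      exact sq_trans (by exact_mod_cast hr1) s1 h3
    have v2 : IsSquare (tb g * (d2 : L)) := by
      have h3 : IsSquare ((r2 : L) * (d2 : L)) := by
        have := u2.map (Rat.castHom L)
        simpa using this
      exact sq_trans (by exact_mod_cast hr2) s2 h3
    have hmem : (d1, d2) ∈ SY L δ (e2 - e1) (e3 - e1) := by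
      refine ⟨hd1, hd2, X / δ - e1, Y / δ ^ 2, div_ne_zero hY (pow_ne_zero 2 hδ), ?_, ?_, ?_⟩
      · have e4 : δ * (Y / δ ^ 2) ^ 2 = Y ^ 2 / δ ^ 3 := by field_simp
        rw [e4, q]
        push_cast
        field_simp
        ring
      · have e5 : δ * (X / δ - e1) = X - δ * e1 := by field_simp
        rw [e5, ← t1]
        exact v1
      · have e5 : δ * (X / δ - e1 - ((e2 - e1 : ℤ) : L)) = X - δ * e2 := by
          push_cast
          field_simp
          ring
        rw [e5, ← t2]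
        exact v2
    refine ⟨(d1, d2), hmem, ?_⟩
    obtain ⟨w1, w2⟩ := hrep (d1, d2) hmem
    simp only at w1 w2
    have hd10 : (d1 : L) ≠ 0 := by exact_mod_cast hd1.ne_zero
    have hd20 : (d2 : L) ≠ 0 := by exact_mod_cast hd2.ne_zero
    have key : ∀ (t : Pt (δ * (e1 : L)) (δ * e2) (δ * e3) → L) (d : L), d ≠ 0 →
        (∀ P, t P ≠ 0) → (∀ P Q, IsSquare (t (P + Q) * (t P * t Q))) →
        IsSquare (t g * d) → IsSquare (t (rep (d1, d2)) * d) →
        IsSquare (t (g - rep (d1, d2))) := by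
      intro t d hd hne hadd k1 k2
      have h3 := hadd (g - rep (d1, d2)) (rep (d1, d2))
      rw [sub_add_cancel] at h3
      have h4 := (h3.mul k1).mul k2
      refine sq_cancelL (mul_ne_zero (mul_ne_zero (hne g) (hne (rep (d1, d2)))) hd) ?_
      have e : (t g * t (rep (d1, d2)) * d) ^ 2 * t (g - rep (d1, d2)) =
          t g * (t (g - rep (d1, d2)) * t (rep (d1, d2))) * (t g * d) *
          (t (rep (d1, d2)) * d) := by ring
      rw [e]
      exact h4
    obtain ⟨Q, hQ⟩ := hhalf (g - rep (d1, d2)) (key ta d1 hd10 a1 a2 v1 w1)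
      (key tb d2 hd20 b1 b2 v2 w2)
    exact ⟨Q, by rw [← hQ]; abel⟩
  -- the cocycle functions
  obtain ⟨Φ, hΦ⟩ := hc L
  obtain ⟨MI, hMI⟩ : ∃ MI : Set (Pt (δ * (e1 : L)) (δ * e2) (δ * e3)),
      MI = {m | (∃ h, TI m = m + (h + h)) ∧ (∃ h, TJ m = m + (h + h))} := ⟨_, rfl⟩
  obtain ⟨F0, hF0⟩ : ∃ F0 : Pt (δ * (e1 : L)) (δ * e2) (δ * e3) →
      ((L ≃ₐ[ℚ] L) → (L ≃ₐ[ℚ] L) → Bool) × ((L ≃ₐ[ℚ] L) → (L ≃ₐ[ℚ] L) → Bool),
      F0 = fun m => (Φ (ta m), Φ (tb m)) := ⟨_, rfl⟩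
  have hbase : ∀ c : ((L ≃ₐ[ℚ] L) → (L ≃ₐ[ℚ] L) → Bool) × ((L ≃ₐ[ℚ] L) → (L ≃ₐ[ℚ] L) → Bool),
      ∃ P0, (∃ m ∈ MI, F0 m = c) → P0 ∈ MI ∧ F0 P0 = c := by
    intro c
    by_cases h : ∃ m ∈ MI, F0 m = c
    · obtain ⟨m, hm⟩ := h
      exact ⟨m, fun _ => hm⟩
    · exact ⟨0, fun h' => absurd h' h⟩
  choose P0 hP0 using hbase
  have hdiff : ∀ m ∈ MI, ∃ t ∈ TT ∪ hfin.toFinset.image rep, ∃ h,
      m = (P0 (F0 m) + t) + (h + h) := by
    intro m hm
    obtain ⟨k1, k2⟩ := hP0 (F0 m) ⟨m, hm, rfl⟩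
    rw [hF0] at k2
    obtain ⟨k3, k4⟩ := Prod.mk.inj k2
    have hmI : (∃ h, TI m = m + (h + h)) ∧ (∃ h, TJ m = m + (h + h)) := by
      rw [hMI] at hm; exact hm
    have hpI : (∃ h, TI (P0 (F0 m)) = (P0 (F0 m)) + (h + h)) ∧
        (∃ h, TJ (P0 (F0 m)) = (P0 (F0 m)) + (h + h)) := by
      rw [hMI] at k1; exact k1
    obtain ⟨p, hp⟩ : ∃ p, p = P0 (F0 m) := ⟨_, rfl⟩
    have e0 : P0 ((Φ (ta m), Φ (tb m))) = p := by rw [hp, hF0]
    rw [e0] at k3 k4
    rw [← hp] at hpI ⊢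
    obtain ⟨r1, hr1, u1⟩ := hΦ (ta m) (ta p) (a1 m) (a1 p) (a3 m hmI.1 hmI.2)
      (a3 p hpI.1 hpI.2) k3.symm
    obtain ⟨r2, hr2, u2⟩ := hΦ (tb m) (tb p) (b1 m) (b1 p) (b3 m hmI.1 hmI.2)
      (b3 p hpI.1 hpI.2) k4.symm
    have key : ∀ (t : Pt (δ * (e1 : L)) (δ * e2) (δ * e3) → L) (r : L),
        (∀ P, t P ≠ 0) → (∀ P Q, IsSquare (t (P + Q) * (t P * t Q))) →
        IsSquare (t m * t p * r) → IsSquare (t (m - p) * r) := by
      intro t r hne hadd k
      have h3 := hadd (m - p) p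
      rw [sub_add_cancel] at h3
      refine sq_cancelL (mul_ne_zero (hne m) (hne p)) ?_
      have e : (t m * t p) ^ 2 * (t (m - p) * r) =
          (t m * (t (m - p) * t p)) * (t m * t p * r) := by ring
      rw [e]
      exact h3.mul k
    rcases hrat (m - p) r1 r2 hr1 hr2 (key ta r1 a1 a2 u1) (key tb r2 b1 b2 u2) with h | h
    · exact ⟨m - p, Finset.mem_union_left _ h, 0, by abel⟩
    · obtain ⟨d, hd, h, hh⟩ := h
      refine ⟨rep d, Finset.mem_union_right _ (Finset.mem_image.2 ⟨d, hfin.mem_toFinset.2 hd, rfl⟩),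
        h, ?_⟩
      have e : m = p + (m - p) := by abel
      rw [e, hh]
      abel
  refine ⟨((Finset.univ : Finset (((L ≃ₐ[ℚ] L) → (L ≃ₐ[ℚ] L) → Bool) ×
    ((L ≃ₐ[ℚ] L) → (L ≃ₐ[ℚ] L) → Bool))) ×ˢ (TT ∪ hfin.toFinset.image rep)).image
      (fun c => P0 c.1 + c.2), ?_, ?_⟩
  · refine Finset.card_image_le.trans ?_
    rw [Finset.card_product, Finset.card_univ, Fintype.card_prod, ← Nat.card_eq_fintype_card]
    have h3 : (TT ∪ hfin.toFinset.image rep).card ≤
        8 * max 1 (SY L δ (e2 - e1) (e3 - e1)).ncard := by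
      refine (Finset.card_union_le _ _).trans ?_
      have h4 : (hfin.toFinset.image rep).card ≤ (SY L δ (e2 - e1) (e3 - e1)).ncard := by
        refine Finset.card_image_le.trans ?_
        rw [Set.ncard_eq_toFinset_card _ hfin]
      omega
    calc _ ≤ Nat.card ((L ≃ₐ[ℚ] L) → (L ≃ₐ[ℚ] L) → Bool) *
          Nat.card ((L ≃ₐ[ℚ] L) → (L ≃ₐ[ℚ] L) → Bool) *
          (8 * max 1 (SY L δ (e2 - e1) (e3 - e1)).ncard) := Nat.mul_le_mul_left _ h3
      _ = _ := by
        unfold KL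
        ring
  · intro m hI hJ
    have hm : m ∈ MI := by rw [hMI]; exact ⟨hI, hJ⟩
    obtain ⟨t, ht, h, hh⟩ := hdiff m hm
    exact ⟨P0 (F0 m) + t, Finset.mem_image.2 ⟨(F0 m, t),
      Finset.mem_product.2 ⟨Finset.mem_univ _, ht⟩, rfl⟩, h, hh⟩

end Pool.Agent.Helper30K9.QT
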