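import Pool.Agent.Helper30K9.QT.StmL

/-!
# Q8 project: [LDF] the local data of the quaternion field
-/

set_option autoImplicit false

namespace Pool.Agent.Helper30K9.QT

open WithZero

namespace Ldf

section grp

variable {G : Type} [Group G] {z I J : G}

theorem zI (h : QG z I J) : z * I = I * z := by rw [← h.II, mul_assoc]

theorem zJ (h : QG z I J) : z * J = J * z := by rw [← h.JJ, mul_assoc]

theorem cmul {z g k : G} (h1 : z * g = g * z) (h2 : z * k = k * z) :
    z * (g * k) = g * k * z := by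
  rw [← mul_assoc, h1, mul_assoc, h2, mul_assoc]

theorem zc (h : QG z I J) (g : G) : z * g = g * z := by
  rcases h.all g with rfl | rfl | rfl | rfl | rfl | rfl | rfl | rfl
  · simp
  · rfl
  · exact zI h
  · exact cmul rfl (zI h)
  · exact zJ h
  · exact cmul rfl (zJ h)
  · exact cmul (zI h) (zJ h)
  · exact cmul rfl (cmul (zI h) (zJ h))

theorem JI (h : QG z I J) : J * I = z * (I * J) := by
  rw [h.IJ, ← mul_assoc z z, h.zz, one_mul]

/-- commutes with `k` up to `z` -/
def Cm (z k g : G) : Prop := g * k = k * g ∨ g * k = z * (k * g)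

theorem cm_mul (h : QG z I J) {k a b : G} (ha : Cm z k a) (hb : Cm z k b) : Cm z k (a * b) := by
  rcases ha with ha | ha <;> rcases hb with hb | hb
  · left
    rw [mul_assoc, hb, ← mul_assoc, ha, mul_assoc]
  · right
    rw [mul_assoc, hb, ← mul_assoc, ← zc h a, mul_assoc, ← mul_assoc a k, ha, mul_assoc]
  · right
    rw [mul_assoc, hb, ← mul_assoc, ha, mul_assoc, mul_assoc]
  · left
    rw [mul_assoc, hb, ← mul_assoc a z, ← zc h a, mul_assoc, ← mul_assoc a k, ha, mul_assoc,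
      ← mul_assoc z z, h.zz, one_mul, mul_assoc]

theorem cm_all (h : QG z I J) {k : G} (hI : Cm z k I) (hJ : Cm z k J) (g : G) : Cm z k g := by
  have hz : Cm z k z := Or.inl (zc h k)
  rcases h.all g with rfl | rfl | rfl | rfl | rfl | rfl | rfl | rfl
  · exact Or.inl (by simp)
  · exact hz
  · exact hI
  · exact cm_mul h hz hI
  · exact hJ
  · exact cm_mul h hz hJ
  · exact cm_mul h hI hJ
  · exact cm_mul h hz (cm_mul h hI hJ)

theorem cm_I (h : QG z I J) (g : G) : Cm z I g := cm_all h (Or.inl rfl) (Or.inr (JI h)) g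

theorem cm_J (h : QG z I J) (g : G) : Cm z J g := cm_all h (Or.inr h.IJ) (Or.inl rfl) g

open Classical in
/-- the character of the centralizer of `k` -/
noncomputable def chr (h : QG z I J) (k : G) (hk : ∀ g, Cm z k g) : G →* ℤˣ where
  toFun g := if g * k = k * g then 1 else -1
  map_one' := by simp
  map_mul' a b := by
    have hne : ∀ x : G, x ≠ z * x := fun x hx => h.z1 (mul_right_cancel (a := z) (b := x)
      (by rw [one_mul]; exact hx.symm))
    have key : ∀ x : G, x * k = z * (k * x) → ¬ x * k = k * x := fun x h1 h2 =>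
      hne (k * x) (h2.symm.trans h1)
    rcases hk a with ha | ha <;> rcases hk b with hb | hb
    · rw [if_pos ha, if_pos hb, if_pos, mul_one]
      rw [mul_assoc, hb, ← mul_assoc, ha, mul_assoc]
    · rw [if_pos ha, if_neg (key b hb), if_neg, one_mul]
      apply key
      rw [mul_assoc, hb, ← mul_assoc, ← zc h a, mul_assoc, ← mul_assoc a k, ha, mul_assoc]
    · rw [if_neg (key a ha), if_pos hb, if_neg, mul_one]
      apply key
      rw [mul_assoc, hb, ← mul_assoc, ha, mul_assoc, mul_assoc]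
    · rw [if_neg (key a ha), if_neg (key b hb), if_pos, neg_mul_neg, one_mul]
      rw [mul_assoc, hb, ← mul_assoc a z, ← zc h a, mul_assoc, ← mul_assoc a k, ha, mul_assoc,
        ← mul_assoc z z, h.zz, one_mul, mul_assoc]

theorem chr_one (h : QG z I J) (k : G) (hk : ∀ g, Cm z k g) (g : G) :
    chr h k hk g = 1 ↔ g * k = k * g := by
  classical
  constructor
  · intro h1
    by_contra h2
    have h3 : chr h k hk g = -1 := if_neg h2
    rw [h1] at h3
    exact absurd h3 (by decide)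
  · intro h1
    exact if_pos h1

theorem IJne (h : QG z I J) : I * J ≠ J * I := by
  intro h1
  have h2 := h.IJ
  rw [h1] at h2
  exact h.z1 (mul_right_cancel (a := z) (b := J * I) (by rw [one_mul]; exact h2.symm))

theorem ker (h : QG z I J) {g : G} (h1 : g * I = I * g) (h2 : g * J = J * g) :
    g = 1 ∨ g = z := by
  rcases h.all g with rfl | rfl | rfl | rfl | rfl | rfl | rfl | rfl
  · exact Or.inl rfl
  · exact Or.inr rfl
  · exact absurd h2 (IJne h)
  · exfalso
    rw [mul_assoc, ← mul_assoc J z, ← zJ h, mul_assoc] at h2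
    exact IJne h (mul_left_cancel h2)
  · exact absurd h1.symm (IJne h)
  · exfalso
    rw [mul_assoc, ← mul_assoc I z, ← zI h, mul_assoc] at h1
    exact IJne h (mul_left_cancel h1).symm
  · exfalso
    rw [mul_assoc] at h1
    exact IJne h (mul_left_cancel h1).symm
  · exfalso
    rw [mul_assoc, mul_assoc, ← mul_assoc I z, ← zI h, mul_assoc] at h1
    exact IJne h (mul_left_cancel (mul_left_cancel h1)).symm

theorem sqz (h : QG z I J) (g : G) : g = 1 ∨ g = z ∨ g * g = z := by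
  have hz : ∀ x : G, x * x = z → z * x * (z * x) = z := by
    intro x hx
    rw [mul_assoc, ← mul_assoc x z, ← zc h x, mul_assoc z x x, hx, ← mul_assoc, h.zz, one_mul]
  have hIJ : I * J * (I * J) = z := by
    rw [mul_assoc, ← mul_assoc J I, JI h, mul_assoc z, mul_assoc I J J, h.JJ, ← mul_assoc I z,
      ← zI h, mul_assoc z I, ← mul_assoc I z, ← zI h, mul_assoc z I I, h.II, h.zz, mul_one]
  rcases h.all g with rfl | rfl | rfl | rfl | rfl | rfl | rfl | rfl
  · exact Or.inl rfl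
  · exact Or.inr (Or.inl rfl)
  · exact Or.inr (Or.inr h.II)
  · exact Or.inr (Or.inr (hz _ h.II))
  · exact Or.inr (Or.inr h.JJ)
  · exact Or.inr (Or.inr (hz _ h.JJ))
  · exact Or.inr (Or.inr hIJ)
  · exact Or.inr (Or.inr (hz _ hIJ))

end grp

section padic

variable {p : ℕ} [Fact p.Prime]

theorem two_unit (hp : p ≠ 2) : ‖(2 : ℤ_[p])‖ = 1 := by
  have h1 : ‖((2 : ℤ) : ℤ_[p])‖ = 1 := by
    rw [PadicInt.norm_intCast_eq_one_iff]
    have hpp : p.Prime := Fact.out
    have : Nat.Coprime 2 p := (Nat.coprime_primes Nat.prime_two hpp).2 (Ne.symm hp)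
    exact Nat.isCoprime_iff_coprime.2 this
  simpa using h1

/-- Hensel for squares -/
theorem sq_of (hp : p ≠ 2) {x c : ℤ_[p]} (hc : ‖c‖ = 1) (h : ‖c ^ 2 - x‖ < 1) : IsSquare x := by
  obtain ⟨y, hy, -⟩ := hensels_lemma (F := Polynomial.X ^ 2 - Polynomial.C x) (a := c) (by
    simp only [Polynomial.derivative_sub, Polynomial.derivative_X_pow, Polynomial.derivative_C,
      sub_zero]
    simpa [two_unit hp, hc] using h)
  refine ⟨y, ?_⟩
  simp only [Polynomial.coe_aeval_eq_eval, Polynomial.eval_sub, Polynomial.eval_pow,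
    Polynomial.eval_X, Polynomial.eval_C] at hy
  rw [← sq]
  exact (sub_eq_zero.1 hy).symm

/-- integers which are squares modulo `p` -/
theorem sq_int (hp : p ≠ 2) {D : ℤ} (hD : jacobiSym D p = 1) : IsSquare (D : ℤ_[p]) := by
  have hpp : p.Prime := Fact.out
  rw [← jacobiSym.legendreSym.to_jacobiSym] at hD
  have h0 : (D : ZMod p) ≠ 0 := by
    intro h
    rw [(legendreSym.eq_zero_iff p D).2 h] at hD
    exact absurd hD (by decide)
  obtain ⟨c, hc⟩ := (legendreSym.eq_one_iff p h0).1 hD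
  have hc0 : c ≠ 0 := by
    rintro rfl
    exact h0 (by simpa using hc)
  have hcc : ((c.val : ℤ) : ZMod p) = c := by simp
  have h1 : (p : ℤ) ∣ (c.val : ℤ) ^ 2 - D := by
    rw [← ZMod.intCast_zmod_eq_zero_iff_dvd, Int.cast_sub, Int.cast_pow, hcc, hc]
    ring
  have h2 : ¬ (p : ℤ) ∣ (c.val : ℤ) := by
    rw [← ZMod.intCast_zmod_eq_zero_iff_dvd, hcc]
    exact hc0
  apply sq_of hp (c := ((c.val : ℤ) : ℤ_[p]))
  · rw [PadicInt.norm_intCast_eq_one_iff]
    exact (((Nat.prime_iff_prime_int.1 hpp).coprime_iff_not_dvd).2 h2).symm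
  · have h3 : (((c.val : ℤ) : ℤ_[p]) ^ 2 - (D : ℤ_[p])) =
        (((c.val : ℤ) ^ 2 - D : ℤ) : ℤ_[p]) := by push_cast; ring
    rw [h3, PadicInt.norm_intCast_lt_one_iff]
    exact h1

/-- images of integral elements -/
theorem norm_le {L : Type} [Field L] (ι : L →+* ℚ_[p]) {x : L} (hx : IsIntegral ℤ x) :
    ‖ι x‖ ≤ 1 := by
  have h1 : IsIntegral ℤ (ι x) := hx.map (ι.toIntAlgHom)
  have h2 : IsIntegral ℤ_[p] (ι x) := h1.tower_top
  obtain ⟨y, hy⟩ := IsIntegrallyClosed.isIntegral_iff.1 h2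
  rw [← hy]
  exact y.2

/-- units modulo rational integers and squares -/
theorem unit_sq (hp : p ≠ 2) {y : ℚ_[p]} (hy : ‖y‖ = 1) :
    ∃ ε : ℤ, ¬ (p : ℤ) ∣ ε ∧ IsSquare (y * ε) := by
  have hpp : p.Prime := Fact.out
  let u : ℤ_[p] := ⟨y, hy.le⟩
  have hu : ‖u‖ = 1 := hy
  have h1 : ‖u - (u.appr 1 : ℤ_[p])‖ < 1 := by
    have h2 := PadicInt.appr_spec 1 u
    rw [pow_one, Ideal.mem_span_singleton] at h2
    rw [PadicInt.norm_lt_one_iff_dvd]
    exact h2
  have h3 : ‖((u.appr 1 : ℤ) : ℤ_[p])‖ = 1 := by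
    have h4 : ((u.appr 1 : ℤ) : ℤ_[p]) = u - (u - (u.appr 1 : ℤ_[p])) := by push_cast; ring
    rw [h4, sub_eq_add_neg, PadicInt.norm_add_eq_max_of_ne, hu, norm_neg, max_eq_left h1.le]
    rw [hu, norm_neg]
    exact h1.ne'
  refine ⟨(u.appr 1 : ℤ), ?_, ?_⟩
  · intro h
    rw [← PadicInt.norm_intCast_lt_one_iff, h3] at h
    exact lt_irrefl _ h
  · obtain ⟨w, hw⟩ := sq_of hp (x := u * ((u.appr 1 : ℤ) : ℤ_[p])) hu (by
      have h5 : u ^ 2 - u * ((u.appr 1 : ℤ) : ℤ_[p]) = u * (u - (u.appr 1 : ℤ_[p])) := by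
        push_cast; ring
      rw [h5, norm_mul, hu, one_mul]
      exact h1)
    refine ⟨(w : ℚ_[p]), ?_⟩
    have h6 := congrArg (fun a : ℤ_[p] => (a : ℚ_[p])) hw
    simpa using h6

end padic

section fld

variable {F : Type} [Field F] [NumberField F] {z I J : F ≃ₐ[ℚ] F} {L : IntermediateField ℚ F}
  {s : F} {δ : L}

theorem mem_L (h : FD z I J L s δ) {x : F} (hx : z x = x) : x ∈ L := by
  have := h.gal
  rw [← IsGalois.fixedField_fixingSubgroup L, IntermediateField.mem_fixedField_iff]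
  intro τ hτ
  rcases (h.hL τ).1 hτ with rfl | rfl
  · rfl
  · exact hx

theorem z_L (h : FD z I J L s δ) (x : L) : z (x : F) = x := by
  have h1 := (h.hL z).2 (Or.inr rfl)
  exact (mem_fixingSubgroup_iff _).1 h1 x x.2

/-- the generators -/
theorem gens (hc : S_CHI) (h : FD z I J L s δ) : ∃ (D₁ D₂ : ℤ) (t₁ t₂ : F), D₁ ≠ 0 ∧ D₂ ≠ 0 ∧
    t₁ ^ 2 = (D₁ : F) ∧ t₂ ^ 2 = (D₂ : F) ∧
    (∀ g : F ≃ₐ[ℚ] F, g t₁ = t₁ ∨ g t₁ = -t₁) ∧ (∀ g : F ≃ₐ[ℚ] F, g t₂ = t₂ ∨ g t₂ = -t₂) ∧
    z t₁ = t₁ ∧ z t₂ = t₂ ∧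
    ∀ g : F ≃ₐ[ℚ] F, g t₁ = t₁ → g t₂ = t₂ → g = 1 ∨ g = z := by
  have := h.gal
  obtain ⟨D₁, t₁, h1, h2, h3⟩ := hc F (chr h.qg I (cm_I h.qg))
  obtain ⟨D₂, t₂, k1, k2, k3⟩ := hc F (chr h.qg J (cm_J h.qg))
  have hne : ∀ {D : ℤ} {t : F}, Squarefree D → t ^ 2 = (D : F) → t ≠ 0 := by
    intro D t hD ht h0
    rw [h0] at ht
    apply hD.ne_zero
    have : (D : F) = 0 := by rw [← ht]; ring
    exact_mod_cast this
  have hsg : ∀ {χ : (F ≃ₐ[ℚ] F) →* ℤˣ} {t : F} (g : F ≃ₐ[ℚ] F),
      g t = (((χ g : ℤˣ) : ℤ) : F) * t → g t = t ∨ g t = -t := by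
    intro χ t g hg
    rcases Int.units_eq_one_or (χ g) with hh | hh
    · left
      rw [hg, hh]
      simp
    · right
      rw [hg, hh]
      simp
  have hone : ∀ {χ : (F ≃ₐ[ℚ] F) →* ℤˣ} {t : F} (g : F ≃ₐ[ℚ] F), t ≠ 0 →
      g t = (((χ g : ℤˣ) : ℤ) : F) * t → (g t = t ↔ χ g = 1) := by
    intro χ t g ht hg
    constructor
    · intro h5
      rcases Int.units_eq_one_or (χ g) with hh | hh
      · exact hh
      · exfalso
        rw [hg, hh] at h5
        have h6 : (2 : F) * t = 0 := by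
          push_cast at h5
          linear_combination (-1 : F) * h5
        exact mul_ne_zero two_ne_zero ht h6
    · intro h5
      rw [hg, h5]
      simp
  have t10 := hne h1 h2
  have t20 := hne k1 k2
  refine ⟨D₁, D₂, t₁, t₂, h1.ne_zero, k1.ne_zero, h2, k2, fun g => hsg g (h3 g),
    fun g => hsg g (k3 g), ?_, ?_, ?_⟩
  · rw [hone z t10 (h3 z), chr_one]
    exact zc h.qg I
  · rw [hone z t20 (k3 z), chr_one]
    exact zc h.qg J
  · intro g hg1 hg2
    rw [hone g t10 (h3 g), chr_one] at hg1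
    rw [hone g t20 (k3 g), chr_one] at hg2
    exact ker h.qg hg1 hg2

/-- an embedding of `L` in `ℚ_p` -/
theorem emb {p : ℕ} [Fact p.Prime] (h : FD z I J L s δ) {D₁ D₂ : ℤ} {t₁ t₂ : F}
    (h1 : t₁ ^ 2 = (D₁ : F)) (h2 : t₂ ^ 2 = (D₂ : F))
    (hk : ∀ g : F ≃ₐ[ℚ] F, g t₁ = t₁ → g t₂ = t₂ → g = 1 ∨ g = z)
    (s1 : IsSquare (D₁ : ℤ_[p])) (s2 : IsSquare (D₂ : ℤ_[p])) : Nonempty (L →+* ℚ_[p]) := by
  have := h.gal
  have hle : L ≤ IntermediateField.adjoin ℚ {t₁, t₂} := by
    intro x hx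
    rw [← IsGalois.fixedField_fixingSubgroup (IntermediateField.adjoin ℚ {t₁, t₂}),
      IntermediateField.mem_fixedField_iff]
    intro g hg
    have hm := (mem_fixingSubgroup_iff _).1 hg
    have hg1 : g t₁ = t₁ := hm t₁ (IntermediateField.subset_adjoin ℚ _ (by simp))
    have hg2 : g t₂ = t₂ := hm t₂ (IntermediateField.subset_adjoin ℚ _ (by simp))
    rcases hk g hg1 hg2 with rfl | rfl
    · rfl
    · exact z_L h ⟨x, hx⟩
  have hs : ∀ t ∈ ({t₁, t₂} : Set F), IsIntegral ℚ t ∧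
      ((minpoly ℚ t).map (algebraMap ℚ ℚ_[p])).Splits := by
    have key : ∀ (t : F) (D : ℤ), t ^ 2 = (D : F) → IsSquare (D : ℤ_[p]) → IsIntegral ℚ t ∧
        ((minpoly ℚ t).map (algebraMap ℚ ℚ_[p])).Splits := by
      intro t D ht hD
      have hmon : (Polynomial.X ^ 2 - Polynomial.C (D : ℚ) : Polynomial ℚ).Monic :=
        Polynomial.monic_X_pow_sub_C _ two_ne_zero
      have hroot : Polynomial.aeval t (Polynomial.X ^ 2 - Polynomial.C (D : ℚ)) = 0 := by
        simp [ht]
      refine ⟨⟨_, hmon, by simpa [Polynomial.aeval_def] using hroot⟩, ?_⟩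
      have hdvd := minpoly.dvd ℚ t hroot
      obtain ⟨c, hc⟩ := hD
      have h6 : (Polynomial.X ^ 2 - Polynomial.C (D : ℚ) : Polynomial ℚ).map
          (algebraMap ℚ ℚ_[p]) = (Polynomial.X - Polynomial.C (c : ℚ_[p])) *
          (Polynomial.X - Polynomial.C (-(c : ℚ_[p]))) := by
        have h7 : ((D : ℤ) : ℚ_[p]) = (c : ℚ_[p]) * c := by
          have := congrArg (fun a : ℤ_[p] => (a : ℚ_[p])) hc
          simpa using this
        have h8 : algebraMap ℚ ℚ_[p] (D : ℚ) = (c : ℚ_[p]) * c := by rw [← h7]; simp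
        rw [Polynomial.map_sub, Polynomial.map_pow, Polynomial.map_X, Polynomial.map_C, h8,
          Polynomial.C_neg, Polynomial.C_mul]
        ring
      refine Polynomial.Splits.of_dvd ?_ ?_ (Polynomial.map_dvd (algebraMap ℚ ℚ_[p]) hdvd)
      · rw [h6]
        exact (Polynomial.Splits.X_sub_C _).mul (Polynomial.Splits.X_sub_C _)
      · rw [h6]
        exact mul_ne_zero (Polynomial.X_sub_C_ne_zero _) (Polynomial.X_sub_C_ne_zero _)
    intro t ht
    rcases ht with rfl | ht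
    · exact key _ _ h1 s1
    · rw [Set.mem_singleton_iff] at ht
      subst ht
      exact key _ _ h2 s2
  obtain ⟨φ⟩ := IntermediateField.nonempty_algHom_adjoin_of_splits hs
  exact ⟨φ.toRingHom.comp (IntermediateField.inclusion hle).toRingHom⟩

/-- no square in the inert case -/
theorem nonsq (h : FD z I J L s δ) {p : ℕ} (hp2 : p ≠ 2) (hpp : p.Prime) {v : Valuation F ℤᵐ⁰}
    {g : F ≃ₐ[ℚ] F} (hvp : v (p : F) = exp (-1 : ℤ))
    (hvc : ∀ c : ℤ, ¬ (p : ℤ) ∣ c → v (c : F) = 1)
    (hg : ∀ x : F, v x ≤ 1 → v (g x - x ^ p) < 1) (hgg : g * g = z)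
    (r : ℚ) (u : L) (hr : r ≠ 0) (hu : v ((u : F) - 1) < 1) :
    ¬ IsSquare (δ * (r : L) * u) := by
  have h2 : v (2 : F) = 1 := by
    have h3 := hvc 2 (by
      intro h4
      have h5 := Int.natCast_dvd_natCast.1 (by exact_mod_cast h4 : (p : ℤ) ∣ ((2 : ℕ) : ℤ))
      exact hp2 ((Nat.prime_dvd_prime_iff_eq hpp Nat.prime_two).1 h5))
    exact_mod_cast h3
  have hvu : v (u : F) = 1 := by
    have h3 : (u : F) = 1 + ((u : F) - 1) := by ring
    rw [h3, Valuation.map_one_add_of_lt _ hu]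
  rintro ⟨w, hw⟩
  have hw' : s ^ 2 * (r : F) * (u : F) = (w : F) * (w : F) := by
    have h3 := congrArg (fun a : L => (a : F)) hw
    simp only [MulMemClass.coe_mul, h.hδ] at h3
    rw [← h3]
    congr 2
  -- the element `t = w / s`
  obtain ⟨t, ht⟩ : ∃ t : F, t = (w : F) / s := ⟨_, rfl⟩
  have ht2 : t ^ 2 = (r : F) * u := by
    rw [ht, div_pow, div_eq_iff (pow_ne_zero 2 h.s0)]
    rw [sq (w : F), ← hw']
    ring
  have hzt : z t = -t := by
    rw [ht, map_div₀, z_L h w, h.zs, div_neg]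
  have hr0 : (r : F) ≠ 0 := by exact_mod_cast hr
  have hu0 : (u : F) ≠ 0 := by
    intro h3
    rw [h3, map_zero] at hvu
    exact zero_ne_one hvu
  have ht0 : t ≠ 0 := by
    intro h3
    rw [h3] at ht2
    exact mul_ne_zero hr0 hu0 (by rw [← ht2]; ring)
  have hp0 : (p : F) ≠ 0 := by exact_mod_cast hpp.ne_zero
  -- normalize
  obtain ⟨n, hn⟩ : ∃ n : ℤ, v t = exp n := by
    refine ⟨log (v t), ?_⟩
    rw [exp_log ((Valuation.ne_zero_iff v).2 ht0)]
  obtain ⟨t', ht'⟩ : ∃ t' : F, t' = t * (p : F) ^ n := ⟨_, rfl⟩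
  obtain ⟨r', hr'⟩ : ∃ r' : ℚ, r' = r * (p : ℚ) ^ (2 * n) := ⟨_, rfl⟩
  have hvt' : v t' = 1 := by
    rw [ht', map_mul, map_zpow₀, hvp, hn, ← exp_zsmul, ← exp_add]
    simp
  have hsq : t' ^ 2 = (r' : F) * u := by
    rw [ht', hr', mul_pow, ht2]
    push_cast
    rw [mul_comm 2 n, zpow_mul, zpow_ofNat]
    ring
  have hzt' : z t' = -t' := by
    rw [ht', map_mul, hzt, map_zpow₀, map_natCast]
    ring
  have hvr : v (r' : F) = 1 := by
    have h3 := congrArg v hsq
    rw [map_pow, hvt', one_pow, map_mul, hvu, mul_one] at h3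
    exact h3.symm
  -- `r'^(p-1) ≡ 1`
  have hr1 : v ((r' : F) ^ (p - 1) - 1) < 1 := by
    have h3 := hg (r' : F) hvr.le
    rw [map_ratCast] at h3
    have h4 : (r' : F) - (r' : F) ^ p = -((r' : F) * ((r' : F) ^ (p - 1) - 1)) := by
      have : (r' : F) ^ p = (r' : F) * (r' : F) ^ (p - 1) := by
        rw [← pow_succ', Nat.sub_add_cancel hpp.one_le]
      rw [this]
      ring
    rwa [h4, Valuation.map_neg, map_mul, hvr, one_mul] at h3
  have hadd : ∀ {a b : F}, v a < 1 → v b < 1 → v (a + b) < 1 := fun ha hb =>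
    lt_of_le_of_lt (Valuation.map_add _ _ _) (max_lt ha hb)
  have hu1 : v ((u : F) ^ (p - 1) - 1) < 1 := by
    have h3 : (u : F) ^ (p - 1) - 1 = ((u : F) - 1) * ∑ i ∈ Finset.range (p - 1), (u : F) ^ i := by
      rw [mul_geom_sum]
    rw [h3, map_mul]
    refine lt_of_le_of_lt (mul_le_of_le_one_right' ?_) hu
    apply Valuation.map_sum_le
    intro i _
    rw [map_pow, hvu, one_pow]
  have h4 : v ((t' ^ (p - 1) - 1) * (t' ^ (p - 1) + 1)) < 1 := by
    have h5 : (t' ^ (p - 1) - 1) * (t' ^ (p - 1) + 1) =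
        ((r' : F) ^ (p - 1) - 1) * (u : F) ^ (p - 1) + ((u : F) ^ (p - 1) - 1) := by
      have h6 : t' ^ (p - 1) * t' ^ (p - 1) = (r' : F) ^ (p - 1) * (u : F) ^ (p - 1) := by
        rw [← mul_pow, ← mul_pow, ← hsq, sq]
      linear_combination h6
    rw [h5]
    apply hadd _ hu1
    rw [map_mul, map_pow, hvu, one_pow, mul_one]
    exact hr1
  have h5 : ∃ e : F, (e = 1 ∨ e = -1) ∧ v (t' ^ (p - 1) - e) < 1 := by
    by_contra hcon
    push Not at hcon
    have h6 := hcon 1 (Or.inl rfl)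
    have h7 := hcon (-1) (Or.inr rfl)
    rw [sub_neg_eq_add] at h7
    rw [map_mul] at h4
    exact absurd (lt_of_le_of_lt (one_le_mul h6 h7) h4) (lt_irrefl _)
  obtain ⟨e, he, h6⟩ := h5
  have hge : g e = e := by
    rcases he with rfl | rfl
    · exact map_one g
    · rw [map_neg, map_one]
  have hee : e * e = 1 := by
    rcases he with rfl | rfl
    · ring
    · ring
  have hve : v e = 1 := by
    rcases he with rfl | rfl
    · exact map_one v
    · rw [Valuation.map_neg, map_one]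
  have h7 : v (g t' - e * t') < 1 := by
    have h8 : g t' - e * t' = (g t' - t' ^ p) + t' * (t' ^ (p - 1) - e) := by
      have : t' ^ p = t' * t' ^ (p - 1) := by
        rw [← pow_succ', Nat.sub_add_cancel hpp.one_le]
      rw [this]
      ring
    rw [h8]
    apply hadd (hg t' hvt'.le)
    rw [map_mul, hvt', one_mul]
    exact h6
  have h8 : v (g (g t' - e * t')) < 1 := by
    have h9 := hg _ h7.le
    have h10 : g (g t' - e * t') = (g (g t' - e * t') - (g t' - e * t') ^ p) +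
      (g t' - e * t') ^ p := by ring
    rw [h10]
    apply hadd h9
    rw [map_pow]
    exact pow_lt_one₀ zero_le h7 hpp.ne_zero
  have h9 : g (g t') = -t' := by
    rw [← hzt', ← hgg]
    rfl
  have h10 : v (2 * t') < 1 := by
    have h11 : 2 * t' = -(g (g t' - e * t') + e * (g t' - e * t')) := by
      rw [map_sub, map_mul, hge, h9]
      linear_combination -t' * hee
    rw [h11, Valuation.map_neg]
    apply hadd h8
    rw [map_mul, hve, one_mul]
    exact h7
  rw [map_mul, h2, hvt', one_mul] at h10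
  exact lt_irrefl _ h10

end fld

end Ldf

open Ldf in
/-- [LDF] -/
theorem ldf (hf : S_FROB) (hc : S_CHI) : S_LDF := by
  intro F _ _ z I J L s δ h
  have := h.gal
  obtain ⟨D₁, D₂, t₁, t₂, n1, n2, q1, q2, -, -, zt1, zt2, hk⟩ := gens hc h
  obtain ⟨z0, hz0⟩ := hf F
  have hδ0 : δ ≠ 0 := by
    intro h0
    have h1 := h.hδ
    rw [h0] at h1
    exact pow_ne_zero 2 h.s0 (by rw [← h1]; rfl)
  have hδi : IsIntegral ℤ δ := by
    have h1 : IsIntegral ℤ (δ : F) := by
      rw [h.hδ]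
      exact h.int.pow 2
    exact (isIntegral_algebraMap_iff (algebraMap L F).injective).1 h1
  obtain ⟨m, hm0, hm⟩ : ∃ m : ℤ, m ≠ 0 ∧ IsIntegral ℤ ((m : L) * δ⁻¹) := by
    have h1 : IsAlgebraic ℤ (δ⁻¹) := hδi.isAlgebraic.inv
    obtain ⟨m, hm, h2⟩ := h1.exists_integral_multiple
    refine ⟨m, hm, ?_⟩
    rw [← zsmul_eq_mul]
    exact h2
  refine ⟨{D₁, D₂}, ?_, max (max z0 2) (max (max D₁.natAbs D₂.natAbs) m.natAbs), ?_⟩
  · intro D hD
    rcases Finset.mem_insert.1 hD with rfl | hD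
    · exact n1
    · rw [Finset.mem_singleton.1 hD]
      exact n2
  intro A z1 hz hA
  have hnd : ∀ {p : ℕ} {m : ℤ}, m ≠ 0 → m.natAbs < p → ¬ (p : ℤ) ∣ m := by
    intro p m hm hlt hd
    have h1 := Int.natAbs_dvd_natAbs.2 hd
    rw [Int.natAbs_natCast] at h1
    exact absurd (Nat.le_of_dvd (Int.natAbs_pos.2 hm) h1) (not_le.2 hlt)
  refine ⟨hδ0, ?_, ?_⟩
  · intro p _ hp hAp
    have hpp : p.Prime := Fact.out
    have hp2 : p ≠ 2 := by omega
    rw [hA p hpp hp] at hAp
    have s1 := sq_int hp2 (hAp D₁ (by simp))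
    have s2 := sq_int hp2 (hAp D₂ (by simp))
    obtain ⟨ι⟩ := emb h q1 q2 hk s1 s2
    have h1 : ‖ι δ‖ = 1 := by
      apply le_antisymm (norm_le ι hδi)
      have h2 := norm_le ι hm
      rw [map_mul, map_inv₀, norm_mul, norm_inv, map_intCast] at h2
      have h3 : ‖(m : ℚ_[p])‖ = 1 := by
        rw [Padic.norm_intCast_eq_one_iff]
        exact (((Nat.prime_iff_prime_int.1 hpp).coprime_iff_not_dvd).2
          (hnd hm0 (by omega))).symm
      rw [h3, one_mul] at h2
      have h4 : 0 < ‖ι δ‖ := norm_pos_iff.2 ((map_ne_zero ι).2 hδ0)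
      rwa [inv_le_one₀ h4] at h2
    obtain ⟨ε, h5, h6⟩ := unit_sq hp2 h1
    exact ⟨ι, ε, h5, h6⟩
  · intro p hpp hp hAp
    have hp2 : p ≠ 2 := by omega
    have : Fact p.Prime := ⟨hpp⟩
    rw [hA p hpp hp] at hAp
    obtain ⟨v, g, hvp, hvc, hvi, hg⟩ := hz0 p hpp (by omega)
    have hgg : g * g = z := by
      have key : ∀ (t : F) (D : ℤ), D ≠ 0 → D.natAbs < p → t ^ 2 = (D : F) →
          jacobiSym D p ≠ 1 → g t ≠ t := by
        intro t D hD0 hDp ht hJ hgt
        have hnd' := hnd hD0 hDp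
        have hvt : v t = 1 := by
          have h1 := hvc D hnd'
          rw [← ht, map_pow] at h1
          rcases lt_trichotomy (v t) 1 with h2 | h2 | h2
          · exact absurd h1 (pow_lt_one₀ zero_le h2 two_ne_zero).ne
          · exact h2
          · exact absurd h1 (one_lt_pow₀ h2 two_ne_zero).ne'
        have h1 := hg t hvt.le
        rw [hgt] at h1
        rw [← jacobiSym.legendreSym.to_jacobiSym] at hJ
        have hD' : (D : ZMod p) ≠ 0 := by
          rw [Ne, ZMod.intCast_zmod_eq_zero_iff_dvd]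
          exact hnd'
        have h2 : legendreSym p D = -1 :=
          (legendreSym.eq_one_or_neg_one p hD').resolve_left hJ
        have h3 := legendreSym.eq_pow p D
        rw [h2] at h3
        have h4 : (p : ℤ) ∣ D ^ (p / 2) + 1 := by
          rw [← ZMod.intCast_zmod_eq_zero_iff_dvd]
          push_cast
          rw [← h3]
          push_cast
          ring
        obtain ⟨k, hk'⟩ := h4
        have h5 : v ((D : F) ^ (p / 2) + 1) < 1 := by
          have h6 : (D : F) ^ (p / 2) + 1 = (p : F) * (k : F) := by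
            exact_mod_cast congrArg (fun a : ℤ => (a : F)) hk'
          rw [h6, map_mul, hvp]
          refine lt_of_le_of_lt (mul_le_of_le_one_right' (hvi _ ?_)) ?_
          · exact isIntegral_algebraMap (R := ℤ) (A := F) (x := k)
          · rw [← exp_zero, exp_lt_exp]
            norm_num
        have h6 : t ^ p = t * (D : F) ^ (p / 2) := by
          have h7 : p = 2 * (p / 2) + 1 := by
            have := hpp.eq_two_or_odd
            omega
          conv_lhs => rw [h7]
          rw [pow_succ, pow_mul, ht]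
          ring
        have h7 : (2 : F) * t = (t - t ^ p) + t * ((D : F) ^ (p / 2) + 1) := by
          rw [h6]
          ring
        have h8 : v (2 * t) < 1 := by
          rw [h7]
          refine lt_of_le_of_lt (Valuation.map_add _ _ _) (max_lt h1 ?_)
          rw [map_mul, hvt, one_mul]
          exact h5
        have h2' : v (2 : F) = 1 := by
          have h3 := hvc 2 (by
            intro h4
            have h5 := Int.natCast_dvd_natCast.1 (by exact_mod_cast h4 : (p : ℤ) ∣ ((2 : ℕ) : ℤ))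
            exact hp2 ((Nat.prime_dvd_prime_iff_eq hpp Nat.prime_two).1 h5))
          exact_mod_cast h3
        rw [map_mul, hvt, h2', one_mul] at h8
        exact lt_irrefl _ h8
      rcases sqz h.qg g with hg1 | hg1 | hg1
      · exfalso
        apply hAp
        intro D hD
        by_contra hJ
        rcases Finset.mem_insert.1 hD with rfl | hD
        · exact key t₁ _ n1 (by omega) q1 hJ (by rw [hg1]; rfl)
        · rw [Finset.mem_singleton.1 hD] at hJ
          exact key t₂ _ n2 (by omega) q2 hJ (by rw [hg1]; rfl)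
      · exfalso
        apply hAp
        intro D hD
        by_contra hJ
        rcases Finset.mem_insert.1 hD with rfl | hD
        · exact key t₁ _ n1 (by omega) q1 hJ (by rw [hg1]; exact zt1)
        · rw [Finset.mem_singleton.1 hD] at hJ
          exact key t₂ _ n2 (by omega) q2 hJ (by rw [hg1]; exact zt2)
      · exact hg1
    refine ⟨v.comap (algebraMap L F), ?_, ?_, ?_⟩
    · rw [Valuation.comap_apply]
      simpa using hvp
    · intro c hc'
      rw [Valuation.comap_apply]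
      simpa using hvc c hc'
    · intro r u hr hu
      rw [Valuation.comap_apply] at hu
      exact nonsq h hp2 hpp hvp hvc hg hgg r u hr (by simpa using hu)

end Pool.Agent.Helper30K9.QT
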