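import Pool.Agent.Helper30K9.QT.StmM

/-!
# The multiplicity of a quadratic character in `ℂ ⊗ E(F)` is at most the rank of its part
-/

set_option autoImplicit false

namespace Pool.Agent.Helper30K9.QT

open WeierstrassCurve TensorProduct

/-- the abstract form -/
lemma link_aux {G M : Type} [Group G] [Fintype G] [AddCommGroup M] [Module.Finite ℤ M]
    (T : G → M →+ M) (hT : ∀ σ τ m, T (σ * τ) m = T σ (T τ m)) (χ : G →* ℤˣ) (Q : AddSubgroup M)
    (hQ : ∀ P, P ∈ Q ↔ ∀ σ, T σ P = ((χ σ : ℤˣ) : ℤ) • P)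
    (X : Submodule ℂ (ℂ ⊗[ℤ] M))
    (hX : ∀ x ∈ X, ∀ σ, LinearMap.baseChange ℂ (T σ).toIntLinearMap x =
      ((χ σ : ℤˣ) : ℤ) • x) :
    Module.finrank ℂ X ≤ Module.finrank ℤ Q := by
  classical
  have hχ : ∀ σ, ((χ σ : ℤˣ) : ℤ) * ((χ σ : ℤˣ) : ℤ) = 1 := fun σ => by
    rw [← Units.val_mul, ← sq, Int.units_sq, Units.val_one]
  -- the average
  let A : M →ₗ[ℤ] M := ∑ σ, ((χ σ : ℤˣ) : ℤ) • (T σ).toIntLinearMap
  have hA1 : ∀ m, A m = ∑ σ, ((χ σ : ℤˣ) : ℤ) • T σ m := fun m => by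
    simp only [A, LinearMap.sum_apply, LinearMap.smul_apply, AddMonoidHom.coe_toIntLinearMap]
  have hA : ∀ m, A m ∈ Q := by
    intro m
    rw [hQ]
    intro τ
    rw [hA1, map_sum, Finset.smul_sum]
    refine Fintype.sum_equiv (Equiv.mulLeft τ) _ _ fun σ => ?_
    rw [Equiv.coe_mulLeft, map_zsmul, ← hT, map_mul, Units.val_mul, smul_smul, ← mul_assoc, hχ,
      one_mul]
  let B : M →ₗ[ℤ] Q := A.codRestrict (AddSubgroup.toIntSubmodule Q) hA
  let I : Q →ₗ[ℤ] M := (AddSubgroup.toIntSubmodule Q).subtype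
  have hIB : I ∘ₗ B = A := by
    ext m; rfl
  have : Module.Finite ℤ Q := by
    have : IsNoetherian ℤ M := isNoetherian_of_isNoetherianRing_of_finite ℤ M
    exact Module.Finite.of_injective I Subtype.val_injective
  have hle : X ≤ LinearMap.range (LinearMap.baseChange ℂ I) := by
    intro x hx
    have h1 : LinearMap.baseChange ℂ A x = (Fintype.card G : ℂ) • x := by
      have h2 : LinearMap.baseChange ℂ A =
          ∑ σ, ((χ σ : ℤˣ) : ℤ) • LinearMap.baseChange ℂ (T σ).toIntLinearMap := by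
        simp only [A]
        ext m
        simp [LinearMap.baseChange_tmul, TensorProduct.tmul_sum, LinearMap.sum_apply]
      rw [h2, LinearMap.sum_apply]
      have h3 : ∀ σ ∈ (Finset.univ : Finset G),
          (((χ σ : ℤˣ) : ℤ) • LinearMap.baseChange ℂ (T σ).toIntLinearMap) x = x := by
        intro σ _
        rw [LinearMap.smul_apply, hX x hx σ, smul_smul, hχ, one_smul]
      rw [Finset.sum_congr rfl h3, Finset.sum_const, Finset.card_univ, Nat.cast_smul_eq_nsmul]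
    have hc : (Fintype.card G : ℂ) ≠ 0 := by
      exact_mod_cast Fintype.card_ne_zero
    refine ⟨(Fintype.card G : ℂ)⁻¹ • LinearMap.baseChange ℂ B x, ?_⟩
    rw [map_smul, ← LinearMap.comp_apply, ← LinearMap.baseChange_comp, hIB, h1, smul_smul,
      inv_mul_cancel₀ hc, one_smul]
  have h5 : Module.finrank ℂ (ℂ ⊗[ℤ] Q) = Module.finrank ℤ Q :=
    (TensorProduct.isBaseChange ℤ Q ℂ).finrank_eq
  have : Module.Finite ℂ (ℂ ⊗[ℤ] M) := Module.Finite.base_change ℤ ℂ M
  have : Module.Finite ℂ (ℂ ⊗[ℤ] Q) := Module.Finite.base_change ℤ ℂ Q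
  calc Module.finrank ℂ X ≤ Module.finrank ℂ (LinearMap.range (LinearMap.baseChange ℂ I)) :=
        Submodule.finrank_mono hle
    _ ≤ Module.finrank ℂ (ℂ ⊗[ℤ] Q) := LinearMap.finrank_range_le _
    _ = _ := h5

theorem link : S_LINK := by
  intro F _ _ _ χ W Q hfg hQ
  have : Module.Finite ℤ (W.baseChange F).toAffine.Point := by
    rw [Module.Finite.iff_addGroup_fg]
    exact hfg
  have : Fintype (F ≃ₐ[ℚ] F) := Fintype.ofFinite _
  refine link_aux (G := F ≃ₐ[ℚ] F)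
    (fun σ : F ≃ₐ[ℚ] F => Affine.Point.map (W' := W.toAffine) (σ : F →ₐ[ℚ] F)) ?_ χ Q hQ _ ?_
  · intro σ τ m
    induction m using Affine.Point.rec <;> rfl
  · intro x hx σ
    exact hx σ

end Pool.Agent.Helper30K9.QT
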