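import Pool.Agent.Helper30K9.QT.StmL

/-!
# Q8 project: leaf PG
-/

set_option autoImplicit false

namespace Pool.Agent.Helper30K9.QT

/-- one step: `W ⊆ W'` are subgroups containing `2M`, `x ↦ x + T x` maps `W'` to `W`, and its
kernel modulo `2M` is in `W` -/
lemma pg_step {M : Type} [AddCommGroup M] (W W' : Set M) (N : ℕ)
    (T : M →+ M) (hW0 : ∀ m ∈ W', ∀ m' ∈ W', m - m' ∈ W')
    (hT1 : ∀ m ∈ W', m + T m ∈ W)
    (hT2 : ∀ m ∈ W', (∃ h, m + T m = h + h) → m ∈ W)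
    (R : Finset M) (hRN : R.card ≤ N) (hR : ∀ m ∈ W, ∃ r ∈ R, ∃ h, m = r + (h + h)) :
    ∃ S : Finset M, S.card ≤ N ^ 2 ∧ ∀ m ∈ W', ∃ s ∈ S, ∃ h, m = s + (h + h) := by
  classical
  -- base points
  have hb : ∀ r : M, ∃ b, (∃ m ∈ W', ∃ h, m + T m = r + (h + h)) →
      b ∈ W' ∧ ∃ h, b + T b = r + (h + h) := by
    intro r
    by_cases h : ∃ m ∈ W', ∃ h, m + T m = r + (h + h)
    · obtain ⟨m, hm⟩ := h
      exact ⟨m, fun _ => hm⟩
    · exact ⟨0, fun h' => absurd h' h⟩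
  choose b hb using hb
  refine ⟨(R ×ˢ R).image (fun c => b c.1 + c.2), ?_, ?_⟩
  · refine Finset.card_image_le.trans ?_
    rw [Finset.card_product, sq]
    exact Nat.mul_le_mul hRN hRN
  · intro m hm
    obtain ⟨r, hr, h, hh⟩ := hR _ (hT1 m hm)
    obtain ⟨k1, h', hh'⟩ := hb r ⟨m, hm, h, hh⟩
    have k2 : m - b r ∈ W := by
      apply hT2 _ (hW0 _ hm _ k1)
      refine ⟨h - h', ?_⟩
      rw [map_sub]
      have e : m - b r + (T m - T (b r)) = (m + T m) - (b r + T (b r)) := by abel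
      rw [e, hh, hh']
      abel
    obtain ⟨r', hr', h'', hh''⟩ := hR _ k2
    refine ⟨b r + r', Finset.mem_image.2 ⟨(r, r'), Finset.mem_product.2 ⟨hr, hr'⟩, rfl⟩, h'', ?_⟩
    have e : m = b r + (m - b r) := by abel
    rw [e, hh'']
    abel

theorem pg : S_PG := by
  intro M _ I J hI hJ hIJ R hR
  classical
  obtain ⟨W1, hW1⟩ : ∃ W1 : Set M, W1 = {m | ∃ h, I m = m + (h + h)} := ⟨_, rfl⟩
  obtain ⟨W2, hW2⟩ : ∃ W2 : Set M, W2 = {m | (∃ h, I m = m + (h + h)) ∧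
    (∃ h, J m = m + (h + h))} := ⟨_, rfl⟩
  have hmem1 : ∀ m, m ∈ W1 ↔ ∃ h, I m = m + (h + h) := fun m => by rw [hW1]; rfl
  have hmem2 : ∀ m, m ∈ W2 ↔ (∃ h, I m = m + (h + h)) ∧ (∃ h, J m = m + (h + h)) :=
    fun m => by rw [hW2]; rfl
  -- the step from `W2` to `W1`
  obtain ⟨S1, hS1, hS1'⟩ := pg_step W2 W1 R.card J (by
      intro m hm m' hm'
      rw [hmem1] at hm hm' ⊢
      obtain ⟨h, hh⟩ := hm
      obtain ⟨h', hh'⟩ := hm'
      refine ⟨h - h', ?_⟩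
      rw [map_sub, hh, hh']
      abel) (by
      intro m hm
      rw [hmem1] at hm
      obtain ⟨h, hh⟩ := hm
      obtain ⟨h', hh'⟩ := hIJ m
      obtain ⟨k, hk⟩ := hJ m
      rw [hmem2]
      refine ⟨⟨h + J h + h', ?_⟩, ⟨k, ?_⟩⟩
      · rw [map_add, hh', hh, map_add, map_add]
        abel
      · rw [map_add, hk]
        abel) (by
      intro m hm hk
      rw [hmem2]
      refine ⟨(hmem1 m).1 hm, ?_⟩
      obtain ⟨h, hh⟩ := hk
      refine ⟨h - m, ?_⟩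
      have e : J m = (m + J m) - m := by abel
      rw [e, hh]
      abel) R le_rfl (by
      intro m hm
      rw [hmem2] at hm
      exact hR m hm.1 hm.2)
  -- the step from `W1` to `M`
  obtain ⟨S, hS, hS'⟩ := pg_step W1 Set.univ (R.card ^ 2) I (fun _ _ _ _ => Set.mem_univ _) (by
      intro m _
      rw [hmem1]
      obtain ⟨k, hk⟩ := hI m
      refine ⟨k, ?_⟩
      rw [map_add, hk]
      abel) (by
      intro m _ hk
      rw [hmem1]
      obtain ⟨h, hh⟩ := hk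
      refine ⟨h - m, ?_⟩
      have e : I m = (m + I m) - m := by abel
      rw [e, hh]
      abel) S1 hS1 hS1'
  refine ⟨S, hS.trans (le_of_eq (by ring)), fun m => hS' m (Set.mem_univ _)⟩

end Pool.Agent.Helper30K9.QT
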