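import Pool.Agent.Helper30K9.QT.StmH

/-!
# Q8 project: leaves SELFB, CDFIN (adapted from `Pool.Agent.Y669.SelF`)
-/

set_option autoImplicit false

namespace Pool.Agent.Helper30K9.QT

open Finset Pool.Agent.W262.RK Pool.Agent.W307.RT Pool.Agent.W571.RT Pool.Agent.W307.SE
  Pool.Agent.W307.FK Pool.Agent.Y669
open Pool.Agent.W293.FK.Self (xcLF phiLR loc)

theorem selfb : S_SELFB := by
  intro Sx A _ z1 hLD
  classical
  have hsk : ∀ p : ℕ, ∃ ε : ℤ, p.Prime → z1 < p → A p → ∀ [Fact p.Prime],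
      ¬ (p : ℤ) ∣ ε ∧ ∀ (a b : ℤ) (P : Bool → Bool → Bool → Bool → Prop), XC P →
    (∀ x y : ℚ_[p], y ≠ 0 → y ^ 2 = x * (x - (ε * a : ℤ)) * (x - (ε * b : ℤ)) →
      ∀ e1 e2 : ℤ, Squarefree e1 → Squarefree e2 → IsSquare (x * e1) →
      IsSquare ((x - (ε * a : ℤ)) * e2) → P (dv p e1) (dv p e2) (sgn p e1) (sgn p e2)) →
    ∀ d ∈ Sx a b, P (dv p d.1) (dv p d.2) (sgn p d.1) (sgn p d.2) := by
    intro p
    by_cases h : p.Prime ∧ z1 < p ∧ A p
    · have : Fact p.Prime := ⟨h.1⟩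
      obtain ⟨ε, h1, h2⟩ := hLD.act p h.2.1 h.2.2
      exact ⟨ε, fun _ _ _ _ => ⟨h1, h2⟩⟩
    · exact ⟨0, fun a b c => absurd ⟨a, b, c⟩ h⟩
  choose eps heps using hsk
  refine ⟨fun p => jacobiSym (eps p) p = -1, ?_⟩
  intro f D z y X k B hz1 hz hD hG hF hb hX hy hk
  have hgoodp : GOODP := Pool.Agent.W405.SE.goodp_of Pool.Agent.W407.SE.ratp
  have hlocmp : LOCMP := locmp_of Pool.Agent.W407.SE.ratp
  have hf0 := hG.1
  have hmem : S1 z y f ∈ Tup (Fin 3) z y := S1_mem hG.2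
  obtain ⟨m, hm⟩ : ∃ m, m = ∏ j, S1 z y f j := ⟨_, rfl⟩
  obtain ⟨ma, hma⟩ : ∃ ma, ma = ∏ j, act A (S1 z y f j) := ⟨_, rfl⟩
  rw [← hm, ← hma]
  have hmd : m ∣ PP z y := by rw [hm]; exact Tup_prod_dvd hmem
  have hmsq : Squarefree m := (PP_squarefree z y).squarefree_of_dvd hmd
  have hm0 : m ≠ 0 := hmsq.ne_zero
  have hmam : ma ∣ m := by
    rw [hm, hma]
    exact prod_dvd_prod_of_dvd _ _ fun j _ => act_dvd _
  have hmasq : Squarefree ma := hmsq.squarefree_of_dvd hmam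
  have hma0 : ma ≠ 0 := hmasq.ne_zero
  have hS10 : ∀ j, S1 z y f j ≠ 0 := fun j => by
    have : (∏ j, S1 z y f j) ≠ 0 := by rw [← hm]; exact hm0
    exact prod_ne_zero_iff.1 this j (mem_univ _)
  have hactA : ∀ p : ℕ, p.Prime → p ∣ ma → A p := by
    intro p hp h
    rw [hma, Prime.dvd_finsetProd_iff hp.prime] at h
    obtain ⟨j, -, hj⟩ := h
    exact ((prime_dvd_act (hS10 j) hp).1 hj).2
  have hPSof : ∀ p : ℕ, p.Prime → p ∣ m → p ∈ PS z y := fun p hp h =>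
    (prime_dvd_PP hp).1 (h.trans hmd)
  have hodd2 : ∀ p : ℕ, p.Prime → p ∣ m → p ≠ 2 := by
    intro p hp h
    have h1 := (mem_PS.1 (hPSof p hp h)).1.1
    omega
  have hmodd : Odd ma := by
    rw [← Nat.not_even_iff_odd, even_iff_two_dvd]
    intro h
    exact hodd2 2 Nat.prime_two (h.trans hmam) rfl
  obtain ⟨m', hm'⟩ : ∃ m', m' = ∏ p ∈ ma.primeFactors.filter (fun p => ¬ p ∣ D.natAbs), p :=
    ⟨_, rfl⟩
  obtain ⟨e, he⟩ : ∃ e, e = ∏ p ∈ ma.primeFactors.filter (fun p => p ∣ D.natAbs), p := ⟨_, rfl⟩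
  have hme : m' * e = ma := by
    rw [hm', he, mul_comm, prod_filter_mul_prod_filter_not]
    exact Nat.prod_primeFactors_of_squarefree hmasq
  have hpm' : ∀ p : ℕ, p.Prime → (p ∣ m' ↔ p ∣ ma ∧ ¬ p ∣ D.natAbs) := by
    intro p hp
    rw [hm', Prime.dvd_finsetProd_iff hp.prime]
    constructor
    · rintro ⟨q, hq, hpq⟩
      rw [mem_filter, Nat.mem_primeFactors] at hq
      rw [(Nat.prime_dvd_prime_iff_eq hp hq.1.1).1 hpq]
      exact ⟨hq.1.2.1, hq.2⟩
    · rintro ⟨h1, h2⟩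
      exact ⟨p, mem_filter.2 ⟨Nat.mem_primeFactors.2 ⟨hp, h1, hma0⟩, h2⟩, dvd_rfl⟩
  have hpe : ∀ p : ℕ, p.Prime → (p ∣ e ↔ p ∣ ma ∧ p ∣ D.natAbs) := by
    intro p hp
    rw [he, Prime.dvd_finsetProd_iff hp.prime]
    constructor
    · rintro ⟨q, hq, hpq⟩
      rw [mem_filter, Nat.mem_primeFactors] at hq
      rw [(Nat.prime_dvd_prime_iff_eq hp hq.1.1).1 hpq]
      exact ⟨hq.1.2.1, hq.2⟩
    · rintro ⟨h1, h2⟩
      exact ⟨p, mem_filter.2 ⟨Nat.mem_primeFactors.2 ⟨hp, h1, hma0⟩, h2⟩, dvd_rfl⟩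
  have hm'm : m' ∣ ma := Dvd.intro _ hme
  have hem : e ∣ ma := Dvd.intro_left _ hme
  obtain ⟨Q, hQ⟩ : ∃ Q, Q = Mod (fun p => jacobiSym (eps p) p = -1) ma.primeFactors
    (sgF (D * f 0) (D * f 1) m) := ⟨_, rfl⟩
  rw [← hQ]
  obtain ⟨Lc, hLc⟩ : ∃ Lc, Lc = LF (fun j => act A (S1 z y f j)) Q := ⟨_, rfl⟩
  rw [← hLc]
  have hA : D * f 0 ≠ 0 := mul_ne_zero hD (hf0 0)
  have hB' : D * f 1 ≠ 0 := mul_ne_zero hD (hf0 1)
  have hAB' : D * f 0 - D * f 1 = D * f 2 := by rw [← hF]; ring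
  have hne : D * f 0 ≠ D * f 1 := by
    intro h
    exact mul_ne_zero hD (hf0 2) (by rw [← hAB', h, sub_self])
  have hxc : ∀ p, XC (Lc p) := fun p => by rw [hLc]; exact xcLF _ _ p
  obtain ⟨OP, hOP⟩ : ∃ OP : Finset ℕ, OP = Icc 1 z ∪
    (2 * (D * f 0) * (D * f 1) * (D * f 2)).natAbs.primeFactors.filter
        (fun q => ¬ q ∣ m' ∧ A q) := ⟨_, rfl⟩
  have hD20 : 2 * (D * f 0) * (D * f 1) * (D * f 2) ≠ 0 :=
    mul_ne_zero (mul_ne_zero (mul_ne_zero two_ne_zero hA) hB') (mul_ne_zero hD (hf0 2))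
  have hlc : ∀ d ∈ Sx (D * f 0) (D * f 1), ∀ p : ℕ, p.Prime → p ∣ m' →
      Lc p (dv p d.1) (dv p d.2) (sgn p d.1) (sgn p d.2) := by
    intro d hd p hp hpm
    obtain ⟨hpma, hpDn⟩ := (hpm' p hp).1 hpm
    have hpmm : p ∣ m := hpma.trans hmam
    have hpD : ¬ (p : ℤ) ∣ D := fun h => hpDn (Int.natCast_dvd.1 h)
    have hzp := (mem_PS.1 (hPSof p hp hpmm)).1.1
    have : Fact p.Prime := ⟨hp⟩
    obtain ⟨hε, hι⟩ := heps p hp (by omega) (hactA p hp hpma)
    have hε0 : eps p ≠ 0 := by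
      intro h
      rw [h] at hε
      exact hε (dvd_zero _)
    refine hι _ _ _ (hxc p) ?_ d hd
    intro x' y' hy' hcurve e1 e2 he1 he2 hs1 hs2
    rw [hLc]
    intro j hj
    have hj' : p ∣ S1 z y f j := ((prime_dvd_act (hS10 j) hp).1 hj).1
    have hpεD : ¬ (p : ℤ) ∣ eps p * D := by
      intro h
      rcases (Nat.prime_iff_prime_int.1 hp).dvd_or_dvd h with h | h
      · exact hε h
      · exact hpD h
    have hεD0 : eps p * D ≠ 0 := mul_ne_zero hε0 hD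
    obtain ⟨κ, k1, k2, k3⟩ := loc hz hεD0 hG hF hp hpεD hj' m hm0 hpmm
    have k4 := k3 _ _ _ _ (hlocmp j.castSucc κ p (eps p * D * f 0) (eps p * D * f 1)
        (by fin_cases j <;> decide) (hodd2 p hp hpmm) k1 (mul_ne_zero hεD0 (hf0 0))
        (mul_ne_zero hεD0 (hf0 1)) (by
          intro h
          apply hne
          have h2 : eps p * (D * f 0) = eps p * (D * f 1) := by
            rw [← mul_assoc, ← mul_assoc]
            exact h
          exact mul_left_cancel₀ hε0 h2) k2 x' y' hy' (by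
            rw [mul_assoc (eps p) D (f 0), mul_assoc (eps p) D (f 1)]
            exact hcurve) e1 e2
        he1 he2 hs1 (by
          rw [mul_assoc (eps p) D (f 0)]
          exact hs2))
    obtain ⟨c1, c2⟩ := sgF_iff hG hF hp hpD hj' m hm0 hpmm
    obtain ⟨c3, c4⟩ := sgF_iff hG hF hp hpεD hj' m hm0 hpmm
    rw [cc_mul, jacobiSym.mul_left] at c4
    have hiff : p ∈ sgF (eps p * D * f 0) (eps p * D * f 1) m ↔ p ∈ Q := by
      rw [hQ, mem_Mod, c2, c4, and_iff_right (Nat.mem_primeFactors.2 ⟨hp, hpma, hma0⟩)]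
      rcases Pool.Agent.W214.RK2.jac_pm p hp _ hε with h1 | h1 <;>
        rcases Pool.Agent.W214.RK2.jac_pm p hp _ c1 with h2 | h2 <;> rw [h1, h2] <;> norm_num
    rw [decide_eq_decide.2 hiff] at k4
    exact k4
  have hgd : ∀ d ∈ Sx (D * f 0) (D * f 1), ∀ q : ℕ, q.Prime → q ∉ OP → ¬ q ∣ m' →
      ¬ (q : ℤ) ∣ d.1 ∧ ¬ (q : ℤ) ∣ d.2 := by
    intro d hd q hq hqO hqm
    rw [hOP, mem_union, not_or, mem_Icc, mem_filter] at hqO
    have hzq : z < q := by
      have := hq.one_lt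
      by_contra hcon
      exact hqO.1 ⟨by omega, by omega⟩
    have : Fact q.Prime := ⟨hq⟩
    by_cases hAq : A q
    · have hnd : ¬ (q : ℤ) ∣ 2 * (D * f 0) * (D * f 1) * (D * f 2) := by
        intro h
        apply hqO.2
        exact ⟨Nat.mem_primeFactors.2 ⟨hq, Int.natCast_dvd.1 h, Int.natAbs_ne_zero.2 hD20⟩,
          hqm, hAq⟩
      obtain ⟨hε, hι⟩ := heps q hq (by omega) hAq
      have h1 := hι (D * f 0) (D * f 1) (fun v w _ _ => v = false ∧ w = false)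
        ⟨⟨rfl, rfl⟩, by
          rintro a b c d a' b' c' d' ⟨rfl, rfl⟩ ⟨rfl, rfl⟩
          exact ⟨rfl, rfl⟩⟩ (by
          intro x' y' hy' hcurve e1 e2 he1 he2 hs1 hs2
          have h2 := hgoodp q (eps q * (D * f 0)) (eps q * (D * f 1)) e1 e2 (by
            intro h
            have e3 : 2 * (eps q * (D * f 0)) * (eps q * (D * f 1)) *
                (eps q * (D * f 0) - eps q * (D * f 1)) =
                eps q ^ 3 * (2 * (D * f 0) * (D * f 1) * (D * f 2)) := by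
              rw [← hAB']
              ring
            rw [e3] at h
            rcases (Nat.prime_iff_prime_int.1 hq).dvd_or_dvd h with h | h
            · exact hε ((Nat.prime_iff_prime_int.1 hq).dvd_of_dvd_pow h)
            · exact hnd h) he1 he2 ⟨x', y', hy', hcurve, hs1, hs2⟩
          unfold dv
          simp [h2.1, h2.2]) d hd
      unfold dv at h1
      simpa using h1
    · exact hLD.ina q hq (by omega) hAq _ _ d hd
  have hd := cnt (Sx (D * f 0) (D * f 1)) OP m' Lc (hmasq.squarefree_of_dvd hm'm)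
    (fun p _ _ => hxc p) (fun d hd => hLD.sqf _ _ d hd) hgd hlc
  have hsubl := Pool.Agent.W940.FK.subl m' e Lc (by rw [hme]; exact hmodd)
    (by rw [hme]; exact hmasq)
    (fun p _ _ => hxc p) (fun p hp hpd => by
      obtain ⟨h1, -⟩ := (hpe p hp).1 hpd
      rw [hma, Prime.dvd_finsetProd_iff hp.prime] at h1
      obtain ⟨j, -, hj⟩ := h1
      refine ⟨j, fun h' g' hphi => ?_⟩
      rw [hLc]
      intro j' hj'
      have hjj : j' = j := by
        by_contra hcon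
        have a1 := (S1_dvd_iff hp).1 ((prime_dvd_act (hS10 j) hp).1 hj).1
        have a2 := (S1_dvd_iff hp).1 ((prime_dvd_act (hS10 j') hp).1 hj').1
        exact hG.2 p hp (mem_PS.1 a1.1).1.1 j' j hcon ⟨a2.2.1, a1.2.1⟩
      rw [hjj]
      exact phiLR _ _ _ _ hphi)
  rw [hme] at hsubl
  have hec : e.primeFactors.card ≤ D.natAbs.primeFactors.card := by
    apply card_le_card
    intro p hp
    rw [Nat.mem_primeFactors] at hp ⊢
    exact ⟨hp.1, ((hpe p hp.1).1 hp.2.1).2, Int.natAbs_ne_zero.2 hD⟩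
  have hbad := badA (A := A) (m' := m') hz hD hf0 hb hk hy (fun q hq hAq h1 h2 => by
    refine (hpm' q hq).2 ⟨?_, h2⟩
    rw [hma, Prime.dvd_finsetProd_iff hq.prime]
    rw [Prime.dvd_finsetProd_iff hq.prime] at h1
    obtain ⟨j, hj1, hj2⟩ := h1
    exact ⟨j, hj1, (prime_dvd_act (hS10 j) hq).2 ⟨hj2, hAq⟩⟩)
  rw [← hOP] at hbad
  have h8 : 8 ^ D.natAbs.primeFactors.card
      = 4 ^ D.natAbs.primeFactors.card * 2 ^ D.natAbs.primeFactors.card := by
    rw [← mul_pow]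
    norm_num
  have hNL1 : 1 ≤ NL ma Lc := NL_pos hma0 Lc hxc
  refine max_le ?_ (hd.2.trans ?_)
  · exact Nat.mul_pos (by positivity) hNL1
  calc _ ≤ 4 ^ ((z + 2) + (Fintype.card (Fin 3) * (B * k))
        + ∑ j, (S2 z y f j).primeFactors.card + D.natAbs.primeFactors.card)
        * (2 ^ D.natAbs.primeFactors.card * NL ma Lc) := by
        refine Nat.mul_le_mul (Nat.pow_le_pow_right (by norm_num) (by omega)) ?_
        exact hsubl.trans (Nat.mul_le_mul_right _ (Nat.pow_le_pow_right (by norm_num) hec))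
    _ = _ := by
        rw [h8, pow_add, pow_add, pow_add]
        have e2 : ((4 ^ B) ^ Fintype.card (Fin 3)) ^ k = 4 ^ (Fintype.card (Fin 3) * (B * k)) := by
          rw [← pow_mul, ← pow_mul]
          congr 1
          ring
        rw [e2]
        ring


lemma good_of {Sx : ℤ → ℤ → Set (ℤ × ℤ)} {A : ℕ → Prop}
    {z1 : ℕ} (hLD : CD Sx A z1) {a b : ℤ} {d : ℤ × ℤ} (hd : d ∈ Sx a b)
    {q : ℕ} (hq : q.Prime) (hzq : z1 < q)
    (hnd : ¬ (q : ℤ) ∣ 2 * a * b * (a - b)) : ¬ (q : ℤ) ∣ d.1 ∧ ¬ (q : ℤ) ∣ d.2 := by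
  have hgoodp : GOODP := Pool.Agent.W405.SE.goodp_of Pool.Agent.W407.SE.ratp
  have : Fact q.Prime := ⟨hq⟩
  by_cases hAq : A q
  · obtain ⟨ε, hε, hι⟩ := hLD.act q hzq hAq
    have h1 := hι a b (fun v w _ _ => v = false ∧ w = false)
      ⟨⟨rfl, rfl⟩, by
        rintro a b c d a' b' c' d' ⟨rfl, rfl⟩ ⟨rfl, rfl⟩
        exact ⟨rfl, rfl⟩⟩ (by
        intro x' y' hy' hcurve e1 e2 he1 he2 hs1 hs2
        have h2 := hgoodp q (ε * a) (ε * b) e1 e2 (by
          intro h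
          have e3 : 2 * (ε * a) * (ε * b) * (ε * a - ε * b) =
              ε ^ 3 * (2 * a * b * (a - b)) := by ring
          rw [e3] at h
          rcases (Nat.prime_iff_prime_int.1 hq).dvd_or_dvd h with h | h
          · exact hε ((Nat.prime_iff_prime_int.1 hq).dvd_of_dvd_pow h)
          · exact hnd h) he1 he2 ⟨x', y', hy', hcurve, hs1, hs2⟩
        unfold dv
        simp [h2.1, h2.2]) d hd
    unfold dv at h1
    simpa using h1
  · exact hLD.ina q hq hzq hAq _ _ d hd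

/-- there are finitely many classes -/
theorem cdfin : S_CDFIN := by
  intro Sx A z1 hLD a b ha hb hab
  classical
  have h0 : 2 * a * b * (a - b) ≠ 0 :=
    mul_ne_zero (mul_ne_zero (mul_ne_zero two_ne_zero ha) hb) (sub_ne_zero.2 hab)
  refine (cnt (Sx a b) (Finset.Icc 1 (z1 + 2) ∪ (2 * a * b * (a - b)).natAbs.primeFactors) 1
    (fun _ _ _ _ _ => True) squarefree_one (fun p _ _ => ⟨trivial, fun _ _ _ _ _ _ _ _ _ _ => trivial⟩)
    (fun d hd => hLD.sqf _ _ d hd) (fun d hd q hq hqO _ => ?_) (fun _ _ _ _ _ => trivial)).1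
  rw [Finset.mem_union, not_or, Finset.mem_Icc, Nat.mem_primeFactors] at hqO
  have hq1 := hq.one_lt
  refine good_of hLD hd hq ?_ ?_
  · by_contra hcon
    exact hqO.1 ⟨by omega, by omega⟩
  · intro h
    exact hqO.2 ⟨hq, Int.natCast_dvd.1 h, Int.natAbs_ne_zero.2 h0⟩

end Pool.Agent.Helper30K9.QT
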