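import Mathlib
import Pool.Agent.W262.RK.Defs2
import Pool.Agent.Helper30K9.QT.StmM

/-!
# Q8 project: statements of the leaves about classes and primes (light imports)
-/

set_option autoImplicit false

namespace Pool.Agent.Helper30K9.QT

open Pool.Agent.W262.RK Finset

/-- the properties of the sets of classes that are used in the analytic part -/
structure CD (Sx : ℤ → ℤ → Set (ℤ × ℤ)) (A : ℕ → Prop) (z1 : ℕ) : Prop where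
  sqf : ∀ (a b : ℤ) (d : ℤ × ℤ), d ∈ Sx a b → Squarefree d.1 ∧ Squarefree d.2
  act : ∀ (p : ℕ) [Fact p.Prime], z1 < p → A p → ∃ ε : ℤ, ¬ (p : ℤ) ∣ ε ∧
    ∀ (a b : ℤ) (P : Bool → Bool → Bool → Bool → Prop), XC P →
    (∀ x y : ℚ_[p], y ≠ 0 → y ^ 2 = x * (x - (ε * a : ℤ)) * (x - (ε * b : ℤ)) →
      ∀ e1 e2 : ℤ, Squarefree e1 → Squarefree e2 → IsSquare (x * e1) →
      IsSquare ((x - (ε * a : ℤ)) * e2) → P (dv p e1) (dv p e2) (sgn p e1) (sgn p e2)) →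
    ∀ d ∈ Sx a b, P (dv p d.1) (dv p d.2) (sgn p d.1) (sgn p d.2)
  ina : ∀ (p : ℕ), p.Prime → z1 < p → ¬ A p → ∀ (a b : ℤ) (d : ℤ × ℤ), d ∈ Sx a b →
    ¬ (p : ℤ) ∣ d.1 ∧ ¬ (p : ℤ) ∣ d.2

/-- [CDY] (theorem cdy (hloc : S_LOC) : S_CDY) -/
def S_CDY : Prop := ∀ (L : Type) [Field L] [NumberField L] (δ : L) (A : ℕ → Prop) (z1 : ℕ),
  LD2 L δ A z1 → CD (SY L δ) A (max z1 2)

open Classical in
/-- [UB] adapt `Pool.Agent.Y669.UBA.uba` (there: the powers of one character) -/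
def S_UB : Prop := ∀ (N : ℕ) [NeZero N] (Ψ : Subgroup (DirichletCharacter ℂ N)) (κ : ℤ) (z : ℕ),
  κ ≠ 0 → N ≤ z → 2 ≤ z → κ.natAbs ≤ z → ∃ C : ℝ,
    ∀ (y r : ℕ) (e : Bool), z < y → 1 < r → Squarefree r → (∀ p : ℕ, p.Prime → p ∣ r → z < p) →
      ∑ p ∈ (PS z y).filter (fun p : ℕ => ∀ ψ ∈ Ψ, ψ (p : ZMod N) = 1),
        Jr p r * Jr κ p * x4 e p / (p : ℝ) ≤ Real.log (Real.log r) + C

open Classical in
/-- [MER] adapt `card_ker`, `cnt_ker`, `mer_psi`, `mer_PS`, `mer_PS'` of `Pool.Agent.Y669.Mer` -/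
def S_MER : Prop := ∀ (N : ℕ) [NeZero N] (Ψ : Subgroup (DirichletCharacter ℂ N)),
  (∃ C : ℝ, 0 ≤ C ∧ ∀ z y : ℕ, 2 ≤ y →
    ∑ p ∈ (PS z y).filter (fun p : ℕ => ∀ ψ ∈ Ψ, ψ (p : ZMod N) = 1), (1 : ℝ) / p ≤
      1 / (Nat.card Ψ : ℝ) * Real.log (Real.log y) + C) ∧
  (∃ C : ℝ, 0 ≤ C ∧ ∀ z y : ℕ, 2 ≤ y →
    ∑ p ∈ (PS z y).filter (fun p : ℕ => ¬ ∀ ψ ∈ Ψ, ψ (p : ZMod N) = 1), (1 : ℝ) / p ≤
      (1 - 1 / (Nat.card Ψ : ℝ)) * Real.log (Real.log y) + C)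

end Pool.Agent.Helper30K9.QT
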