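import Pool.Agent.Y669.SelF
import Pool.Agent.Helper30K9.QT.StmN

/-!
# Q8 project: statements of the leaves with heavy imports
-/

set_option autoImplicit false

namespace Pool.Agent.Helper30K9.QT

open Pool.Agent.W262.RK Finset Pool.Agent.Y669

/-- [SELFB] adapt `Pool.Agent.Y669.selfa` -/
def S_SELFB : Prop := ∀ (Sx : ℤ → ℤ → Set (ℤ × ℤ)) (A : ℕ → Prop) [DecidablePred A] (z1 : ℕ),
  CD Sx A z1 → ∃ Ng : ℕ → Prop, SELFA A Ng z1 (fun a b => max 1 (Sx a b).ncard)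

/-- [CDFIN] adapt `Pool.Agent.Y669.sx_fin` -/
def S_CDFIN : Prop := ∀ (Sx : ℤ → ℤ → Set (ℤ × ℤ)) (A : ℕ → Prop) (z1 : ℕ),
  CD Sx A z1 → ∀ a b : ℤ, a ≠ 0 → b ≠ 0 → a ≠ b → (Sx a b).Finite

end Pool.Agent.Helper30K9.QT
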