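import Pool.Agent.Y669.MainC
import Pool.Agent.W307.AT.Main
import Pool.Agent.Helper30K9.QT.StmH
import Pool.Agent.Helper30K9.QT.Selfb
import Pool.Agent.Helper30K9.QT.Emb
import Pool.Agent.Helper30K9.QT.Invq
import Pool.Agent.Helper30K9.QT.Pg
import Pool.Agent.Helper30K9.QT.Cdy

/-!
# Q8 project: assembly
-/

set_option autoImplicit false

namespace Pool.Agent.Helper30K9.QT

open Finset Pool.Agent.W262.RK Pool.Agent.Y669 TensorProduct WeierstrassCurve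
open Pool.Agent.W307.RT (Cv Sh)
open Pool.Agent.H918R3 (crv)

open Classical in
theorem pset (hu : S_UB) (hm : S_MER) (N : ℕ) [NeZero N]
    (Ψ : Subgroup (DirichletCharacter ℂ N)) :
    PSet (fun p : ℕ => ∀ ψ ∈ Ψ, ψ (p : ZMod N) = 1) (1 / (Nat.card Ψ : ℝ)) N where
  d0 := by
    have : (0 : ℝ) < Nat.card Ψ := by exact_mod_cast Nat.card_pos
    positivity
  d1 := by
    have : (0 : ℝ) < Nat.card Ψ := by exact_mod_cast Nat.card_pos
    rw [div_le_one this]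
    exact_mod_cast Nat.card_pos
  ub := fun κ z hκ hNz hz hκz => hu N Ψ κ z hκ hNz hz hκz
  mer := (hm N Ψ).1
  mer' := (hm N Ψ).2

lemma KL_pos (L : Type) [Field L] [NumberField L] : 1 ≤ KL L := by
  unfold KL
  have : 0 < Nat.card ((L ≃ₐ[ℚ] L) → (L ≃ₐ[ℚ] L) → Bool) := Nat.card_pos
  have h2 : 0 < 8 * Nat.card ((L ≃ₐ[ℚ] L) → (L ≃ₐ[ℚ] L) → Bool) ^ 2 := by positivity
  omega

/-- the Mordell-Weil theorem -/
lemma fg_crv (F : Type) [Field F] [NumberField F] [DecidableEq F] (e1 e2 e3 : ℤ) (h12 : e1 ≠ e2)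
    (h13 : e1 ≠ e3) (h23 : e2 ≠ e3) :
    AddGroup.FG ((crv (e1 : ℚ) e2 e3).baseChange F).toAffine.Point := by
  have c12 : (e1 : F) ≠ e2 := by exact_mod_cast h12
  have c13 : (e1 : F) ≠ e3 := by exact_mod_cast h13
  have c23 : (e2 : F) ≠ e3 := by exact_mod_cast h23
  have h1 := Pool.Agent.H437R2.Man.MW.pt_fg (K := F) (e1 := -(e1 : F))
    (e2 := -(e2 : F)) (e3 := -(e3 : F)) (fun h => c12 (neg_injective h))
    (fun h => c13 (neg_injective h)) (fun h => c23 (neg_injective h))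
  have h2 : Pool.Agent.H437R2.Man.MW.crv (-(e1 : F)) (-(e2 : F)) (-(e3 : F)) =
      (crv (e1 : ℚ) e2 e3).baseChange F := by
    rw [crv_bc]
    simp only [eq_intCast, map_intCast]
    unfold Pool.Agent.H437R2.Man.MW.crv crv
    congr 1
    · ring
    · ring
    · ring
  unfold Pool.Agent.H437R2.Man.MW.Pt at h1
  rw [h2] at h1
  exact h1

/-- the average of `2 ^ (dim / 2)` -/
theorem keyQ (hfrob : S_FROB → S_CHI → S_LDF) (hf : S_FROB) (hloc : S_LOC) (hjch : S_JCH)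
    (hcoc : S_COC) (hu : S_UB) (hm : S_MER)
    {F : Type} [Field F] [NumberField F] [DecidableEq F] {z I J : F ≃ₐ[ℚ] F}
    {L : IntermediateField ℚ F} {s : F} {δ : L} (h : FD z I J L s δ) :
    ∃ C : ℝ, ∀ H : ℕ, (∀ c ∈ Cv 2 H, Module.Finite ℂ
        (ℂ ⊗[ℤ] ((Sh c.1 c.2).baseChange F).toAffine.Point) ∧
        AddGroup.FG ((Sh c.1 c.2).baseChange F).toAffine.Point) ∧
      ∑ c ∈ Cv 2 H, (2 : ℝ) ^ ((Module.finrank ℂ (Xm (RX F (Sh c.1 c.2)) z) : ℝ) / 2) ≤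
        C * (Cv 2 H).card := by
  classical
  have hchi : S_CHI := Pool.Agent.W683.AT.chi
  obtain ⟨S, hS0, z0, hld⟩ := hfrob hf hchi F z I J L s δ h
  obtain ⟨N, hN, Ψ, hΨ⟩ := hjch S hS0
  obtain ⟨A, hA⟩ : ∃ A : ℕ → Prop, A = fun p : ℕ => ∀ ψ ∈ Ψ, ψ (p : ZMod N) = 1 := ⟨_, rfl⟩
  have hLD : LD2 L δ A (max z0 N) := hld A (max z0 N) (le_max_left _ _) (fun p hp hz => by
    rw [hA]
    exact hΨ p hp (lt_of_le_of_lt (le_max_right _ _) hz))
  have hCD := cdy hloc L δ A _ hLD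
  have hPS : PSet A (1 / (Nat.card Ψ : ℝ)) N := by
    have h0 := pset hu hm N Ψ
    subst hA
    have h1 : ∀ (i1 i2 : DecidablePred (fun p : ℕ => ∀ ψ ∈ Ψ, ψ (p : ZMod N) = 1)), i1 = i2 →
        @PSet _ i1 (1 / (Nat.card Ψ : ℝ)) N → @PSet _ i2 (1 / (Nat.card Ψ : ℝ)) N := by
      rintro i1 i2 rfl h
      exact h
    exact h1 _ _ (Subsingleton.elim _ _) h0
  obtain ⟨Ng, hS⟩ := selfb (SY L δ) A _ hCD
  have hAv := Pool.Agent.W307.FK.G.avgng_of (avgfg_of hPS hS Pool.Agent.W307.FK.cntf)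
  have hK1 := KL_pos L
  have hK0 : (0 : ℝ) < KL L := by exact_mod_cast hK1
  have hemb := emb (invq hcoc) pg F z I J L s δ h
  have hroots : ∀ H, ∀ c ∈ Cv 2 H, ∃ e1 e2 e3 : ℤ,
      (∀ x : ℤ, x ^ 3 + c.1 * x + c.2 = (x - e1) * (x - e2) * (x - e3)) ∧
      e2 - e1 ≠ 0 ∧ e3 - e1 ≠ 0 ∧ e2 - e1 ≠ e3 - e1 := by
    intro H c hc
    unfold Cv at hc
    obtain ⟨_, a1, a2, _, _, a3⟩ := mem_filter.1 hc
    obtain ⟨F', -, hF'⟩ := Pool.Agent.W513.FK.parf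
    obtain ⟨b1, b2, b3, b4, b5, e1, e2, e3, hr, c1, c2⟩ := hF' c a1 a3
    have hg : ((F' c).1 : ℤ) ≠ 0 := by exact_mod_cast (by omega : (F' c).1 ≠ 0)
    refine ⟨e1, e2, e3, hr, ?_, ?_, ?_⟩
    · rw [c1]; exact mul_ne_zero hg b3
    · rw [c2]; exact mul_ne_zero hg b4
    · rw [c1, c2]
      intro h
      exact b5 (mul_left_cancel₀ hg h)
  obtain ⟨C, hC⟩ := height_of hAv
    (fun c => (2 : ℝ) ^ ((Module.finrank ℂ (Xm (RX F (Sh c.1 c.2)) z) : ℝ) / 4) / KL L)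
    (fun c => by positivity) (fun H c hc e1 e2 e3 he h12 h13 h23 => by
      have g12 : e1 ≠ e2 := fun h => h12 (by rw [h, sub_self])
      have g13 : e1 ≠ e3 := fun h => h13 (by rw [h, sub_self])
      have g23 : e2 ≠ e3 := fun h => h23 (by rw [h])
      obtain ⟨-, hd⟩ := hemb e1 e2 e3 g12 g13 g23 (cdfin (SY L δ) A _ hCD _ _ h12 h13 h23)
      rw [sh_crv he]
      rw [div_le_iff₀ hK0, mul_comm]
      have hd' : (2 : ℝ) ^ Module.finrank ℂ (Xm (RX F (crv (e1 : ℚ) e2 e3)) z) ≤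
          ((KL L : ℝ) * (max 1 (SY L δ (e2 - e1) (e3 - e1)).ncard : ℕ)) ^ 4 := by
        exact_mod_cast hd
      refine le_of_pow_le_pow_left₀ (n := 4) (by norm_num) (by positivity) ?_
      refine le_trans (le_of_eq ?_) hd'
      rw [← Real.rpow_natCast (2 ^ _) 4, ← Real.rpow_mul (by norm_num), ← Real.rpow_natCast]
      congr 1
      push_cast
      ring)
  refine ⟨(KL L : ℝ) ^ 2 * C, fun H => ⟨fun c hc => ?_, ?_⟩⟩
  · obtain ⟨e1, e2, e3, he, h12, h13, h23⟩ := hroots H c hc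
    have g12 : e1 ≠ e2 := fun h => h12 (by rw [h, sub_self])
    have g13 : e1 ≠ e3 := fun h => h13 (by rw [h, sub_self])
    have g23 : e2 ≠ e3 := fun h => h23 (by rw [h])
    have h3 := (hemb e1 e2 e3 g12 g13 g23 (cdfin (SY L δ) A _ hCD _ _ h12 h13 h23)).1
    rw [sh_crv he]
    exact ⟨h3, fg_crv F e1 e2 e3 g12 g13 g23⟩
  · have hC' := hC H
    have e : ∀ c : ℤ × ℤ, (2 : ℝ) ^ ((Module.finrank ℂ (Xm (RX F (Sh c.1 c.2)) z) : ℝ) / 2) =
        (KL L : ℝ) ^ 2 *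
          ((2 : ℝ) ^ ((Module.finrank ℂ (Xm (RX F (Sh c.1 c.2)) z) : ℝ) / 4) / KL L) ^ 2 := by
      intro c
      have e2 : (2 : ℝ) ^ ((Module.finrank ℂ (Xm (RX F (Sh c.1 c.2)) z) : ℝ) / 2) =
          ((2 : ℝ) ^ ((Module.finrank ℂ (Xm (RX F (Sh c.1 c.2)) z) : ℝ) / 4)) ^ 2 := by
        rw [← Real.rpow_natCast (2 ^ _) 2, ← Real.rpow_mul (by norm_num)]
        congr 1
        push_cast
        ring
      rw [e2, div_pow]
      field_simp
    simp only [e]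
    rw [← Finset.mul_sum, mul_assoc]
    exact mul_le_mul_of_nonneg_left hC' (by positivity)

end Pool.Agent.Helper30K9.QT
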