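import Pool.Agent.Helper30K9.QT.StmN
import Pool.Agent.Y669.Mer

/-!
# Mertens' theorem for the primes in the kernel of a group of Dirichlet characters

Adapted from `Pool.Agent.Y669.Mer`.
-/

set_option autoImplicit false

namespace Pool.Agent.Helper30K9.QT

open Finset Filter Pool.Agent.W262.RK

lemma sum_grpM {N : ℕ} (Ψ : Subgroup (DirichletCharacter ℂ N)) [Fintype Ψ]
    (u : ZMod N) [Decidable (∀ ψ ∈ Ψ, ψ u = 1)] :
    ∑ ψ : Ψ, (ψ : DirichletCharacter ℂ N) u =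
      if (∀ ψ ∈ Ψ, ψ u = 1) then (Fintype.card Ψ : ℂ) else 0 := by
  split_ifs with h
  · rw [sum_congr rfl (fun ψ _ => h ψ.1 ψ.2)]
    simp
  · push Not at h
    obtain ⟨ψ0, h0, h1⟩ := h
    have e : ∑ ψ : Ψ, (ψ : DirichletCharacter ℂ N) u =
        ψ0 u * ∑ ψ : Ψ, (ψ : DirichletCharacter ℂ N) u := by
      rw [mul_sum]
      refine (Fintype.sum_equiv (Equiv.mulLeft (⟨ψ0, h0⟩ : Ψ)) _ _ fun ψ => ?_).symm
      simp [MulChar.mul_apply]
    have e2 : (ψ0 u - 1) * ∑ ψ : Ψ, (ψ : DirichletCharacter ℂ N) u = 0 := by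
      linear_combination -e
    exact (mul_eq_zero.1 e2).resolve_left (sub_ne_zero.2 h1)

open Classical in
lemma card_kerG (N : ℕ) [NeZero N] (Ψ : Subgroup (DirichletCharacter ℂ N)) :
    ((univ.filter (fun a : ZMod N => ∀ ψ ∈ Ψ, ψ a = 1)).card : ℝ) * (Nat.card Ψ : ℝ) =
      Nat.totient N := by
  have : Fintype Ψ := Fintype.ofFinite _
  rw [Nat.card_eq_fintype_card]
  have h2 : ∑ a : ZMod N, ∑ ψ : Ψ, (ψ : DirichletCharacter ℂ N) a =
      ((univ.filter (fun a : ZMod N => ∀ ψ ∈ Ψ, ψ a = 1)).card : ℂ) * Fintype.card Ψ := by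
    rw [sum_congr rfl fun a _ => sum_grpM Ψ a, ← sum_filter, sum_const, nsmul_eq_mul]
  rw [sum_comm] at h2
  have h3 : ∀ ψ : Ψ, ∑ a : ZMod N, (ψ : DirichletCharacter ℂ N) a =
      if ψ = 1 then (Nat.totient N : ℂ) else 0 := by
    intro ψ
    split_ifs with hj0
    · rw [hj0, Subgroup.coe_one, MulChar.sum_one_eq_card_units, ZMod.card_units_eq_totient]
    · apply MulChar.sum_eq_zero_of_ne_one
      intro h
      exact hj0 (Subtype.ext h)
  rw [sum_congr rfl fun ψ _ => h3 ψ, sum_ite_eq' univ 1 fun _ => (Nat.totient N : ℂ),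
    if_pos (mem_univ _)] at h2
  exact_mod_cast h2.symm

open Classical in
lemma cnt_kerG (N : ℕ) [NeZero N] (Ψ : Subgroup (DirichletCharacter ℂ N)) (x : ℕ) :
    (((Icc 1 x).filter (fun p : ℕ => p.Prime ∧ ∀ ψ ∈ Ψ, ψ (p : ZMod N) = 1)).card : ℝ) =
      ∑ a ∈ univ.filter (fun a : ZMod N => ∀ ψ ∈ Ψ, ψ a = 1), H343E.piAP x N a.val := by
  unfold H343E.piAP
  have hmaps : ∀ p ∈ (Icc 1 x).filter (fun p : ℕ => p.Prime ∧ ∀ ψ ∈ Ψ, ψ (p : ZMod N) = 1),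
      ((p : ℕ) : ZMod N) ∈ univ.filter (fun a : ZMod N => ∀ ψ ∈ Ψ, ψ a = 1) := fun p hp =>
    mem_filter.2 ⟨mem_univ _, (mem_filter.1 hp).2.2⟩
  rw [card_eq_sum_card_fiberwise hmaps]
  push_cast
  refine sum_congr rfl fun a ha => ?_
  congr 2
  ext p
  rw [mem_filter, mem_filter, mem_filter]
  have h1 : (p ≡ a.val [MOD N]) ↔ (p : ZMod N) = a := by
    rw [← ZMod.natCast_eq_natCast_iff, ZMod.natCast_zmod_val]
  rw [h1]
  have h2 := (mem_filter.1 ha).2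
  constructor
  · rintro ⟨⟨q1, q2, q3⟩, q4⟩
    exact ⟨q1, q2, q4⟩
  · rintro ⟨q1, q2, q3⟩
    exact ⟨⟨q1, q2, by rw [q3]; exact h2⟩, q3⟩

open Classical in
/-- Mertens' theorem for the primes with `ψ(p) = 1` -/
theorem mer_psiG (N : ℕ) [NeZero N] (Ψ : Subgroup (DirichletCharacter ℂ N)) :
    ∃ C : ℝ, 0 ≤ C ∧ ∀ x : ℕ, 3 ≤ x →
      |∑ p ∈ (Icc 1 x).filter (fun p : ℕ => p.Prime ∧ ∀ ψ ∈ Ψ, ψ (p : ZMod N) = 1),
        (1 : ℝ) / p - (1 / (Nat.card Ψ : ℝ)) * Real.log (Real.log x)| ≤ C := by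
  obtain ⟨x0, hx0⟩ := Pool.Agent.H387R2.Uni.siegel
  have hN1 : 1 ≤ N := Nat.one_le_iff_ne_zero.2 (NeZero.ne N)
  have hlogx : Tendsto (fun x : ℕ => Real.log (x:ℝ)) atTop atTop :=
    Real.tendsto_log_atTop.comp tendsto_natCast_atTop_atTop
  obtain ⟨x1, hx1⟩ := eventually_atTop.1 (hlogx.eventually_ge_atTop (N : ℝ))
  have hm1 : (0 : ℝ) < (Nat.card Ψ : ℝ) := by exact_mod_cast Nat.card_pos
  have hφ : (0 : ℝ) < Nat.totient N := by exact_mod_cast Nat.totient_pos.2 hN1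
  have hker := card_kerG N Ψ
  refine Pool.Agent.Y669.mer_of (fun p : ℕ => ∀ ψ ∈ Ψ, ψ (p : ZMod N) = 1)
    (1 / (Nat.card Ψ : ℝ))
    ((univ.filter (fun a : ZMod N => ∀ ψ ∈ Ψ, ψ a = 1)).card + 1) (by positivity)
    (max (max x0 x1) 3) fun x hx => ?_
  have hxx0 : x0 ≤ x := (le_max_left _ _).trans ((le_max_left _ _).trans hx)
  have hxx1 : x1 ≤ x := (le_max_right _ _).trans ((le_max_left _ _).trans hx)
  have hxx3 : 3 ≤ x := (le_max_right _ _).trans hx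
  have hNx : (N : ℝ) ≤ Real.log x ^ 2 := by
    have h1 := hx1 x hxx1
    have h2 : (1 : ℝ) ≤ N := by exact_mod_cast hN1
    nlinarith
  have hpos : 0 ≤ (x : ℝ) / Real.log x ^ 6 := by positivity
  have e1 : (1 / (Nat.card Ψ : ℝ)) * H343E.pi1 x =
      ∑ _a ∈ univ.filter (fun a : ZMod N => ∀ ψ ∈ Ψ, ψ a = 1),
        H343E.pi1 x / (Nat.totient N : ℝ) := by
    rw [sum_const, nsmul_eq_mul, ← hker]
    have hc : ((univ.filter (fun a : ZMod N => ∀ ψ ∈ Ψ, ψ a = 1)).card : ℝ) ≠ 0 := by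
      intro h
      rw [h, zero_mul] at hker
      exact hφ.ne hker
    field_simp
  rw [cnt_kerG, e1, ← sum_sub_distrib]
  refine (abs_sum_le_sum_abs _ _).trans ?_
  have h3 : ∀ a ∈ univ.filter (fun a : ZMod N => ∀ ψ ∈ Ψ, ψ a = 1),
      |H343E.piAP x N a.val - H343E.pi1 x / (Nat.totient N : ℝ)| ≤ x / Real.log x ^ 6 := by
    intro a ha
    refine hx0 x hxx0 N hN1 hNx a.val (ZMod.val_lt a) ?_
    have h4 : IsUnit a := by
      by_contra h5
      have h6 := (mem_filter.1 ha).2 1 Ψ.one_mem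
      rw [MulChar.map_nonunit _ h5] at h6
      exact zero_ne_one h6
    rw [← ZMod.isUnit_iff_coprime, ZMod.natCast_zmod_val]
    exact h4
  refine (sum_le_sum h3).trans ?_
  rw [sum_const, nsmul_eq_mul, add_mul, one_mul]
  linarith

open Classical in
lemma mer_PSG (N : ℕ) [NeZero N] (Ψ : Subgroup (DirichletCharacter ℂ N)) :
    ∃ C : ℝ, 0 ≤ C ∧ ∀ z y : ℕ, 2 ≤ y →
    ∑ p ∈ (PS z y).filter (fun p : ℕ => ∀ ψ ∈ Ψ, ψ (p : ZMod N) = 1), (1 : ℝ) / p ≤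
      (1 / (Nat.card Ψ : ℝ)) * Real.log (Real.log y) + C := by
  obtain ⟨C, hC, h⟩ := mer_psiG N Ψ
  obtain ⟨m, hm⟩ : ∃ m : ℝ, m = (Nat.card Ψ : ℝ) := ⟨_, rfl⟩
  have hm1 : (0 : ℝ) < m := by rw [hm]; exact_mod_cast Nat.card_pos
  rw [← hm] at h ⊢
  refine ⟨C + (1 / m) * (|Real.log (Real.log 3)| + |Real.log (Real.log 2)|), by positivity,
    fun z y hy => ?_⟩
  have hsub : (PS z y).filter (fun p : ℕ => ∀ ψ ∈ Ψ, ψ (p : ZMod N) = 1) ⊆
      (Icc 1 (max y 3)).filter (fun p : ℕ => p.Prime ∧ ∀ ψ ∈ Ψ, ψ (p : ZMod N) = 1) := by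
    intro p hp
    rw [mem_filter] at hp
    obtain ⟨hp1, hp2⟩ := hp
    unfold PS at hp1
    rw [mem_filter, mem_Ioc] at hp1
    rw [mem_filter, mem_Icc]
    exact ⟨⟨hp1.2.one_lt.le, hp1.1.2.trans (le_max_left _ _)⟩, hp1.2, hp2⟩
  have h1 := sum_le_sum_of_subset_of_nonneg hsub (fun p _ _ => (by positivity : (0 : ℝ) ≤ 1 / (p : ℝ)))
  have h2 := (abs_le.1 (h (max y 3) (le_max_right _ _))).2
  have h3 : (1 / m) * Real.log (Real.log ((max y 3 : ℕ) : ℝ)) ≤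
      (1 / m) * Real.log (Real.log y) +
        (1 / m) * (|Real.log (Real.log 3)| + |Real.log (Real.log 2)|) := by
    rw [← mul_add]
    refine mul_le_mul_of_nonneg_left ?_ (by positivity)
    rcases le_or_gt 3 y with h3 | h3
    · rw [max_eq_left h3]
      have := abs_nonneg (Real.log (Real.log 3))
      have := abs_nonneg (Real.log (Real.log 2))
      linarith
    · have h4 : y = 2 := by omega
      subst h4
      have e : ((max 2 3 : ℕ) : ℝ) = 3 := by norm_num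
      rw [e]
      have h5 := le_abs_self (Real.log (Real.log 3))
      have h6 := neg_abs_le (Real.log (Real.log 2))
      push_cast
      linarith
  linarith

open Classical in
lemma mer_PSG' (N : ℕ) [NeZero N] (Ψ : Subgroup (DirichletCharacter ℂ N)) :
    ∃ C : ℝ, 0 ≤ C ∧ ∀ z y : ℕ, 2 ≤ y →
    ∑ p ∈ (PS z y).filter (fun p : ℕ => ¬ ∀ ψ ∈ Ψ, ψ (p : ZMod N) = 1), (1 : ℝ) / p ≤
      (1 - 1 / (Nat.card Ψ : ℝ)) * Real.log (Real.log y) + C := by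
  obtain ⟨C, hC, h⟩ := mer_psiG N Ψ
  obtain ⟨C1, hC1⟩ := Pool.Agent.Helper601.Mertens.mertens_inv
  have hC10 : 0 ≤ C1 := (abs_nonneg _).trans (hC1 3 le_rfl)
  obtain ⟨m, hm⟩ : ∃ m : ℝ, m = (Nat.card Ψ : ℝ) := ⟨_, rfl⟩
  have hm1 : (1 : ℝ) ≤ m := by
    rw [hm]
    have : 0 < Nat.card Ψ := Nat.card_pos
    exact_mod_cast this
  rw [← hm] at h ⊢
  have hm2 : (0 : ℝ) ≤ 1 - 1 / m := by
    rw [sub_nonneg, div_le_one (by linarith)]
    exact hm1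
  refine ⟨C1 + C + (1 - 1 / m) * (|Real.log (Real.log 3)| + |Real.log (Real.log 2)|),
    by positivity, fun z y hy => ?_⟩
  have hsub : (PS z y).filter (fun p : ℕ => ¬ ∀ ψ ∈ Ψ, ψ (p : ZMod N) = 1) ⊆
      (Icc 1 (max y 3)).filter (fun p : ℕ => p.Prime ∧ ¬ ∀ ψ ∈ Ψ, ψ (p : ZMod N) = 1) := by
    intro p hp
    rw [mem_filter] at hp
    obtain ⟨hp1, hp2⟩ := hp
    unfold PS at hp1
    rw [mem_filter, mem_Ioc] at hp1
    rw [mem_filter, mem_Icc]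
    exact ⟨⟨hp1.2.one_lt.le, hp1.1.2.trans (le_max_left _ _)⟩, hp1.2, hp2⟩
  have h1 := sum_le_sum_of_subset_of_nonneg hsub (fun p _ _ => (by positivity : (0 : ℝ) ≤ 1 / (p : ℝ)))
  have h2 := (abs_le.1 (h (max y 3) (le_max_right _ _))).1
  have h2' := (abs_le.1 (hC1 (max y 3) (le_max_right _ _))).2
  have hsplit : ∑ p ∈ (Icc 1 (max y 3)).filter Nat.Prime, (1 : ℝ) / p =
      ∑ p ∈ (Icc 1 (max y 3)).filter (fun p : ℕ => p.Prime ∧ ∀ ψ ∈ Ψ, ψ (p : ZMod N) = 1),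
        (1 : ℝ) / p +
      ∑ p ∈ (Icc 1 (max y 3)).filter (fun p : ℕ => p.Prime ∧ ¬ ∀ ψ ∈ Ψ, ψ (p : ZMod N) = 1),
        (1 : ℝ) / p := by
    rw [← sum_filter_add_sum_filter_not ((Icc 1 (max y 3)).filter Nat.Prime)
      (fun p : ℕ => ∀ ψ ∈ Ψ, ψ (p : ZMod N) = 1), filter_filter, filter_filter]
  have h3 : (1 - 1 / m) * Real.log (Real.log ((max y 3 : ℕ) : ℝ)) ≤
      (1 - 1 / m) * Real.log (Real.log y) +
        (1 - 1 / m) * (|Real.log (Real.log 3)| + |Real.log (Real.log 2)|) := by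
    rw [← mul_add]
    refine mul_le_mul_of_nonneg_left ?_ hm2
    rcases le_or_gt 3 y with h3 | h3
    · rw [max_eq_left h3]
      have := abs_nonneg (Real.log (Real.log 3))
      have := abs_nonneg (Real.log (Real.log 2))
      linarith
    · have h4 : y = 2 := by omega
      subst h4
      have e : ((max 2 3 : ℕ) : ℝ) = 3 := by norm_num
      rw [e]
      have h5 := le_abs_self (Real.log (Real.log 3))
      have h6 := neg_abs_le (Real.log (Real.log 2))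
      push_cast
      linarith
  linarith

theorem mer : S_MER := by
  intro N _ Ψ
  exact ⟨mer_PSG N Ψ, mer_PSG' N Ψ⟩

end Pool.Agent.Helper30K9.QT
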